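import Mathlib

set_option autoImplicit false

open Topology Filter Set
open scoped Pointwise

namespace Pool.Agent.Helper87

universe u v

section AsympCentral

variable {H : Type u} [Group H] [TopologicalSpace H] [IsTopologicalGroup H]

/-- A filter on `H` is asymptotically central if conjugation by its elements tends to the
identity, locally uniformly. -/
def AsympCentral (l : Filter H) : Prop :=
  ∀ g : H, Tendsto (fun p : H × H => p.1 * p.2 * p.1⁻¹) (l ×ˢ 𝓝 g) (𝓝 g) ∧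
    Tendsto (fun p : H × H => p.1⁻¹ * p.2 * p.1) (l ×ˢ 𝓝 g) (𝓝 g)

theorem AsympCentral.pow {l : Filter H} (hl : AsympCentral l) (e : ℕ) (g : H) :
    Tendsto (fun p : H × H => p.1 ^ e * p.2 * (p.1 ^ e)⁻¹) (l ×ˢ 𝓝 g) (𝓝 g) ∧
    Tendsto (fun p : H × H => (p.1 ^ e)⁻¹ * p.2 * p.1 ^ e) (l ×ˢ 𝓝 g) (𝓝 g) := by
  induction e with
  | zero =>
    simp only [pow_zero, one_mul, inv_one, mul_one]
    exact ⟨tendsto_snd, tendsto_snd⟩
  | succ e ih =>
    constructor
    · have h1 : Tendsto (fun p : H × H => (p.1, p.1 * p.2 * p.1⁻¹)) (l ×ˢ 𝓝 g) (l ×ˢ 𝓝 g) :=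
        tendsto_fst.prodMk (hl g).1
      have h2 := ih.1.comp h1
      refine h2.congr ?_
      intro p
      simp only [Function.comp_apply, pow_succ, mul_inv_rev]
      group
    · have h1 : Tendsto (fun p : H × H => (p.1, p.1⁻¹ * p.2 * p.1)) (l ×ˢ 𝓝 g) (l ×ˢ 𝓝 g) :=
        tendsto_fst.prodMk (hl g).2
      have h2 := ih.2.comp h1
      refine h2.congr ?_
      intro p
      simp only [Function.comp_apply, pow_succ', mul_inv_rev]
      group

theorem AsympCentral.zpow {l : Filter H} (hl : AsympCentral l) (e : ℤ) (g : H) :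
    Tendsto (fun p : H × H => p.1 ^ e * p.2 * (p.1 ^ e)⁻¹) (l ×ˢ 𝓝 g) (𝓝 g) := by
  rcases e with n | n
  · simpa using (hl.pow n g).1
  · simpa [zpow_negSucc] using (hl.pow (n+1) g).2

theorem AsympCentral.eventually_zpow {l : Filter H} (hl : AsympCentral l) (e : ℤ)
    {K U : Set H} (hK : IsCompact K) (hU : U ∈ 𝓝 (1 : H)) :
    ∀ᶠ x in l, ∀ g ∈ K, x ^ e * g * (x ^ e)⁻¹ * g⁻¹ ∈ U := by
  have h1 : {p : H × H | p.1 ^ e * p.2 * (p.1 ^ e)⁻¹ * p.2⁻¹ ∈ U} ∈ l ×ˢ 𝓝ˢ K := by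
    rw [hK.prod_nhdsSet_eq_biSup]
    simp only [mem_iSup]
    intro g hg
    have h2 : Tendsto (fun p : H × H => p.1 ^ e * p.2 * (p.1 ^ e)⁻¹ * p.2⁻¹) (l ×ˢ 𝓝 g)
        (𝓝 (g * g⁻¹)) := (hl.zpow e g).mul tendsto_snd.inv
    rw [mul_inv_cancel] at h2
    exact h2 hU
  obtain ⟨A, hA, N, hN, hAN⟩ := mem_prod_iff.mp h1
  filter_upwards [hA] with x hx g hg
  exact hAN (show (x, g) ∈ A ×ˢ N from ⟨hx, subset_of_mem_nhdsSet hN hg⟩)

theorem AsympCentral.eventually_pt {l : Filter H} (hl : AsympCentral l) (e : ℕ) (g : H) :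
    Tendsto (fun x : H => (x ^ e)⁻¹ * g * x ^ e) l (𝓝 g) := by
  have h1 : Tendsto (fun x : H => (x, g)) l (l ×ˢ 𝓝 g) :=
    tendsto_id.prodMk tendsto_const_nhds
  exact (hl.pow e g).2.comp h1

/-- The filter of all `x * x'⁻¹` with `x` and then `x'` along `l`. -/
def diffFilter (l : Filter H) : Filter H := l.bind (fun x => l.map (fun x' => x * x'⁻¹))

theorem eventually_diffFilter {l : Filter H} {p : H → Prop} :
    (∀ᶠ y in diffFilter l, p y) ↔ ∀ᶠ x in l, ∀ᶠ x' in l, p (x * x'⁻¹) := by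
  unfold diffFilter
  rw [Filter.eventually_bind]
  rfl

theorem AsympCentral.diffFilter {l : Filter H} (hl : AsympCentral l) :
    AsympCentral (diffFilter l) := by
  intro g
  constructor
  · intro O hO
    obtain ⟨A, hA, M, hM, hAM⟩ := mem_prod_iff.mp ((hl g).1 hO)
    obtain ⟨A', hA', N, hN, hAN⟩ := mem_prod_iff.mp ((hl g).2 hM)
    refine mem_prod_iff.mpr ⟨{y | ∀ h ∈ N, y * h * y⁻¹ ∈ O}, ?_, N, hN, ?_⟩
    · apply eventually_diffFilter.mpr
      filter_upwards [hA] with x hx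
      filter_upwards [hA'] with x' hx' h hh
      have h1 : x'⁻¹ * h * x' ∈ M := hAN (show (x', h) ∈ A' ×ˢ N from ⟨hx', hh⟩)
      have h2 : x * (x'⁻¹ * h * x') * x⁻¹ ∈ O :=
        hAM (show (x, x'⁻¹ * h * x') ∈ A ×ˢ M from ⟨hx, h1⟩)
      have h3 : x * x'⁻¹ * h * (x * x'⁻¹)⁻¹ = x * (x'⁻¹ * h * x') * x⁻¹ := by group
      rw [h3]; exact h2
    · rintro ⟨y, h⟩ ⟨hy, hh⟩
      exact hy h hh
  · intro O hO
    obtain ⟨A, hA, M, hM, hAM⟩ := mem_prod_iff.mp ((hl g).1 hO)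
    obtain ⟨A', hA', N, hN, hAN⟩ := mem_prod_iff.mp ((hl g).2 hM)
    refine mem_prod_iff.mpr ⟨{y | ∀ h ∈ N, y⁻¹ * h * y ∈ O}, ?_, N, hN, ?_⟩
    · apply eventually_diffFilter.mpr
      filter_upwards [hA'] with x hx
      filter_upwards [hA] with x' hx' h hh
      have h1 : x⁻¹ * h * x ∈ M := hAN (show (x, h) ∈ A' ×ˢ N from ⟨hx, hh⟩)
      have h2 : x' * (x⁻¹ * h * x) * x'⁻¹ ∈ O :=
        hAM (show (x', x⁻¹ * h * x) ∈ A ×ˢ M from ⟨hx', h1⟩)
      have h3 : (x * x'⁻¹)⁻¹ * h * (x * x'⁻¹) = x' * (x⁻¹ * h * x) * x'⁻¹ := by group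
      rw [h3]; exact h2
    · rintro ⟨y, h⟩ ⟨hy, hh⟩
      exact hy h hh

instance diffFilter_neBot (l : Filter H) [l.NeBot] : (diffFilter l).NeBot := by
  constructor
  intro h
  have h1 : ∀ᶠ _ in diffFilter l, False := by rw [h]; exact eventually_bot
  rw [eventually_diffFilter] at h1
  obtain ⟨x, hx⟩ := h1.exists
  obtain ⟨_, hx⟩ := hx.exists
  exact hx

theorem tendsto_pow_mul {l : Filter H} (hl : AsympCentral l) (e : ℕ) (x : H) :
    Tendsto (fun x' : H => (x * x'⁻¹) ^ e * x' ^ e) l (𝓝 (x ^ e)) := by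
  induction e with
  | zero => simp only [pow_zero, mul_one]; exact tendsto_const_nhds
  | succ e ih =>
    have h1 := ih.mul (hl.eventually_pt e x)
    rw [← pow_succ] at h1
    refine h1.congr ?_
    intro x'
    rw [pow_succ (x * x'⁻¹), pow_succ' x']
    group

theorem diffFilter_dichotomy [LocallyCompactSpace H] [T2Space H] (l : Ultrafilter H)
    (hl : AsympCentral (l : Filter H)) (e : ℕ) :
    Tendsto (fun y : H => y ^ e) (diffFilter (l : Filter H)) (𝓝 1) ∨
      (∀ K : Set H, IsCompact K → ∀ᶠ y in diffFilter (l : Filter H), y ^ e ∉ K) := by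
  by_cases hc : ∃ K : Set H, IsCompact K ∧ ∀ᶠ x in (l : Filter H), x ^ e ∈ K
  · left
    obtain ⟨K, hK, hKl⟩ := hc
    obtain ⟨a, -, ha⟩ := hK.ultrafilter_le_nhds' (l.map (fun x => x ^ e)) hKl
    have ha' : Tendsto (fun x : H => x ^ e) (l : Filter H) (𝓝 a) := ha
    intro O hO
    obtain ⟨O', hO'O, hO'o, hO'1⟩ := mem_nhds_iff.mp hO
    apply mem_of_superset _ (preimage_mono hO'O)
    apply eventually_diffFilter.mpr
    have h1 : Tendsto (fun x : H => x ^ e * a⁻¹) (l : Filter H) (𝓝 (a * a⁻¹)) :=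
      ha'.mul tendsto_const_nhds
    rw [mul_inv_cancel] at h1
    filter_upwards [h1 (hO'o.mem_nhds hO'1)] with x hx
    have h2 : Tendsto (fun x' : H => ((x * x'⁻¹) ^ e * x' ^ e) * (x' ^ e)⁻¹) (l : Filter H)
        (𝓝 (x ^ e * a⁻¹)) := (tendsto_pow_mul hl e x).mul ha'.inv
    filter_upwards [h2 (hO'o.mem_nhds hx)] with x' hx'
    have h3 : ((x * x'⁻¹) ^ e * x' ^ e) * (x' ^ e)⁻¹ = (x * x'⁻¹) ^ e := by group
    have hx'' : ((x * x'⁻¹) ^ e * x' ^ e) * (x' ^ e)⁻¹ ∈ O' := hx'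
    rw [h3] at hx''
    exact hx''
  · right
    push Not at hc
    intro K hK
    apply eventually_diffFilter.mpr
    refine Eventually.of_forall fun x => ?_
    obtain ⟨C, hC, hCx⟩ := exists_compact_mem_nhds (x ^ e)
    have h1 := hc (K⁻¹ * C) (hK.inv.mul hC)
    filter_upwards [h1, tendsto_pow_mul hl e x hCx] with x' hx' hx'' hmem
    apply hx'
    refine ⟨((x * x'⁻¹) ^ e)⁻¹, ?_, _, hx'', ?_⟩
    · simpa using hmem
    · simp only; group

/-- Existence of far away, almost central elements whose small powers are either far away or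
close to `1`. -/
theorem exists_good_element [LocallyCompactSpace H] [T2Space H] (l : Ultrafilter H)
    (hl : AsympCentral (l : Filter H))
    (hinf : ∀ K : Set H, IsCompact K → ∀ᶠ x in (l : Filter H), x ∉ K)
    {K U : Set H} (hK : IsCompact K) (hU : U ∈ 𝓝 (1 : H)) (N : ℕ) :
    ∃ y : H, y ∉ K ∧ ∀ e : ℤ, |e| ≤ N →
      (∀ g ∈ K, y ^ e * g * (y ^ e)⁻¹ * g⁻¹ ∈ U) ∧ (y ^ e ∉ K ∨ y ^ e ∈ U) := by
  have h1 : ∀ᶠ y in diffFilter (l : Filter H), y ∉ K := by
    rcases diffFilter_dichotomy l hl 1 with h | h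
    · exfalso
      simp only [pow_one] at h
      -- then `x * x'⁻¹` is eventually in a compact set
      obtain ⟨C, hC, hC1⟩ := exists_compact_mem_nhds (1 : H)
      have h2 : ∀ᶠ y in diffFilter (l : Filter H), y ∈ C := h hC1
      rw [eventually_diffFilter] at h2
      obtain ⟨x, hx⟩ := h2.exists
      have h3 := hinf (C⁻¹ * {x}) (hC.inv.mul isCompact_singleton)
      obtain ⟨x', hx', hx''⟩ := (hx.and h3).exists
      apply hx''
      exact ⟨(x * x'⁻¹)⁻¹, by simpa using hx', x, rfl, by group⟩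
    · simpa using h K hK
  have h2 : ∀ᶠ y in diffFilter (l : Filter H), ∀ e ∈ Finset.Icc (-(N : ℤ)) N,
      (∀ g ∈ K, y ^ e * g * (y ^ e)⁻¹ * g⁻¹ ∈ U) ∧ (y ^ e ∉ K ∨ y ^ e ∈ U) := by
    rw [Filter.eventually_all_finset]
    intro e _
    refine (hl.diffFilter.eventually_zpow e hK hU).and ?_
    rcases e with n | n
    · simp only [Int.ofNat_eq_natCast, zpow_natCast]
      rcases diffFilter_dichotomy l hl n with h | h
      · filter_upwards [h hU] with y hy
        exact Or.inr hy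
      · filter_upwards [h K hK] with y hy
        exact Or.inl hy
    · simp only [zpow_negSucc]
      rcases diffFilter_dichotomy l hl (n+1) with h | h
      · have h' := h.inv
        rw [inv_one] at h'
        filter_upwards [h' hU] with y hy
        exact Or.inr hy
      · filter_upwards [h K⁻¹ hK.inv] with y hy
        exact Or.inl (by simpa using hy)
  obtain ⟨y, hy1, hy2⟩ := (h1.and h2).exists
  refine ⟨y, hy1, fun e he => hy2 e ?_⟩
  rw [Finset.mem_Icc]
  exact abs_le.mp he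

end AsympCentral

end Pool.Agent.Helper87
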