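import Pool.Agent.Helper87.MinimalGroup

/-!
The Birkhoff topology on the group of inner automorphisms of a locally compact group.
-/

set_option autoImplicit false

open Topology Filter Set
open scoped Pointwise

namespace Pool.Agent.Helper87

universe u v

/-- The group of inner automorphisms of `G`, as a subgroup of the automorphism group. -/
abbrev Inn (G : Type u) [Group G] : Subgroup (MulAut G) := (MulAut.conj : G →* MulAut G).range

/-- The basic neighbourhood `B(C, U) = {f ∈ Inn G : f g ∈ U g and f⁻¹ g ∈ U g for all g ∈ C}`. -/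
def birkhoffNhd {G : Type u} [Group G] (C U : Set G) : Set (Inn G) :=
  {f | ∀ g ∈ C, (f : MulAut G) g * g⁻¹ ∈ U ∧ ((f⁻¹ : Inn G) : MulAut G) g * g⁻¹ ∈ U}

variable {G : Type u} [Group G] [TopologicalSpace G] [IsTopologicalGroup G]

theorem continuous_inn (f : Inn G) : Continuous (fun g : G => (f : MulAut G) g) := by
  obtain ⟨f, x, rfl⟩ := f
  simp only [MulAut.conj_apply]
  fun_prop

theorem inn_mul_apply (f h : Inn G) (g : G) :
    ((f * h : Inn G) : MulAut G) g = (f : MulAut G) ((h : MulAut G) g) := rfl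

theorem inn_inv_apply_apply (f : Inn G) (g : G) :
    ((f⁻¹ : Inn G) : MulAut G) ((f : MulAut G) g) = g := by
  rw [← inn_mul_apply, inv_mul_cancel]; rfl

theorem inn_apply_inv_apply (f : Inn G) (g : G) :
    (f : MulAut G) (((f⁻¹ : Inn G) : MulAut G) g) = g := by
  rw [← inn_mul_apply, mul_inv_cancel]; rfl

variable (G) in
/-- The neighbourhood basis at the identity of the Birkhoff topology on `Inn G`. -/
@[reducible] def birkhoffBasis [LocallyCompactSpace G] : GroupFilterBasis (Inn G) where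
  sets := {S | ∃ C U : Set G, IsCompact C ∧ U ∈ 𝓝 (1 : G) ∧ S = birkhoffNhd C U}
  nonempty := ⟨_, ∅, univ, isCompact_empty, univ_mem, rfl⟩
  inter_sets := by
    rintro _ _ ⟨C, U, hC, hU, rfl⟩ ⟨C', U', hC', hU', rfl⟩
    refine ⟨_, ⟨C ∪ C', U ∩ U', hC.union hC', inter_mem hU hU', rfl⟩, ?_⟩
    intro f hf
    exact ⟨fun g hg => ⟨(hf g (Or.inl hg)).1.1, (hf g (Or.inl hg)).2.1⟩,
      fun g hg => ⟨(hf g (Or.inr hg)).1.2, (hf g (Or.inr hg)).2.2⟩⟩
  one' := by
    rintro _ ⟨C, U, hC, hU, rfl⟩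
    intro g hg
    have : (((1 : Inn G) : MulAut G) g) * g⁻¹ = 1 := by simp
    refine ⟨?_, ?_⟩
    · rw [this]; exact mem_of_mem_nhds hU
    · rw [inv_one, this]; exact mem_of_mem_nhds hU
  mul' := by
    rintro _ ⟨C, U, hC, hU, rfl⟩
    obtain ⟨V, hV, hVU⟩ : ∃ V ∈ 𝓝 (1 : G), V * V ⊆ U := by
      obtain ⟨V, hVo, hV1, hVU⟩ := exists_open_nhds_one_mul_subset hU
      exact ⟨V, hVo.mem_nhds hV1, hVU⟩
    obtain ⟨K, hK, hK1⟩ := exists_compact_mem_nhds (1 : G)
    refine ⟨_, ⟨C ∪ K * C, V ∩ K, hC.union (hK.mul hC), inter_mem hV hK1, rfl⟩, ?_⟩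
    rintro _ ⟨f, hf, h, hh, rfl⟩ g hg
    have key : ∀ f h : Inn G,
        f ∈ birkhoffNhd (C ∪ K * C) (V ∩ K) → h ∈ birkhoffNhd (C ∪ K * C) (V ∩ K) →
        ∀ g ∈ C, ((f * h : Inn G) : MulAut G) g * g⁻¹ ∈ U := by
      intro f h hf hh g hg
      have h1 := (hh g (Or.inl hg)).1
      have h2 : (h : MulAut G) g ∈ K * C :=
        ⟨_, h1.2, g, hg, by group⟩
      have h3 := (hf _ (Or.inr h2)).1
      have h4 : ((f * h : Inn G) : MulAut G) g * g⁻¹ =
          ((f : MulAut G) ((h : MulAut G) g) * ((h : MulAut G) g)⁻¹) *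
            ((h : MulAut G) g * g⁻¹) := by
        rw [inn_mul_apply]; group
      rw [h4]
      exact hVU ⟨_, h3.1, _, h1.1, rfl⟩
    refine ⟨key f h hf hh g hg, ?_⟩
    have hf' : f⁻¹ ∈ birkhoffNhd (C ∪ K * C) (V ∩ K) := by
      intro g hg; have := hf g hg; rw [inv_inv]; exact ⟨this.2, this.1⟩
    have hh' : h⁻¹ ∈ birkhoffNhd (C ∪ K * C) (V ∩ K) := by
      intro g hg; have := hh g hg; rw [inv_inv]; exact ⟨this.2, this.1⟩
    have := key h⁻¹ f⁻¹ hh' hf' g hg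
    simpa only [mul_inv_rev] using this
  inv' := by
    rintro _ ⟨C, U, hC, hU, rfl⟩
    refine ⟨_, ⟨C, U, hC, hU, rfl⟩, ?_⟩
    intro f hf g hg
    have := hf g hg
    rw [inv_inv]; exact ⟨this.2, this.1⟩
  conj' := by
    rintro f₀ _ ⟨C, U, hC, hU, rfl⟩
    refine ⟨_, ⟨(fun g => ((f₀⁻¹ : Inn G) : MulAut G) g) '' C,
      (fun g => (f₀ : MulAut G) g) ⁻¹' U, hC.image (continuous_inn f₀⁻¹),
      (continuous_inn f₀).continuousAt.preimage_mem_nhds (by simpa using hU), rfl⟩, ?_⟩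
    intro f hf g hg
    have h1 := hf _ ⟨g, hg, rfl⟩
    have e1 : ((f₀ * f * f₀⁻¹ : Inn G) : MulAut G) g * g⁻¹ = (f₀ : MulAut G)
        ((f : MulAut G) (((f₀⁻¹ : Inn G) : MulAut G) g) * (((f₀⁻¹ : Inn G) : MulAut G) g)⁻¹) := by
      rw [map_mul, map_inv, inn_apply_inv_apply]; rfl
    have e2 : (((f₀ * f * f₀⁻¹)⁻¹ : Inn G) : MulAut G) g * g⁻¹ = (f₀ : MulAut G)
        (((f⁻¹ : Inn G) : MulAut G) (((f₀⁻¹ : Inn G) : MulAut G) g) *
          (((f₀⁻¹ : Inn G) : MulAut G) g)⁻¹) := by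
      rw [map_mul, map_inv, inn_apply_inv_apply]
      have : (f₀ * f * f₀⁻¹)⁻¹ = f₀ * f⁻¹ * f₀⁻¹ := by group
      rw [this]; rfl
    refine ⟨?_, ?_⟩
    · change ((f₀ * f * f₀⁻¹ : Inn G) : MulAut G) g * g⁻¹ ∈ U
      rw [e1]; exact h1.1
    · change (((f₀ * f * f₀⁻¹)⁻¹ : Inn G) : MulAut G) g * g⁻¹ ∈ U
      rw [e2]; exact h1.2

variable (G) in
/-- The Birkhoff topology on `Inn G` for a locally compact group `G`: the group topology with
neighbourhood basis `B(C, U)` at the identity, `C` compact and `U` a neighbourhood of `1`. -/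
@[reducible] def birkhoff [LocallyCompactSpace G] : TopologicalSpace (Inn G) :=
  (birkhoffBasis G).topology

theorem birkhoff_isTopologicalGroup [LocallyCompactSpace G] :
    @IsTopologicalGroup (Inn G) (birkhoff G) _ :=
  (birkhoffBasis G).isTopologicalGroup

theorem birkhoff_nhds_one [LocallyCompactSpace G] :
    (@nhds (Inn G) (birkhoff G) 1).HasBasis
      (fun p : Set G × Set G => IsCompact p.1 ∧ p.2 ∈ 𝓝 (1 : G))
      (fun p => birkhoffNhd p.1 p.2) := by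
  have h := (birkhoffBasis G).nhds_one_hasBasis
  constructor
  intro t
  rw [h.mem_iff]
  constructor
  · rintro ⟨_, ⟨C, U, hC, hU, rfl⟩, ht⟩
    exact ⟨(C, U), ⟨hC, hU⟩, ht⟩
  · rintro ⟨⟨C, U⟩, ⟨hC, hU⟩, ht⟩
    exact ⟨_, ⟨C, U, hC, hU, rfl⟩, ht⟩

/-- Continuity of the canonical map `G → Inn G`. -/
theorem continuous_toInn [LocallyCompactSpace G] :
    @Continuous G (Inn G) _ (birkhoff G) (MulAut.conj : G →* MulAut G).rangeRestrict := by
  let := birkhoff G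
  have : IsTopologicalGroup (Inn G) := birkhoff_isTopologicalGroup
  apply continuous_of_continuousAt_one
  rw [ContinuousAt, map_one, birkhoff_nhds_one.tendsto_right_iff]
  rintro ⟨C, U⟩ ⟨hC, hU⟩
  have h5 : ∀ᶠ x in 𝓝 (1 : G), ∀ g ∈ C, x * g * x⁻¹ * g⁻¹ ∈ U ∧ x⁻¹ * g * x * g⁻¹ ∈ U := by
    apply hC.eventually_forall_of_forall_eventually
    intro d hd
    have ha : Tendsto (fun p : G × G => p.1 * p.2 * p.1⁻¹ * p.2⁻¹) (𝓝 (1, d))
        (𝓝 (1 * d * 1⁻¹ * d⁻¹)) := by apply Continuous.tendsto; fun_prop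
    have hb : Tendsto (fun p : G × G => p.1⁻¹ * p.2 * p.1 * p.2⁻¹) (𝓝 (1, d))
        (𝓝 (1⁻¹ * d * 1 * d⁻¹)) := by apply Continuous.tendsto; fun_prop
    simp only [one_mul, inv_one, mul_one, mul_inv_cancel] at ha hb
    exact (ha.eventually_mem hU).and (hb.eventually_mem hU)
  filter_upwards [h5] with x hx g hg
  refine ⟨(hx g hg).1, ?_⟩
  have h2 := (hx g hg).2
  have : (((MulAut.conj : G →* MulAut G).rangeRestrict x)⁻¹ : Inn G) =
      (MulAut.conj : G →* MulAut G).rangeRestrict x⁻¹ := by rw [map_inv]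
  rw [this]
  change MulAut.conj x⁻¹ g * g⁻¹ ∈ U
  rw [MulAut.conj_apply, inv_inv]
  exact h2

end Pool.Agent.Helper87
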