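import Mathlib

/-!
Support file: minimal group topologies, the Birkhoff topology on the group of inner
automorphisms of a locally compact group, and a criterion for the minimality of all powers.
-/

set_option autoImplicit false

open Topology Filter Set
open scoped Pointwise

namespace Pool.Agent.Helper87

universe u v

/-- A topology `τ` on a group `H` is a minimal group topology: it is a Hausdorff group topology and
there is no strictly coarser Hausdorff group topology on `H`. -/
def IsMinimalGroupTopology {H : Type u} [Group H] (τ : TopologicalSpace H) : Prop :=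
  @IsTopologicalGroup H τ _ ∧ @T2Space H τ ∧
    ∀ σ : TopologicalSpace H, @IsTopologicalGroup H σ _ → @T2Space H σ → τ ≤ σ → σ = τ

section Powers

variable {H : Type u} [Group H]

/-- The asymptotic centraliser `{x : [x, d] ∈ V and [x⁻¹, d] ∈ V for all d ∈ D}`. -/
def asympCent (D V : Set H) : Set H :=
  {x | ∀ d ∈ D, x * d * x⁻¹ * d⁻¹ ∈ V ∧ x⁻¹ * d * x * d⁻¹ ∈ V}

theorem mulSingle_comm_aux {κ : Type v} [DecidableEq κ] (i : κ) (x : κ → H) (h : H) :
    (Pi.mulSingle i (x i * h * (x i)⁻¹ * h⁻¹) : κ → H) =
      x * Pi.mulSingle i h * x⁻¹ * (Pi.mulSingle i h)⁻¹ := by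
  funext j
  by_cases hj : j = i
  · subst hj; simp
  · simp [Pi.mulSingle_eq_of_ne hj]

/-- If some asymptotic centraliser of the minimal group `H` is contained in a compact set, then all
powers of `H` are minimal. -/
theorem powers_minimal_of_asympCent [τ : TopologicalSpace H]
    (hmin : IsMinimalGroupTopology τ)
    (D V K : Set H) (hD : IsCompact D) (hV : V ∈ 𝓝 (1 : H)) (hK : IsCompact K)
    (hDV : asympCent D V ⊆ K) (κ : Type v) :
    IsMinimalGroupTopology (@Pi.topologicalSpace κ (fun _ => H) (fun _ => τ)) := by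
  classical
  obtain ⟨hg, ht, hm⟩ := hmin
  refine ⟨inferInstance, inferInstance, ?_⟩
  intro σ hσg hσt hle
  -- Step 1 : the induced topologies on the factors
  have hind : ∀ i : κ, TopologicalSpace.induced (fun h : H => (Pi.mulSingle i h : κ → H)) σ = τ := by
    intro i
    refine hm _ ?_ ?_ ?_
    · exact @topologicalGroup_induced (κ → H) H σ _ hσg (H →* (κ → H)) _ _ _
        (MonoidHom.mulSingle (fun _ : κ => H) i)
    · have hinj : Function.Injective (fun h : H => (Pi.mulSingle i h : κ → H)) :=
        Pi.mulSingle_injective (M := fun _ : κ => H) i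
      exact @T2Space.of_injective_continuous H (κ → H)
        (TopologicalSpace.induced (fun h : H => (Pi.mulSingle i h : κ → H)) σ) σ hσt _
        hinj continuous_induced_dom
    · rw [← continuous_iff_le_induced]
      have h1 : @Continuous H (κ → H) τ (@Pi.topologicalSpace κ (fun _ => H) (fun _ => τ))
          (fun h : H => (Pi.mulSingle i h : κ → H)) :=
        continuous_mulSingle (A := fun _ : κ => H) i
      exact continuous_le_rng hle h1
  -- Step 2 : the commutator map is continuous
  have hcont : ∀ i : κ, @Continuous ((κ → H) × H) H (@instTopologicalSpaceProd _ _ σ τ) τ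
      (fun p => p.1 i * p.2 * (p.1 i)⁻¹ * p.2⁻¹) := by
    intro i
    have hc : @Continuous ((κ → H) × H) H (@instTopologicalSpaceProd _ _ σ τ)
      (TopologicalSpace.induced (fun h : H => (Pi.mulSingle i h : κ → H)) σ)
      (fun p => p.1 i * p.2 * (p.1 i)⁻¹ * p.2⁻¹) := by
      rw [@continuous_induced_rng]
      have heq : ((fun h : H => (Pi.mulSingle i h : κ → H)) ∘
          fun p : (κ → H) × H => p.1 i * p.2 * (p.1 i)⁻¹ * p.2⁻¹) =
          fun p : (κ → H) × H =>
            p.1 * Pi.mulSingle i p.2 * (p.1)⁻¹ * (Pi.mulSingle i p.2)⁻¹ := by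
        funext p
        exact mulSingle_comm_aux i p.1 p.2
      rw [heq]
      let := σ
      have h1 : @Continuous H (κ → H) τ σ (fun h : H => (Pi.mulSingle i h : κ → H)) := by
        rw [continuous_iff_le_induced, hind i]
      have h2 : @Continuous ((κ → H) × H) (κ → H) (@instTopologicalSpaceProd _ _ σ τ) σ
          (fun p => Pi.mulSingle i p.2) := h1.comp continuous_snd
      have h3 : @Continuous ((κ → H) × H) (κ → H) (@instTopologicalSpaceProd _ _ σ τ) σ
          (fun p => p.1) := continuous_fst
      exact ((h3.mul h2).mul h3.inv).mul h2.inv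
    rw [hind i] at hc
    exact hc
  -- the same with the inverse
  have hcont' : ∀ i : κ, @Continuous ((κ → H) × H) H (@instTopologicalSpaceProd _ _ σ τ) τ
      (fun p => (p.1 i)⁻¹ * p.2 * (p.1 i) * p.2⁻¹) := by
    intro i
    let := σ
    have h3 : @Continuous ((κ → H) × H) ((κ → H) × H) (@instTopologicalSpaceProd _ _ σ τ)
        (@instTopologicalSpaceProd _ _ σ τ) (fun p => (p.1⁻¹, p.2)) :=
      (continuous_fst.inv).prodMk continuous_snd
    have h4 := (hcont i).comp h3
    have : ((fun p : (κ → H) × H => p.1 i * p.2 * (p.1 i)⁻¹ * p.2⁻¹) ∘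
        fun p : (κ → H) × H => (p.1⁻¹, p.2)) = fun p => (p.1 i)⁻¹ * p.2 * (p.1 i) * p.2⁻¹ := by
      funext p
      simp
    rw [this] at h4
    exact h4
  -- Step 3 : σ-neighbourhoods of `1` have coordinates in the asymptotic centraliser
  have hnear : ∀ i : κ, ∀ᶠ x in @nhds (κ → H) σ 1, x i ∈ K := by
    intro i
    let := σ
    have h5 : ∀ᶠ x in @nhds (κ → H) σ 1, ∀ d ∈ D,
        x i * d * (x i)⁻¹ * d⁻¹ ∈ V ∧ (x i)⁻¹ * d * (x i) * d⁻¹ ∈ V := by
      apply hD.eventually_forall_of_forall_eventually
      intro d hd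
      have ha := (hcont i).tendsto ((1 : κ → H), d)
      have hb := (hcont' i).tendsto ((1 : κ → H), d)
      simp only [Pi.one_apply, one_mul, inv_one, mul_one, mul_inv_cancel] at ha hb
      exact (ha.eventually_mem hV).and (hb.eventually_mem hV)
    filter_upwards [h5] with x hx
    exact hDV hx
  -- Step 4 : ultrafilters
  refine IsTopologicalGroup.ext hσg inferInstance ?_
  apply le_antisymm
  · rw [le_iff_ultrafilter]
    intro 𝒰 h𝒰
    have hlim : ∀ i : κ, ∃ c : H, Tendsto (fun x : κ → H => x i) (𝒰 : Filter (κ → H)) (𝓝 c) := by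
      intro i
      have h6 : K ∈ (𝒰.map (fun x : κ → H => x i)) := by
        rw [Ultrafilter.mem_map]
        exact h𝒰 (hnear i)
      obtain ⟨c, -, hc⟩ := hK.ultrafilter_le_nhds' _ h6
      exact ⟨c, hc⟩
    choose c hc using hlim
    have h7 : (𝒰 : Filter (κ → H)) ≤
        @nhds (κ → H) (@Pi.topologicalSpace κ (fun _ => H) (fun _ => τ)) c := by
      have h7' : Tendsto (fun x : κ → H => x) (𝒰 : Filter (κ → H))
          (@nhds (κ → H) (@Pi.topologicalSpace κ (fun _ => H) (fun _ => τ)) c) :=
        tendsto_pi_nhds.mpr hc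
      exact h7'
    have h8 : (𝒰 : Filter (κ → H)) ≤ @nhds (κ → H) σ c := h7.trans (_root_.nhds_mono hle)
    have h9 : c = 1 :=
      @tendsto_nhds_unique (κ → H) (κ → H) σ hσt id (𝒰 : Filter (κ → H)) _ _ _ h8 h𝒰
    rw [h9] at h7
    exact h7
  · exact _root_.nhds_mono hle

end Powers

end Pool.Agent.Helper87
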