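import Pool.Agent.Helper87.AsympCentral
import Pool.Agent.Helper87.MinimalGroup

set_option autoImplicit false

open Topology Filter Set
open scoped Pointwise

namespace Pool.Agent.Helper87

universe u v

section Construction

variable {H : Type u} [Group H]

/-- The finite ordered product `y 0 ^ e 0 * ... * y (n-1) ^ e (n-1)`. -/
def pr (y : ℕ → H) (e : ℕ → ℤ) : ℕ → H
  | 0 => 1
  | n + 1 => pr y e n * y n ^ e n

theorem pr_eq_of_zero (y : ℕ → H) (e : ℕ → ℤ) {n m : ℕ} (h : ∀ i, n ≤ i → e i = 0)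
    (hnm : n ≤ m) : pr y e m = pr y e n := by
  induction m, hnm using Nat.le_induction with
  | base => rfl
  | succ m hm ih => rw [pr, h m hm, zpow_zero, mul_one, ih]

theorem pr_eq_one (y : ℕ → H) (e : ℕ → ℤ) {k : ℕ} (h : ∀ i, i < k → e i = 0) :
    pr y e k = 1 := by
  induction k with
  | zero => rfl
  | succ k ih =>
    rw [pr, h k (Nat.lt_succ_self k), zpow_zero, mul_one]
    exact ih fun i hi => h i (Nat.lt_succ_of_lt hi)

/-- Data used to construct a coarser topology. -/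
structure FastData (H : Type u) [Group H] where
  /-- neighbourhoods -/
  U : ℕ → Set H
  /-- the sequence -/
  y : ℕ → H
  /-- bounded sets -/
  Q : ℕ → Set H
  /-- exhausting sets -/
  E : ℕ → Set H
  one_mem : ∀ n, (1 : H) ∈ U n
  symm : ∀ n, ∀ u ∈ U n, u⁻¹ ∈ U n
  three : ∀ n, ∀ a ∈ U (n+1), ∀ b ∈ U (n+1), ∀ c ∈ U (n+1), a * b * c ∈ U n
  E_mono : ∀ n m, n ≤ m → E n ⊆ E m
  E_sub : ∀ n, E n ⊆ Q n
  U_sub : ∀ n, U 0 ⊆ Q n
  Q_symm : ∀ n, ∀ u ∈ Q n, u⁻¹ ∈ Q n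
  pr_sub : ∀ n, ∀ v ∈ U 0, ∀ e : ℕ → ℤ, (∀ i, |e i| ≤ 2 ^ i) → v * pr y e n ∈ Q n
  comm : ∀ n, ∀ a : ℤ, |a| ≤ 2 ^ n → ∀ g ∈ Q n * Q n * Q n, ∀ x ∈ Q n * Q n * Q n,
    x * (y n ^ a * g * (y n ^ a)⁻¹ * g⁻¹) * x⁻¹ ∈ U (n + 2)
  dich : ∀ n, ∀ a : ℤ, |a| ≤ 2 ^ n → y n ^ a ∉ Q n * Q n * Q n ∨ y n ^ a ∈ U (n + 2)

namespace FastData

variable (F : FastData H)

theorem one_mem_Q (n : ℕ) : (1 : H) ∈ F.Q n := F.U_sub n (F.one_mem 0)

theorem Q_sub (n : ℕ) : F.Q n ⊆ F.Q n * F.Q n * F.Q n := fun x hx =>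
  ⟨x * 1, ⟨x, hx, 1, F.one_mem_Q n, rfl⟩, 1, F.one_mem_Q n, by simp⟩

theorem U_anti_succ (n : ℕ) : F.U (n+1) ⊆ F.U n := fun u hu => by
  have := F.three n u hu 1 (F.one_mem _) 1 (F.one_mem _)
  simpa using this

theorem U_anti {n m : ℕ} (h : n ≤ m) : F.U m ⊆ F.U n := by
  induction m, h using Nat.le_induction with
  | base => exact subset_rfl
  | succ m hm ih => exact (F.U_anti_succ m).trans ih

theorem U_mul (n : ℕ) {a b : H} (ha : a ∈ F.U (n+1)) (hb : b ∈ F.U (n+1)) : a * b ∈ F.U n := by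
  have := F.three n a ha b hb 1 (F.one_mem _)
  simpa using this

/-- Error sets. -/
def Er (k : ℕ) : ℕ → Set H
  | 0 => {1}
  | n + 1 => if n < k then Er k n else {z | ∃ u ∈ F.U (n + 2), ∃ w ∈ Er k n, z = u * w}

theorem Er_le {k n : ℕ} (h : n ≤ k) : F.Er k n = {1} := by
  induction n with
  | zero => rfl
  | succ n ih =>
    rw [Er, if_pos (Nat.lt_of_succ_le h), ih (Nat.le_of_succ_le h)]

theorem Er_aux {k n : ℕ} (h : k ≤ n) :
    ∀ u ∈ F.U (n + 1), ∀ w ∈ F.Er k n, u * w ∈ F.U k := by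
  induction n, h using Nat.le_induction with
  | base =>
    intro u hu w hw
    rw [F.Er_le le_rfl] at hw
    rw [mem_singleton_iff.mp hw, mul_one]
    exact F.U_anti_succ k hu
  | succ n hn ih =>
    intro u hu w hw
    rw [Er, if_neg (not_lt.mpr hn)] at hw
    obtain ⟨u', hu', w', hw', rfl⟩ := hw
    rw [← mul_assoc]
    exact ih _ (F.U_mul (n+1) hu hu') _ hw'

theorem Er_sub (k n : ℕ) : F.Er (k+1) n ⊆ F.U (k+1) := by
  intro w hw
  rcases le_total n (k+1) with h | h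
  · rw [F.Er_le h] at hw
    rw [mem_singleton_iff.mp hw]
    exact F.one_mem _
  · have := F.Er_aux h 1 (F.one_mem _) w hw
    rwa [one_mul] at this

/-- Multiplication lemma. -/
theorem mul_lemma (k : ℕ) {v v' : H} (hv : v ∈ F.U 0) (hv' : v' ∈ F.U 0) {e e' : ℕ → ℤ}
    (he : ∀ i, |e i| ≤ 2 ^ i) (he' : ∀ i, |e' i| ≤ 2 ^ i)
    (h0 : ∀ i, i < k → e i = 0) (h0' : ∀ i, i < k → e' i = 0) (n : ℕ) :
    ∃ w ∈ F.Er k n, (v * pr F.y e n) * (v' * pr F.y e' n) =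
      w * (v * v') * pr F.y (fun i => e i + e' i) n := by
  induction n with
  | zero => exact ⟨1, rfl, by simp [pr]⟩
  | succ n ih =>
    obtain ⟨w, hw, hwe⟩ := ih
    by_cases hn : n < k
    · refine ⟨w, ?_, ?_⟩
      · rw [Er, if_pos hn]; exact hw
      · simp only [pr, h0 n hn, h0' n hn, zpow_zero, mul_one, add_zero]
        exact hwe
    · set A := v * pr F.y e n with hA
      set A' := v' * pr F.y e' n with hA'
      have hAQ : A ∈ F.Q n := F.pr_sub n v hv e he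
      have hAQ' : A' ∈ F.Q n := F.pr_sub n v' hv' e' he'
      have hc := F.comm n (e n) (he n) A' (F.Q_sub n hAQ') A (F.Q_sub n hAQ)
      refine ⟨(A * (F.y n ^ e n * A' * (F.y n ^ e n)⁻¹ * A'⁻¹) * A⁻¹) * w, ?_, ?_⟩
      · rw [Er, if_neg hn]
        exact ⟨_, hc, w, hw, rfl⟩
      · have h1 : v * pr F.y e (n+1) * (v' * pr F.y e' (n+1)) =
          A * F.y n ^ e n * (A' * F.y n ^ e' n) := by
          simp only [pr, hA, hA']; group
        rw [h1, pr, zpow_add]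
        have h2 : A * (F.y n ^ e n * A' * (F.y n ^ e n)⁻¹ * A'⁻¹) * A⁻¹ * w * (v * v') *
            (pr F.y (fun i => e i + e' i) n * (F.y n ^ e n * F.y n ^ e' n)) =
            A * (F.y n ^ e n * A' * (F.y n ^ e n)⁻¹ * A'⁻¹) * A⁻¹ *
            (w * (v * v') * pr F.y (fun i => e i + e' i) n) * (F.y n ^ e n * F.y n ^ e' n) := by
          group
        rw [h2, ← hwe]
        group

/-- Inversion lemma. -/
theorem inv_lemma (k : ℕ) {v : H} (hv : v ∈ F.U 0) {e : ℕ → ℤ}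
    (he : ∀ i, |e i| ≤ 2 ^ i) (h0 : ∀ i, i < k → e i = 0) (n : ℕ) :
    ∃ w ∈ F.Er k n, (v * pr F.y e n)⁻¹ = w * v⁻¹ * pr F.y (fun i => - e i) n := by
  induction n with
  | zero => exact ⟨1, rfl, by simp [pr]⟩
  | succ n ih =>
    obtain ⟨w, hw, hwe⟩ := ih
    by_cases hn : n < k
    · refine ⟨w, ?_, ?_⟩
      · rw [Er, if_pos hn]; exact hw
      · simp only [pr, h0 n hn, neg_zero, zpow_zero, mul_one]
        exact hwe
    · set A := v * pr F.y e n with hA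
      have hAQ : A ∈ F.Q n := F.pr_sub n v hv e he
      have hc := F.comm n (- e n) (by rw [abs_neg]; exact he n) A⁻¹
        (F.Q_sub n (F.Q_symm n _ hAQ)) 1 (F.Q_sub n (F.one_mem_Q n))
      refine ⟨(1 * (F.y n ^ (- e n) * A⁻¹ * (F.y n ^ (- e n))⁻¹ * A⁻¹⁻¹) * 1⁻¹) * w, ?_, ?_⟩
      · rw [Er, if_neg hn]
        exact ⟨_, hc, w, hw, rfl⟩
      · have h1 : (v * pr F.y e (n+1))⁻¹ = F.y n ^ (- e n) * A⁻¹ := by
          simp only [pr, hA]; group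
        rw [h1, pr]
        have h2 : (1 * (F.y n ^ (- e n) * A⁻¹ * (F.y n ^ (- e n))⁻¹ * A⁻¹⁻¹) * 1⁻¹) * w * v⁻¹ *
            (pr F.y (fun i => - e i) n * F.y n ^ (- e n)) =
            (F.y n ^ (- e n) * A⁻¹ * (F.y n ^ (- e n))⁻¹ * A⁻¹⁻¹) *
            (w * v⁻¹ * pr F.y (fun i => - e i) n) * F.y n ^ (- e n) := by
          group
        rw [h2, ← hwe]
        group

/-- Conjugation lemma. -/
theorem conj_lemma (k : ℕ) {v h : H} (hv : v ∈ F.U 0) (hh : h ∈ F.E k) {e : ℕ → ℤ}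
    (he : ∀ i, |e i| ≤ 2 ^ i) (h0 : ∀ i, i < k → e i = 0) (n : ℕ) :
    ∃ w ∈ F.Er k n, h * (v * pr F.y e n) * h⁻¹ = w * (h * v * h⁻¹) * pr F.y e n := by
  induction n with
  | zero => exact ⟨1, rfl, by simp [pr]⟩
  | succ n ih =>
    obtain ⟨w, hw, hwe⟩ := ih
    by_cases hn : n < k
    · refine ⟨w, ?_, ?_⟩
      · rw [Er, if_pos hn]; exact hw
      · simp only [pr, h0 n hn, zpow_zero, mul_one]
        exact hwe
    · set A := v * pr F.y e n with hA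
      have hAQ : A ∈ F.Q n := F.pr_sub n v hv e he
      have hhQ : h ∈ F.Q n := F.E_sub n (F.E_mono k n (not_lt.mp hn) hh)
      have hX : h * A * h⁻¹ ∈ F.Q n * F.Q n * F.Q n :=
        ⟨h * A, ⟨h, hhQ, A, hAQ, rfl⟩, h⁻¹, F.Q_symm n _ hhQ, rfl⟩
      have hc := F.comm n (e n) (he n) h (F.Q_sub n hhQ) (h * A * h⁻¹) hX
      have hc' := F.symm _ _ hc
      refine ⟨((h * A * h⁻¹) * (F.y n ^ (e n) * h * (F.y n ^ (e n))⁻¹ * h⁻¹) *
        (h * A * h⁻¹)⁻¹)⁻¹ * w, ?_, ?_⟩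
      · rw [Er, if_neg hn]
        exact ⟨_, hc', w, hw, rfl⟩
      · have h1 : h * (v * pr F.y e (n+1)) * h⁻¹ = h * A * F.y n ^ e n * h⁻¹ := by
          simp only [pr, hA]; group
        rw [h1, pr]
        have h2 : ((h * A * h⁻¹) * (F.y n ^ (e n) * h * (F.y n ^ (e n))⁻¹ * h⁻¹) *
            (h * A * h⁻¹)⁻¹)⁻¹ * w * (h * v * h⁻¹) * (pr F.y e n * F.y n ^ e n) =
            ((h * A * h⁻¹) * (F.y n ^ (e n) * h * (F.y n ^ (e n))⁻¹ * h⁻¹) *
            (h * A * h⁻¹)⁻¹)⁻¹ * (w * (h * v * h⁻¹) * pr F.y e n) * F.y n ^ e n := by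
          group
        rw [h2, ← hwe]
        group

/-- Separation lemma. -/
theorem sep_lemma (k : ℕ) {v g : H} (hv : v ∈ F.U 0) (hg : g ∈ F.E k) {e : ℕ → ℤ}
    (he : ∀ i, |e i| ≤ 2 ^ i) (h0 : ∀ i, i < k → e i = 0) (n : ℕ) (hn : k ≤ n) :
    ∀ t ∈ F.U n, v * pr F.y e n = g * t → ∃ t' ∈ F.U k, v = g * t' := by
  induction n, hn using Nat.le_induction with
  | base =>
    intro t ht h1
    rw [pr_eq_one F.y e h0, mul_one] at h1
    exact ⟨t, ht, h1⟩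
  | succ n hn ih =>
    intro t ht h1
    set A := v * pr F.y e n with hA
    have hAQ : A ∈ F.Q n := F.pr_sub n v hv e he
    have hgQ : g ∈ F.Q n := F.E_sub n (F.E_mono k n hn hg)
    have htQ : t ∈ F.Q n := F.U_sub n (F.U_anti (Nat.zero_le _) ht)
    have h2 : F.y n ^ e n = A⁻¹ * g * t := by
      have : A * F.y n ^ e n = g * t := by rw [← h1, pr, hA, mul_assoc]
      rw [mul_assoc, ← this]; group
    have h3 : F.y n ^ e n ∈ F.U (n+2) := by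
      rcases F.dich n (e n) (he n) with h | h
      · exfalso
        apply h
        rw [h2]
        exact ⟨A⁻¹ * g, ⟨A⁻¹, F.Q_symm n _ hAQ, g, hgQ, rfl⟩, t, htQ, rfl⟩
      · exact h
    have h4 : (F.y n ^ e n)⁻¹ ∈ F.U (n+1) := F.U_anti_succ _ (F.symm _ _ h3)
    apply ih (t * (F.y n ^ e n)⁻¹) (F.U_mul n ht h4)
    rw [← mul_assoc, ← h1, pr, hA]; group

/-- The basic neighbourhoods of the coarser topology. -/
def W (k : ℕ) : Set H :=
  {g | ∃ v ∈ F.U k, ∃ e : ℕ → ℤ, ∃ n : ℕ, (∀ i, |e i| * 2 ^ k ≤ 2 ^ i) ∧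
    (∀ i, n ≤ i → e i = 0) ∧ g = v * pr F.y e n}

theorem bd_zero {k : ℕ} {e : ℕ → ℤ} (he : ∀ i, |e i| * 2 ^ k ≤ 2 ^ i) : ∀ i, i < k → e i = 0 := by
  intro i hi
  by_contra hne
  have h1 : (1 : ℤ) ≤ |e i| := Int.one_le_abs hne
  have h2 : (2 : ℤ) ^ k ≤ 2 ^ i := by
    calc (2 : ℤ) ^ k = 1 * 2 ^ k := by ring
      _ ≤ |e i| * 2 ^ k := by gcongr
      _ ≤ 2 ^ i := he i
  have h3 : (2 : ℤ) ^ i < 2 ^ k := by gcongr; norm_num
  omega

theorem bd_le {k : ℕ} {e : ℕ → ℤ} (he : ∀ i, |e i| * 2 ^ k ≤ 2 ^ i) : ∀ i, |e i| ≤ 2 ^ i := by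
  intro i
  refine le_trans ?_ (he i)
  have : (1 : ℤ) ≤ 2 ^ k := by exact_mod_cast Nat.one_le_two_pow
  nlinarith [abs_nonneg (e i)]

theorem W_anti {j k : ℕ} (h : k ≤ j) : F.W j ⊆ F.W k := by
  rintro g ⟨v, hv, e, n, he, h0, rfl⟩
  refine ⟨v, F.U_anti h hv, e, n, ?_, h0, rfl⟩
  intro i
  refine le_trans ?_ (he i)
  gcongr
  norm_num

theorem one_mem_W (k : ℕ) : (1 : H) ∈ F.W k :=
  ⟨1, F.one_mem k, 0, 0, by simp, by simp, by simp [pr]⟩

theorem U_sub_W (k : ℕ) : F.U k ⊆ F.W k := fun v hv =>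
  ⟨v, hv, 0, 0, by simp, by simp, by simp [pr]⟩

theorem W_mul (k : ℕ) {g g' : H} (hg : g ∈ F.W (k+1)) (hg' : g' ∈ F.W (k+1)) :
    g * g' ∈ F.W k := by
  obtain ⟨v, hv, e, n, he, h0, rfl⟩ := hg
  obtain ⟨v', hv', e', n', he', h0', rfl⟩ := hg'
  have e1 : pr F.y e n = pr F.y e (max n n') :=
    (pr_eq_of_zero F.y e h0 (le_max_left _ _)).symm
  have e2 : pr F.y e' n' = pr F.y e' (max n n') :=
    (pr_eq_of_zero F.y e' h0' (le_max_right _ _)).symm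
  obtain ⟨w, hw, hwe⟩ := F.mul_lemma (k+1) (F.U_anti (Nat.zero_le _) hv)
    (F.U_anti (Nat.zero_le _) hv') (bd_le he) (bd_le he') (bd_zero he) (bd_zero he') (max n n')
  refine ⟨w * (v * v'), ?_, fun i => e i + e' i, max n n', ?_, ?_, ?_⟩
  · rw [← mul_assoc]
    exact F.three k _ (F.Er_sub k _ hw) _ hv _ hv'
  · intro i
    have h1 := he i
    have h2 := he' i
    have h3 := abs_add_le (e i) (e' i)
    have h4 : (0:ℤ) < 2 ^ k := by positivity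
    rw [pow_succ] at h1 h2
    nlinarith
  · intro i hi
    show e i + e' i = 0
    rw [h0 i ((le_max_left _ _).trans hi), h0' i ((le_max_right _ _).trans hi), add_zero]
  · rw [e1, e2, hwe]

theorem W_inv (k : ℕ) {g : H} (hg : g ∈ F.W (k+1)) : g⁻¹ ∈ F.W k := by
  obtain ⟨v, hv, e, n, he, h0, rfl⟩ := hg
  obtain ⟨w, hw, hwe⟩ := F.inv_lemma (k+1) (F.U_anti (Nat.zero_le _) hv) (bd_le he) (bd_zero he) n
  refine ⟨w * v⁻¹, F.U_mul k (F.Er_sub k _ hw) (F.symm _ _ hv), fun i => - e i, n, ?_, ?_, hwe⟩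
  · intro i
    show |- e i| * 2 ^ k ≤ 2 ^ i
    rw [abs_neg]
    have h1 := he i
    rw [pow_succ] at h1
    have h4 : (0:ℤ) < 2 ^ k := by positivity
    nlinarith [abs_nonneg (e i)]
  · intro i hi
    show - e i = 0
    rw [h0 i hi, neg_zero]

theorem W_conj (k j : ℕ) (hkj : k + 1 ≤ j) {h : H} (hh : h ∈ F.E j)
    (hc : ∀ v ∈ F.U j, h * v * h⁻¹ ∈ F.U (k+1)) {g : H} (hg : g ∈ F.W j) :
    h * g * h⁻¹ ∈ F.W k := by
  obtain ⟨v, hv, e, n, he, h0, rfl⟩ := hg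
  obtain ⟨w, hw, hwe⟩ := F.conj_lemma j (F.U_anti (Nat.zero_le _) hv) hh (bd_le he) (bd_zero he) n
  obtain ⟨j, rfl⟩ : ∃ j', j = j' + 1 := ⟨j - 1, by omega⟩
  refine ⟨w * (h * v * h⁻¹), F.U_mul k (F.U_anti hkj (F.Er_sub j _ hw)) (hc v hv), e, n, ?_, h0, hwe⟩
  intro i
  refine le_trans ?_ (he i)
  gcongr
  · norm_num
  · omega

theorem W_sep (k : ℕ) {g : H} (hg : g ∈ F.E (k+1)) (hgU : g ∉ F.U k) : g ∉ F.W (k+1) := by
  rintro ⟨v, hv, e, n, he, h0, hge⟩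
  have e1 : pr F.y e n = pr F.y e (max n (k+1)) :=
    (pr_eq_of_zero F.y e h0 (le_max_left _ _)).symm
  obtain ⟨t', ht', hvt⟩ := F.sep_lemma (k+1) (F.U_anti (Nat.zero_le _) hv) hg (bd_le he)
    (bd_zero he) (max n (k+1)) (le_max_right _ _) 1 (F.one_mem _) (by rw [mul_one, ← e1, ← hge])
  apply hgU
  have : g = v * t'⁻¹ := by rw [hvt]; group
  rw [this]
  exact F.U_mul k hv (F.symm _ _ ht')

theorem y_mem_W (k n : ℕ) (h : k ≤ n) : F.y n ∈ F.W k := by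
  refine ⟨1, F.one_mem k, fun i => if i = n then 1 else 0, n + 1, ?_, ?_, ?_⟩
  · intro i
    by_cases hi : i = n
    · subst hi
      simp only [if_true, abs_one, one_mul]
      gcongr
      norm_num
    · simp [hi]
  · intro i hi
    simp only [ite_eq_right_iff, one_ne_zero, imp_false]
    omega
  · rw [pr, pr_eq_one F.y _ (k := n)]
    · simp
    · intro i hi
      simp only [ite_eq_right_iff, one_ne_zero, imp_false]
      omega

end FastData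

end Construction

end Pool.Agent.Helper87
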