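import Mathlib

/-!
# Transitive models of ZF, and general topology relativised to them

Everything that the statement about remainders of infinite discrete spaces uses.
-/

set_option autoImplicit false

namespace Pool.Agent.Helper87.Sym

universe u

/-- Formulas of the first-order language of set theory, with de Bruijn indices. -/
inductive Fml : Type
  | bot : Fml
  | mem : ℕ → ℕ → Fml
  | eq : ℕ → ℕ → Fml
  | imp : Fml → Fml → Fml
  | all : Fml → Fml
  deriving DecidableEq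

/-- Add a new element at the beginning of an assignment. -/
def cons {α : Type u} (x : α) (v : ℕ → α) : ℕ → α
  | 0 => x
  | n + 1 => v n

/-- Truth of a formula in a set `M` of sets, with the real membership relation, at the
assignment `v` of its free variables. -/
def Sat (M : Set ZFSet.{0}) : Fml → (ℕ → ZFSet.{0}) → Prop
  | .bot, _ => False
  | .mem i j, v => v i ∈ v j
  | .eq i j, v => v i = v j
  | .imp φ ψ, v => Sat M φ v → Sat M ψ v
  | .all φ, v => ∀ x, x ∈ M → Sat M φ (cons x v)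

/-- `M` is a transitive set and a model of ZF. -/
structure IsTransModelZF (M : Set ZFSet.{0}) : Prop where
  /-- transitivity; this gives Extensionality and Foundation -/
  trans : ∀ x ∈ M, ∀ y ∈ x, y ∈ M
  /-- Pairing -/
  pair : ∀ x ∈ M, ∀ y ∈ M, ({x, y} : ZFSet) ∈ M
  /-- Union -/
  union : ∀ x ∈ M, ZFSet.sUnion x ∈ M
  /-- Power Set -/
  power : ∀ x ∈ M, ∃ y ∈ M, ∀ z, z ∈ y ↔ z ∈ M ∧ z ⊆ x
  /-- Infinity -/
  inf : ZFSet.omega ∈ M
  /-- the Separation scheme, with parameters -/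
  sep : ∀ (φ : Fml) (v : ℕ → ZFSet), (∀ i, v i ∈ M) → ∀ x ∈ M,
    ∃ y ∈ M, ∀ z, z ∈ y ↔ z ∈ x ∧ Sat M φ (cons z v)
  /-- the Replacement scheme, with parameters -/
  repl : ∀ (φ : Fml) (v : ℕ → ZFSet), (∀ i, v i ∈ M) → ∀ a ∈ M,
    (∀ x ∈ a, ∃! y, y ∈ M ∧ Sat M φ (cons y (cons x v))) →
    ∃ b ∈ M, ∀ x ∈ a, ∀ y ∈ M, Sat M φ (cons y (cons x v)) → y ∈ b

end Pool.Agent.Helper87.Sym

namespace Pool.Agent.Helper87.ZFTop

/-- `f` is (the graph of) a bijection of `X` onto `Y`. -/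
def IsBij (X Y f : ZFSet.{0}) : Prop :=
  ZFSet.IsFunc X Y f ∧ ∀ y ∈ Y, ∃! x, ZFSet.pair x y ∈ f

/-- In `M`, the set `X` is finite, i.e. equipotent to a natural number. -/
def FiniteIn (M : Set ZFSet.{0}) (X : ZFSet.{0}) : Prop :=
  ∃ n ∈ ZFSet.omega, ∃ f ∈ M, IsBij n X f

/-- In `M`, the set `T` is a topology on `X`. -/
structure IsTopologyIn (M : Set ZFSet.{0}) (X T : ZFSet.{0}) : Prop where
  sub : ∀ U ∈ T, U ⊆ X
  empty : ∅ ∈ T
  univ : X ∈ T
  inter : ∀ U ∈ T, ∀ V ∈ T, U ∩ V ∈ T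
  sUnion : ∀ 𝒰 ∈ M, 𝒰 ⊆ T → ZFSet.sUnion 𝒰 ∈ T

/-- In `M`, the space `(X, T)` is compact: every open cover in `M` has a subcover in `M` which is
finite in `M`. -/
def IsCompactIn (M : Set ZFSet.{0}) (X T : ZFSet.{0}) : Prop :=
  ∀ 𝒰 ∈ M, 𝒰 ⊆ T → ZFSet.sUnion 𝒰 = X →
    ∃ 𝒱 ∈ M, 𝒱 ⊆ 𝒰 ∧ FiniteIn M 𝒱 ∧ ZFSet.sUnion 𝒱 = X

/-- The space `(X, T)` is Hausdorff. -/
def IsHausdorff (X T : ZFSet.{0}) : Prop :=
  ∀ x ∈ X, ∀ y ∈ X, x ≠ y → ∃ U ∈ T, ∃ V ∈ T, x ∈ U ∧ y ∈ V ∧ U ∩ V = ∅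

/-- In `M`, the set `S` is the discrete topology on `D`, i.e. the power set of `D`. -/
def IsDiscreteIn (M : Set ZFSet.{0}) (D S : ZFSet.{0}) : Prop :=
  ∀ A, A ∈ S ↔ A ∈ M ∧ A ⊆ D

/-- In `M`, `(K, T)` together with `h` is a Hausdorff compactification of the space `(X, S)`. -/
structure IsCompactificationIn (M : Set ZFSet.{0}) (X S K T h : ZFSet.{0}) : Prop where
  memK : K ∈ M
  memT : T ∈ M
  memh : h ∈ M
  top : IsTopologyIn M K T
  compact : IsCompactIn M K T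
  haus : IsHausdorff K T
  func : ZFSet.IsFunc X K h
  inj : ∀ x x' y, ZFSet.pair x y ∈ h → ZFSet.pair x' y ∈ h → x = x'
  /-- `h` is a homeomorphism onto its image -/
  embed : ∀ A ∈ M, A ⊆ X →
    (A ∈ S ↔ ∃ U ∈ T, ∀ x ∈ X, (x ∈ A ↔ ∃ y ∈ U, ZFSet.pair x y ∈ h))
  /-- the image of `h` is dense -/
  dense : ∀ U ∈ T, U ≠ ∅ → ∃ x ∈ X, ∃ y ∈ U, ZFSet.pair x y ∈ h

/-- The underlying set `K \ h[X]` of the remainder. -/
def remainder (X K h : ZFSet.{0}) : ZFSet.{0} :=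
  ZFSet.sep (fun y => ∀ x ∈ X, ZFSet.pair x y ∉ h) K

/-- In `M`, the space `(X, S)` has a denumerable remainder. -/
def HasDenumerableRemainderIn (M : Set ZFSet.{0}) (X S : ZFSet.{0}) : Prop :=
  ∃ K T h, IsCompactificationIn M X S K T h ∧ ∃ f ∈ M, IsBij ZFSet.omega (remainder X K h) f

/-- In `M`, the space `(Y, W)` is a remainder of the space `(X, S)`: for some compactification of
`(X, S)` there is a homeomorphism of `(Y, W)` onto the remainder with the subspace topology. -/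
def IsRemainderIn (M : Set ZFSet.{0}) (Y W X S : ZFSet.{0}) : Prop :=
  ∃ K T h, IsCompactificationIn M X S K T h ∧ ∃ f ∈ M, IsBij Y (remainder X K h) f ∧
    ∀ A ∈ M, A ⊆ Y → (A ∈ W ↔ ∃ U ∈ T, ∀ y ∈ Y, (y ∈ A ↔ ∃ z ∈ U, ZFSet.pair y z ∈ f))

/-- The underlying set `ω + 1 = ω ∪ {ω}` of the one-point compactification of the discrete space
`ω`; the point at infinity is `ω`. -/
def NInf : ZFSet.{0} := insert ZFSet.omega ZFSet.omega

/-- In `M`, the set `W` is the topology of the one-point compactification of the discrete space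
`ω`: the open sets are all subsets of `ω`, and the sets with a finite complement. -/
def IsTopNInfIn (M : Set ZFSet.{0}) (W : ZFSet.{0}) : Prop :=
  ∀ A, A ∈ W ↔ A ∈ M ∧ A ⊆ NInf ∧ (ZFSet.omega ∈ A → FiniteIn M (NInf \ A))

end Pool.Agent.Helper87.ZFTop
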