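import Pool.Agent.Helper87.RemFacts

/-!
# Compactness and the absence of infinite disjoint families
-/

set_option autoImplicit false

namespace Pool.Agent.Helper87.Rem

open Pool.Agent.Helper87.Sym Set

variable (g : Gen 𝔖 WC)

/-- First coordinates of the real part of the support. -/
def e0 (τ : Nm Cnd) : Set ℕ := {i | ∃ e ∈ (sup τ).2, e.1 = i}

theorem e0_finite (τ : Nm Cnd) : (e0 τ).Finite := by
  have : e0 τ = (fun e : ℕ × ℕ => e.1) '' {e | e ∈ (sup τ).2} := by
    ext i
    simp [e0]
  rw [this]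
  exact (List.finite_toSet _).image _

theorem BB_biUnion {s : Set ℕ} (hs : s.Finite) {f : ℕ → Set ℕ} (hf : ∀ n, f n ∈ BB g) :
    (⋃ n ∈ s, f n) ∈ BB g := by
  induction s, hs using Set.Finite.induction_on with
  | empty => simpa using BB_empty g
  | insert _ _ ih =>
    rw [biUnion_insert]
    exact BB_union g (hf _) ih

/-- Compactness. -/
theorem F7 {𝒰 : ZFSet.{0}} (h𝒰 : 𝒰 ∈ g.M) (hsub : 𝒰 ⊆ g.val CN)
    (hcov : ∀ i, ∃ C ∈ 𝒰, dd g i ∈ C) (hcov' : ∀ n, ∃ C ∈ 𝒰, Gen.nat n ∈ C) :
    ∃ B : Set (Set ℕ), B.Finite ∧ (∀ b ∈ B, b ∈ BB g ∧ cc g b ∈ 𝒰) ∧ univ ⊆ ⋃₀ B := by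
  classical
  obtain ⟨τ, hτ, rfl⟩ := h𝒰
  have hfin : ∀ s : Set ℕ, s.Finite → ∃ B : Set (Set ℕ), B.Finite ∧
      (∀ b ∈ B, b ∈ BB g ∧ cc g b ∈ g.val τ) ∧ s ⊆ ⋃₀ B := by
    intro s hs
    have h1 : ∀ i, ∃ b ∈ BB g, cc g b ∈ g.val τ ∧ i ∈ b := by
      intro i
      obtain ⟨C, hC, hC'⟩ := hcov i
      obtain ⟨b, hb, rfl⟩ := (mem_CC g).1 (hsub hC)
      exact ⟨b, hb, hC, (dd_mem_cc g).1 hC'⟩
    choose f hf1 hf2 hf3 using h1
    refine ⟨f '' s, hs.image f, ?_, fun i hi => ⟨f i, mem_image_of_mem f hi, hf3 i⟩⟩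
    rintro _ ⟨i, -, rfl⟩
    exact ⟨hf1 i, hf2 i⟩
  have h2 : ∀ n, ∃ b ∈ BB g, cc g b ∈ g.val τ ∧ b ∈ U g n := by
    intro n
    obtain ⟨C, hC, hC'⟩ := hcov' n
    obtain ⟨b, hb, rfl⟩ := (mem_CC g).1 (hsub hC)
    exact ⟨b, hb, hC, (nat_mem_cc g).1 hC'⟩
  choose bs hbs1 hbs2 hbs3 using h2
  refine class_ind (𝓑 := BB g) (fun a ha c hc => BB_inter g ha hc) (fun a ha => BB_compl g ha)
    (BB_univ g) (fun a => ∃ B : Set (Set ℕ), B.Finite ∧
      (∀ b ∈ B, b ∈ BB g ∧ cc g b ∈ g.val τ) ∧ a ⊆ ⋃₀ B) ?_ (sup τ).1 (BB_supp g hτ) ?_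
  · rintro a - c - ⟨B, h1, h2, h3⟩ ⟨B', h1', h2', h3'⟩
    refine ⟨B ∪ B', h1.union h1', ?_, ?_⟩
    · rintro b (hb | hb)
      · exact h2 b hb
      · exact h2' b hb
    · rw [sUnion_union]
      exact union_subset_union h3 h3'
  · intro a ha hom
    by_cases hinf : a.Infinite
    swap
    · exact hfin a (not_infinite.1 hinf)
    obtain ⟨n0, hn0⟩ := U_pick g ha hinf
    obtain ⟨k, hk⟩ := (g.mem_iff (σ := cN (bs n0)) (hbs1 n0) hτ).2 (hbs2 n0)
    let S : Set ℕ := {n | (g.pc k).x n ≠ univ}
    have hS : S.Finite := (g.pc k).finx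
    let B1 : Set (Set ℕ) := bs '' (insert n0 S)
    let b1 : Set ℕ := ⋃ n ∈ insert n0 S, bs n
    have hB1 : B1.Finite := (hS.insert n0).image bs
    have hb1 : b1 ∈ BB g := BB_biUnion g (hS.insert n0) hbs1
    have hb1' : b1 = ⋃₀ B1 := by
      simp only [b1, B1, sUnion_image]
    have hsubb : ∀ n ∈ insert n0 S, bs n ⊆ b1 := fun n hn =>
      subset_biUnion_of_mem (u := bs) hn
    choose K hK using hbs3
    obtain ⟨K1, hK1⟩ := (hS.image K).bddAbove
    let a' : Set ℕ := a \ e0 τ
    have ha' : a' ∈ BB g := BB_diff g ha (BB_finite g (e0_finite τ))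
    obtain ⟨l, hl⟩ := g.req .f7 [τ, cN b1, cN a'] (by
      intro x hx
      simp only [List.mem_cons, List.not_mem_nil, or_false] at hx
      rcases hx with rfl | rfl | rfl
      · exact hτ
      · exact hb1
      · exact ha')
    obtain ⟨B2, hB2, hB2', hB2''⟩ := hfin (a ∩ e0 τ) ((e0_finite τ).subset inter_subset_right)
    rcases hl with ⟨x, hx, c1, a1, b, h1, h2, rfl, h4, h5⟩ | hl
    · have e1 : b1 = c1 := cN_inj g h1
      have e2 : a' = a1 := cN_inj g h2
      rw [← e1, ← e2] at h5
      have h6 : cc g b ∈ g.val τ := (g.mem_iff hx hτ).1 ⟨l, h4⟩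
      refine ⟨insert b (B1 ∪ B2), (hB1.union hB2).insert b, ?_, ?_⟩
      · rintro c (rfl | hc | hc)
        · exact ⟨hx, h6⟩
        · obtain ⟨n, hn, rfl⟩ := hc
          exact ⟨hbs1 n, hbs2 n⟩
        · exact hB2' c hc
      · intro i hi
        by_cases hie : i ∈ e0 τ
        · obtain ⟨c, hc, hc'⟩ := hB2'' ⟨hi, hie⟩
          exact ⟨c, Or.inr (Or.inr hc), hc'⟩
        · rcases h5 ⟨hi, hie⟩ with h7 | h7
          · rw [hb1'] at h7
            obtain ⟨c, hc, hc'⟩ := h7
            exact ⟨c, Or.inr (Or.inl hc), hc'⟩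
          · exact ⟨b, Or.inl rfl, h7⟩
    · exfalso
      let m := max (max k K1) l
      have hmk : g.pc m ≤ g.pc k := g.pc_le ((le_max_left _ _).trans (le_max_left _ _))
      have hml : g.pc m ≤ g.pc l := g.pc_le (le_max_right _ _)
      have hmS : ∀ n ∈ S, (g.pc m).x n ⊆ b1 := by
        intro n hn
        have h1 : K n ≤ K1 := hK1 (mem_image_of_mem K hn)
        have h2 : g.pc m ≤ g.pc (K n) :=
          g.pc_le (h1.trans ((le_max_right _ _).trans (le_max_left _ _)))
        exact (h2.1 n).trans ((hK n).trans (hsubb n (Or.inr hn)))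
      have hW0 : (bs n0 ∩ a').Infinite := by
        have h1 : (bs n0 ∩ a).Infinite := U_infinite g (U_inter g ⟨K n0, hK n0⟩ hn0)
        have h2 : bs n0 ∩ a' = (bs n0 ∩ a) \ e0 τ := by
          ext i
          simp only [a', mem_inter_iff, mem_sdiff]
          tauto
        rw [h2]
        exact h1.sdiff (e0_finite τ)
      obtain ⟨V, hV1, hV2, hV3⟩ := exists_thin hS.toFinset (fun n => (g.pc m).x n)
        (fun n _ => (g.pc m).inf n) hW0
      let Y : Set ℕ := a' \ b1
      let e := hV2.natEmbedding V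
      let f : ℕ → ℕ := fun n => e n
      have hfV : ∀ n, f n ∈ V := fun n => (e n).2
      have hfinj : Function.Injective f := fun x y h => e.injective (Subtype.ext h)
      have hfb : ∀ n, f n ∈ bs n0 := fun n => (hV1 (hfV n)).1
      have hfb1 : ∀ n, f n ∈ b1 := fun n => hsubb n0 (Or.inl rfl) (hfb n)
      have hfa : ∀ n, f n ∈ a' := fun n => (hV1 (hfV n)).2
      obtain ⟨h, hh, -, hpi, q2, hq2, hq2'⟩ := swap_lemma (𝔽 := (sup τ).1) (E := (sup τ).2)
        (Y := Y) (f := f) hfinj.injOn (fun y _ hy => hy.2 (hfb1 y))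
        (by
          intro e he
          refine ⟨fun hy => hy.1.2 ⟨e, he, rfl⟩, ?_⟩
          rintro ⟨y, -, hy⟩
          exact (hfa y).2 ⟨e, he, hy.symm⟩)
        (by
          intro b hb y hy
          rcases hom b hb with h | h
          · exact ⟨fun _ => h (hfa y).1, fun _ => h hy.1.1⟩
          · exact ⟨fun h' => absurd h' (h hy.1.1), fun h' => absurd h' (h (hfa y).1)⟩)
        hmk
        (by
          intro n hn
          have hnS : n ∈ S := hn
          apply (hV3 n (by simpa using hnS)).mono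
          rintro z ⟨hz1, hz2⟩
          refine ⟨hz1, ?_⟩
          rintro (hz | ⟨y, -, rfl⟩)
          · exact hz.2 (hmS n hnS hz1)
          · exact hz2 (hfV y))
      have h4 : fmem (cN (pi h '' bs n0)) τ q2 :=
        transport (g.hs τ hτ) hh (Feq_cN h (bs n0)) hq2' hk
      refine hl q2 (hq2.trans hml) (cN (pi h '' bs n0)) (HS_cN _)
        ⟨b1, a', pi h '' bs n0, rfl, rfl, rfl, h4, ?_⟩
      intro z hz
      by_cases hz1 : z ∈ b1
      · exact Or.inl hz1
      · right
        exact ⟨f z, hfb z, (hpi z ⟨hz, hz1⟩).2⟩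

/-- There is no infinite disjoint family of traces. -/
theorem F8 {𝓕 : ZFSet.{0}} (h𝓕 : 𝓕 ∈ g.M)
    (hprop : ∀ b ∈ BB g, cc g b ∈ 𝓕 → ∀ b' ∈ BB g, cc g b' ∈ 𝓕 →
      ∀ n, b ∈ U g n → b' ∈ U g n → ∀ m, b ∈ U g m → b' ∈ U g m) :
    {s : Set ℕ | ∃ b ∈ BB g, cc g b ∈ 𝓕 ∧ s = {n | b ∈ U g n}}.Finite := by
  classical
  obtain ⟨τ, hτ, rfl⟩ := h𝓕
  have key : {s : Set ℕ | ∃ b ∈ BB g, cc g b ∈ g.val τ ∧ s = {n | univ ∩ b ∈ U g n}}.Finite := by
    refine class_ind (𝓑 := BB g) (fun a ha c hc => BB_inter g ha hc) (fun a ha => BB_compl g ha)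
      (BB_univ g) (fun a => {s : Set ℕ | ∃ b ∈ BB g, cc g b ∈ g.val τ ∧
        s = {n | a ∩ b ∈ U g n}}.Finite) ?_ (sup τ).1 (BB_supp g hτ) ?_
    · intro a ha a' ha' h1 h2
      apply (Set.Finite.image2 (fun s t => s ∪ t) h1 h2).subset
      rintro _ ⟨b, hb, hb', rfl⟩
      refine ⟨_, ⟨b, hb, hb', rfl⟩, _, ⟨b, hb, hb', rfl⟩, ?_⟩
      ext n
      simp only [mem_union, mem_ofPred_eq]
      rw [← U_union g (BB_inter g ha hb) (BB_inter g ha' hb), union_inter_distrib_right]
    · intro a ha hom
      apply ((finite_singleton {n | a ∈ U g n}).insert ∅).subset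
      rintro _ ⟨b, hb, hb', rfl⟩
      have claim : (a ∩ b).Finite ∨ (a \ b).Finite := by
        by_contra hc
        rw [not_or] at hc
        obtain ⟨hc1, hc2⟩ := hc
        have hN : cN b ∈ g.N := hb
        obtain ⟨k, hk⟩ := (g.mem_iff (σ := cN b) hb hτ).2 hb'
        obtain ⟨l, hl⟩ := g.req .f8 [τ, cN b] (by simp [hτ, hN])
        rcases hl with ⟨x, hx, c, b', n, m, h1, rfl, h3, h4, h5⟩ | hl
        · have e1 : b = c := cN_inj g h1
          rw [← e1] at h4 h5
          have h6 : cc g b' ∈ g.val τ := (g.mem_iff hx hτ).1 ⟨l, h3⟩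
          have h7 := hprop b hb hb' b' hx h6 n ⟨l, h4.trans inter_subset_left⟩
            ⟨l, h4.trans inter_subset_right⟩ m ⟨l, h5.trans sdiff_subset⟩
          have h8 : b'ᶜ ∈ U g m := ⟨l, fun i hi => (h5 hi).2⟩
          exact U_not_both g h7 h8
        · let m := max k l
          have hmk : g.pc m ≤ g.pc k := g.pc_le (le_max_left _ _)
          have hml : g.pc m ≤ g.pc l := g.pc_le (le_max_right _ _)
          let S : Set ℕ := {n | (g.pc m).x n ≠ univ}
          have hS : S.Finite := (g.pc m).finx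
          have i1 : ((a ∩ b) \ e0 τ).Infinite := Set.Infinite.sdiff hc1 (e0_finite τ)
          have i2 : ((a \ b) \ e0 τ).Infinite := Set.Infinite.sdiff hc2 (e0_finite τ)
          have hbinf : b.Infinite := Set.Infinite.mono inter_subset_right hc1
          obtain ⟨V1, hV1, hV1', hV1''⟩ := exists_thin (insert none (hS.toFinset.image some))
            (fun o : Option ℕ => match o with | none => b | some n => (g.pc m).x n)
            (by
              intro o _
              cases o with
              | none => exact hbinf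
              | some n => exact (g.pc m).inf n) i1
          have hbV : (b \ V1).Infinite := hV1'' none (by simp)
          have hxV : ∀ n ∈ S, ((g.pc m).x n \ V1).Infinite := fun n hn =>
            hV1'' (some n) (by simpa using hn)
          obtain ⟨V2, hV2, hV2', hV2''⟩ := exists_thin hS.toFinset
            (fun n => (g.pc m).x n \ V1) (fun n hn => hxV n (by simpa using hn)) i2
          let e := hV1'.natEmbedding V1
          let f : ℕ → ℕ := fun n => e n
          have hfV : ∀ n, f n ∈ V1 := fun n => (e n).2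
          have hfinj : Function.Injective f := fun x y h => e.injective (Subtype.ext h)
          have hfb : ∀ n, f n ∈ b := fun n => (hV1 (hfV n)).1.2
          obtain ⟨h, hh, hpi0, hpi, q2, hq2, hq2'⟩ := swap_lemma (𝔽 := (sup τ).1)
            (E := (sup τ).2) (Y := V2) (f := f) hfinj.injOn
            (fun y _ hy => (hV2 hy).1.2 (hfb y))
            (by
              intro e he
              refine ⟨fun hy => (hV2 hy).2 ⟨e, he, rfl⟩, ?_⟩
              rintro ⟨y, -, hy⟩
              exact (hV1 (hfV y)).2 ⟨e, he, hy.symm⟩)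
            (by
              intro c hc y hy
              rcases hom c hc with h | h
              · exact ⟨fun _ => h (hV1 (hfV y)).1.1, fun _ => h (hV2 hy).1.1⟩
              · exact ⟨fun h' => absurd h' (h (hV2 hy).1.1),
                  fun h' => absurd h' (h (hV1 (hfV y)).1.1)⟩)
            (le_refl (g.pc m))
            (by
              intro n hn
              have hnS : n ∈ S := hn
              apply (hV2'' n (by simpa using hnS)).mono
              rintro z ⟨⟨hz1, hz2⟩, hz3⟩
              refine ⟨hz1, ?_⟩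
              rintro (hz | ⟨y, -, rfl⟩)
              · exact hz3 hz
              · exact hz2 (hfV y))
          have h4 : fmem (cN (pi h '' b)) τ q2 :=
            transport (g.hs τ hτ) hh (Feq_cN h b) hq2' (fmem_mono hk hmk)
          -- the two differences
          have j1 : (b ∩ pi h '' b).Infinite := by
            apply hbV.mono
            rintro z ⟨hz1, hz2⟩
            refine ⟨hz1, z, hz1, hpi0 z (fun hz => (hV2 hz).1.2 hz1) ?_⟩
            rintro ⟨y, -, rfl⟩
            exact hz2 (hfV y)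
          have j2 : (b \ pi h '' b).Infinite := by
            have : (f '' V2).Infinite := hV2'.image hfinj.injOn
            apply this.mono
            rintro _ ⟨y, hy, rfl⟩
            refine ⟨hfb y, ?_⟩
            rintro ⟨z, hz, hz'⟩
            have h5 : pi h z = pi h y := by rw [hz', (hpi y hy).1]
            have h6 : z = y := (pi h).injective h5
            rw [h6] at hz
            exact (hV2 hy).1.2 hz
          obtain ⟨n, hn⟩ := exists_free_x q2
          have k1 : (q2.x n ∩ (b ∩ pi h '' b)).Infinite := by rwa [hn, univ_inter]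
          obtain ⟨n', hn'⟩ := exists_free_x (restr q2 n _ k1)
          have hne : n' ≠ n := by
            rintro rfl
            rw [restr_x, hn, univ_inter] at hn'
            obtain ⟨z, hz⟩ := j2.nonempty
            have : z ∈ b ∩ pi h '' b := by rw [hn']; trivial
            exact hz.2 this.2
          have k2 : ((restr q2 n _ k1).x n' ∩ (b \ pi h '' b)).Infinite := by
            rwa [hn', univ_inter]
          refine hl (restr _ n' _ k2) ((restr_le k2).trans ((restr_le k1).trans (hq2.trans hml)))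
            (cN (pi h '' b)) (HS_cN _) ⟨b, pi h '' b, n, n', rfl, rfl,
              fmem_mono h4 ((restr_le k2).trans (restr_le k1)), ?_, ?_⟩
          · rw [restr_x_ne k2 hne.symm, restr_x]
            exact inter_subset_right
          · rw [restr_x]
            exact inter_subset_right
      rcases claim with h1 | h1
      · left
        ext n
        simp only [mem_ofPred_eq, mem_empty_iff_false, iff_false]
        exact fun h2 => U_infinite g h2 h1
      · right
        rw [mem_singleton_iff]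
        ext n
        simp only [mem_ofPred_eq]
        constructor
        · exact fun h2 => U_mono g h2 inter_subset_left
        · intro h2
          by_contra h3
          have h4 := U_inter g h2 ((U_compl g (BB_inter g ha hb)).2 h3)
          apply U_infinite g h4
          apply h1.subset
          rintro z ⟨hz1, hz2⟩
          exact ⟨hz1, fun hz => hz2 ⟨hz1, hz⟩⟩
  simpa only [univ_inter] using key

end Pool.Agent.Helper87.Rem
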