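import Pool.Agent.Helper87.RemSwap

/-!
# The basic sets of the model: algebra, compactness, and the absence of infinite disjoint families
-/

set_option autoImplicit false

namespace Pool.Agent.Helper87.Rem

open Pool.Agent.Helper87.Sym Set

/-- The special requirements. -/
inductive ReqC : Type
  | aN (i j : ℕ) | dN (i : ℕ) | sing (i : ℕ) | CN | DN | inter | compl
  | supp (n : ℕ) | sep (n m : ℕ) | ult (n : ℕ) | pick | f7 | f8
  deriving Countable

open Classical in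
/-- A support. -/
noncomputable def sup (τ : Nm Cnd) : List (Set ℕ) × List (ℕ × ℕ) :=
  if h : Symm 𝔖 τ then h.choose else ([], [])

theorem sup_spec {τ : Nm Cnd} (h : HS 𝔖 τ) {g : Gp} (hg : g ∈ 𝔖.fix (sup τ)) :
    Feq (act g τ) τ := by
  have h1 : Symm 𝔖 τ := h.symm
  have h2 : sup τ = h1.choose := dif_pos h1
  rw [h2] at hg
  exact h1.choose_spec g hg

/-- The meaning of the special requirements. -/
def WC : ReqC → (ℕ → Nm Cnd) → Cnd → Nm Cnd → Prop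
  | .aN i j, _, _, x => x = Rem.aN (i, j)
  | .dN i, _, _, x => x = Rem.dN i
  | .sing i, _, _, x => x = cN {i}
  | .CN, _, _, x => x = Rem.CN
  | .DN, _, _, x => x = Rem.DN
  | .inter, v, _, x => ∃ b b', v 0 = cN b ∧ v 1 = cN b' ∧ x = cN (b ∩ b')
  | .compl, v, _, x => ∃ b, v 0 = cN b ∧ x = cN bᶜ
  | .supp n, v, _, x => ∃ b, (sup (v 0)).1[n]? = some b ∧ x = cN b
  | .sep n m, _, p, x => ∃ b, x = cN b ∧ p.x n ⊆ b ∧ p.x m ⊆ bᶜ
  | .ult n, v, p, _ => ∃ b, v 0 = cN b ∧ (p.x n ⊆ b ∨ p.x n ⊆ bᶜ)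
  | .pick, v, p, _ => ∃ b n, v 0 = cN b ∧ p.x n ⊆ b
  | .f7, v, p, x => ∃ b1 a b, v 1 = cN b1 ∧ v 2 = cN a ∧ x = cN b ∧ fmem (cN b) (v 0) p ∧
      a ⊆ b1 ∪ b
  | .f8, v, p, x => ∃ b b' n m, v 1 = cN b ∧ x = cN b' ∧ fmem (cN b') (v 0) p ∧
      p.x n ⊆ b ∩ b' ∧ p.x m ⊆ b \ b'

theorem transport {τ σ σ' : Nm Cnd} (hτ : HS 𝔖 τ) {h : Gp} (hh : h ∈ 𝔖.fix (sup τ))
    (hσ : Feq (act h σ) σ') {q0 q2 : Cnd} (hq : q2 ≤ h • q0) (hm : fmem σ τ q0) :
    fmem σ' τ q2 := by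
  have h1 : fmem (act h σ) (act h τ) (h • q0) := (fmem_act h _ _ _).2 hm
  exact fmem_congr_left (hσ _) (fmem_congr_right (sup_spec hτ hh _) (fmem_mono h1 hq))

/-- Splitting along a finite list of sets. -/
theorem class_ind {𝓑 : Set (Set ℕ)} (hi : ∀ a ∈ 𝓑, ∀ b ∈ 𝓑, a ∩ b ∈ 𝓑) (hc : ∀ a ∈ 𝓑, aᶜ ∈ 𝓑)
    (huniv : univ ∈ 𝓑) (Q : Set ℕ → Prop) (hu : ∀ a ∈ 𝓑, ∀ b ∈ 𝓑, Q a → Q b → Q (a ∪ b))
    (𝔽 : List (Set ℕ)) (h𝔽 : ∀ b ∈ 𝔽, b ∈ 𝓑)
    (base : ∀ a ∈ 𝓑, (∀ b ∈ 𝔽, a ⊆ b ∨ a ⊆ bᶜ) → Q a) : Q univ := by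
  have key : ∀ l : List (Set ℕ), (∀ b ∈ l, b ∈ 𝔽) → ∀ a ∈ 𝓑,
      (∀ b ∈ 𝔽, b ∈ l ∨ a ⊆ b ∨ a ⊆ bᶜ) → Q a := by
    intro l
    induction l with
    | nil =>
      intro _ a ha h
      exact base a ha fun b hb => (h b hb).resolve_left (by simp)
    | cons b l ih =>
      intro hl a ha h
      have hb : b ∈ 𝓑 := h𝔽 b (hl b (by simp))
      have e : a = (a ∩ b) ∪ (a ∩ bᶜ) := by
        rw [← inter_union_distrib_left, union_compl_self, inter_univ]
      rw [e]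
      refine hu _ (hi a ha b hb) _ (hi a ha _ (hc b hb)) ?_ ?_
      · refine ih (fun c hc => hl c (by simp [hc])) _ (hi a ha b hb) fun c hc => ?_
        rcases h c hc with h1 | h1 | h1
        · rcases List.mem_cons.1 h1 with rfl | h1
          · exact Or.inr (Or.inl inter_subset_right)
          · exact Or.inl h1
        · exact Or.inr (Or.inl (inter_subset_left.trans h1))
        · exact Or.inr (Or.inr (inter_subset_left.trans h1))
      · refine ih (fun c hc => hl c (by simp [hc])) _ (hi a ha _ (hc b hb)) fun c hc => ?_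
        rcases h c hc with h1 | h1 | h1
        · rcases List.mem_cons.1 h1 with rfl | h1
          · exact Or.inr (Or.inr inter_subset_right)
          · exact Or.inl h1
        · exact Or.inr (Or.inl (inter_subset_left.trans h1))
        · exact Or.inr (Or.inr (inter_subset_left.trans h1))
  exact key 𝔽 (fun b hb => hb) univ huniv fun b hb => Or.inl hb

variable (g : Gen 𝔖 WC)

/-- The points. -/
noncomputable def dd (i : ℕ) : ZFSet.{0} := g.val (dN i)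
/-- The basic sets. -/
noncomputable def cc (b : Set ℕ) : ZFSet.{0} := g.val (cN b)
/-- The sets of indices whose names are in the fragment. -/
def BB : Set (Set ℕ) := {b | cN b ∈ g.N}
/-- The generic filters. -/
def U (n : ℕ) : Set (Set ℕ) := {b | ∃ k, (g.pc k).x n ⊆ b}

theorem get_init {x : Nm Cnd} (hx : HS 𝔖 x) (r : ReqC)
    (hr : ∀ v p y, WC r v p y ↔ y = x) : x ∈ g.N := by
  obtain ⟨k, hk⟩ := g.req r [] (by simp)
  rcases hk with ⟨y, h1, h2⟩ | hk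
  · rw [hr] at h2
    rw [← h2]
    exact h1
  · exact absurd ((hr _ _ _).2 rfl) (hk _ le_rfl x hx)

theorem aN_mem (e : ℕ × ℕ) : aN e ∈ g.N := get_init g (HS_aN e) (.aN e.1 e.2) fun _ _ _ => Iff.rfl
theorem dN_mem (i : ℕ) : dN i ∈ g.N := get_init g (HS_dN i) (.dN i) fun _ _ _ => Iff.rfl
theorem sing_mem (i : ℕ) : {i} ∈ BB g := get_init g (HS_cN {i}) (.sing i) fun _ _ _ => Iff.rfl
theorem CN_mem : CN ∈ g.N := get_init g HS_CN .CN fun _ _ _ => Iff.rfl
theorem DN_mem : DN ∈ g.N := get_init g HS_DN .DN fun _ _ _ => Iff.rfl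
theorem nN_mem (n : ℕ) : nN n ∈ g.N := g.chk_num_mem n

theorem val_nN (n : ℕ) : g.val (nN n) = Gen.nat n := g.val_num n

theorem val_aN_inj {e e' : ℕ × ℕ} (h : g.val (aN e) = g.val (aN e')) : e = e' := by
  by_contra hne
  obtain ⟨k, hk⟩ := (g.eq_iff (aN_mem g e) (aN_mem g e')).2 h
  exact aN_ne hne hk

theorem mem_dd {i : ℕ} {x : ZFSet.{0}} : x ∈ dd g i ↔ ∃ j, g.val (aN (i, j)) = x := by
  unfold dd
  rw [g.mem_val]
  constructor
  · rintro ⟨j, -, -, h⟩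
    exact ⟨j, h⟩
  · rintro ⟨j, h⟩
    exact ⟨j, aN_mem g _, g.top_mem_F, h⟩

theorem dd_inj {i i' : ℕ} (h : dd g i = dd g i') : i = i' := by
  have h1 : g.val (aN (i, 0)) ∈ dd g i' := by
    rw [← h]
    exact (mem_dd g).2 ⟨0, rfl⟩
  obtain ⟨j, hj⟩ := (mem_dd g).1 h1
  have h2 := val_aN_inj g hj
  rw [Prod.mk.injEq] at h2
  exact h2.1.symm

theorem dd_ne_nat (i n : ℕ) : dd g i ≠ Gen.nat n := by
  intro h
  have h1 : ∀ j, ∃ m, m < n ∧ g.val (aN (i, j)) = Gen.nat m := by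
    intro j
    have : g.val (aN (i, j)) ∈ Gen.nat n := by
      rw [← h]
      exact (mem_dd g).2 ⟨j, rfl⟩
    obtain ⟨m, hm, hm'⟩ := mem_nat.1 this
    exact ⟨m, hm, hm'⟩
  choose m hm hm' using h1
  have h2 : Function.Injective m := by
    intro j j' hj
    have h3 : g.val (aN (i, j)) = g.val (aN (i, j')) := by rw [hm', hm', hj]
    have h4 := val_aN_inj g h3
    rw [Prod.mk.injEq] at h4
    exact h4.2
  have h3 : (range m).Finite := (finite_lt_nat n).subset (by rintro _ ⟨j, rfl⟩; exact hm j)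
  exact infinite_range_of_injective h2 h3

theorem mem_cc {b : Set ℕ} {x : ZFSet.{0}} :
    x ∈ cc g b ↔ (∃ i ∈ b, x = dd g i) ∨ (∃ n, b ∈ U g n ∧ x = Gen.nat n) := by
  unfold cc
  rw [g.mem_val]
  constructor
  · rintro ⟨⟨i, hi⟩ | ⟨⟨p, n⟩, hp⟩, h1, ⟨k, hk⟩, h2⟩
    · exact Or.inl ⟨i, hi, h2.symm⟩
    · refine Or.inr ⟨n, ⟨k, (hk.1 n).trans hp⟩, ?_⟩
      rw [← h2]
      exact val_nN g n
  · rintro (⟨i, hi, rfl⟩ | ⟨n, ⟨k, hk⟩, rfl⟩)
    · exact ⟨Sum.inl ⟨i, hi⟩, dN_mem g i, g.top_mem_F, rfl⟩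
    · exact ⟨Sum.inr ⟨⟨g.pc k, n⟩, hk⟩, nN_mem g n, ⟨k, le_rfl⟩, val_nN g n⟩

theorem dd_mem_cc {i : ℕ} {b : Set ℕ} : dd g i ∈ cc g b ↔ i ∈ b := by
  rw [mem_cc]
  constructor
  · rintro (⟨i', hi', h⟩ | ⟨n, -, h⟩)
    · rw [dd_inj g h]
      exact hi'
    · exact absurd h (dd_ne_nat g i n)
  · exact fun h => Or.inl ⟨i, h, rfl⟩

theorem nat_mem_cc {n : ℕ} {b : Set ℕ} : Gen.nat n ∈ cc g b ↔ b ∈ U g n := by
  rw [mem_cc]
  constructor
  · rintro (⟨i', hi', h⟩ | ⟨m, hm, h⟩)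
    · exact absurd h.symm (dd_ne_nat g i' n)
    · rw [nat_inj h]
      exact hm
  · exact fun h => Or.inr ⟨n, h, rfl⟩

theorem cc_inj {b b' : Set ℕ} (h : cc g b = cc g b') : b = b' := by
  ext i
  rw [← dd_mem_cc g, ← dd_mem_cc g, h]

include g in
theorem cN_inj {b b' : Set ℕ} (h : cN b = cN b') : b = b' :=
  cc_inj g (by unfold cc; rw [h])

theorem mem_DD {x : ZFSet.{0}} : x ∈ g.val DN ↔ ∃ i, x = dd g i := by
  rw [g.mem_val]
  constructor
  · rintro ⟨i, -, -, h⟩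
    exact ⟨i, h.symm⟩
  · rintro ⟨i, rfl⟩
    exact ⟨i, dN_mem g i, g.top_mem_F, rfl⟩

theorem mem_CC {x : ZFSet.{0}} : x ∈ g.val CN ↔ ∃ b ∈ BB g, x = cc g b := by
  rw [g.mem_val]
  constructor
  · rintro ⟨b, h1, -, h⟩
    exact ⟨b, h1, h.symm⟩
  · rintro ⟨b, hb, rfl⟩
    exact ⟨b, hb, g.top_mem_F, rfl⟩

theorem BB_inter {b b' : Set ℕ} (hb : b ∈ BB g) (hb' : b' ∈ BB g) : b ∩ b' ∈ BB g := by
  have h1 : cN b ∈ g.N := hb
  have h2 : cN b' ∈ g.N := hb'
  obtain ⟨k, hk⟩ := g.req .inter [cN b, cN b'] (by simp [h1, h2])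
  rcases hk with ⟨x, hx, c, c', hc, hc', rfl⟩ | hk
  · have e1 : b = c := cN_inj g hc
    have e2 : b' = c' := cN_inj g hc'
    rw [e1, e2]
    exact hx
  · exact absurd ⟨b, b', rfl, rfl, rfl⟩ (hk _ le_rfl (cN (b ∩ b')) (HS_cN _))

theorem BB_compl {b : Set ℕ} (hb : b ∈ BB g) : bᶜ ∈ BB g := by
  have h1 : cN b ∈ g.N := hb
  obtain ⟨k, hk⟩ := g.req .compl [cN b] (by simp [h1])
  rcases hk with ⟨x, hx, c, hc, rfl⟩ | hk
  · have e1 : b = c := cN_inj g hc
    rw [e1]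
    exact hx
  · exact absurd ⟨b, rfl, rfl⟩ (hk _ le_rfl (cN bᶜ) (HS_cN _))

theorem BB_union {b b' : Set ℕ} (hb : b ∈ BB g) (hb' : b' ∈ BB g) : b ∪ b' ∈ BB g := by
  have h := BB_compl g (BB_inter g (BB_compl g hb) (BB_compl g hb'))
  rwa [compl_inter, compl_compl, compl_compl] at h

theorem BB_diff {b b' : Set ℕ} (hb : b ∈ BB g) (hb' : b' ∈ BB g) : b \ b' ∈ BB g :=
  BB_inter g hb (BB_compl g hb')

theorem BB_empty : ∅ ∈ BB g := by
  have h := BB_inter g (sing_mem g 0) (BB_compl g (sing_mem g 0))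
  rwa [inter_compl_self] at h

theorem BB_univ : univ ∈ BB g := by
  have h := BB_compl g (BB_empty g)
  rwa [compl_empty] at h

theorem BB_finite {s : Set ℕ} (hs : s.Finite) : s ∈ BB g := by
  induction s, hs using Set.Finite.induction_on with
  | empty => exact BB_empty g
  | insert _ _ ih => exact BB_union g (sing_mem g _) ih

theorem BB_supp {τ : Nm Cnd} (hτ : τ ∈ g.N) : ∀ b ∈ (sup τ).1, b ∈ BB g := by
  intro b hb
  obtain ⟨n, hn⟩ := List.getElem?_of_mem hb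
  obtain ⟨k, hk⟩ := g.req (.supp n) [τ] (by simp [hτ])
  rcases hk with ⟨x, hx, c, hc, rfl⟩ | hk
  · have : c = b := by
      change (sup τ).1[n]? = some c at hc
      rw [hn] at hc
      exact (Option.some.inj hc).symm
    rw [← this]
    exact hx
  · exact absurd ⟨b, hn, rfl⟩ (hk _ le_rfl (cN b) (HS_cN _))

/-! ### The filters -/

theorem U_mono {n : ℕ} {b b' : Set ℕ} (h : b ∈ U g n) (hb : b ⊆ b') : b' ∈ U g n := by
  obtain ⟨k, hk⟩ := h
  exact ⟨k, hk.trans hb⟩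

theorem U_inter {n : ℕ} {b b' : Set ℕ} (h : b ∈ U g n) (h' : b' ∈ U g n) : b ∩ b' ∈ U g n := by
  obtain ⟨k, hk⟩ := h
  obtain ⟨l, hl⟩ := h'
  exact ⟨max k l, subset_inter (((g.pc_le (le_max_left k l)).1 n).trans hk)
    (((g.pc_le (le_max_right k l)).1 n).trans hl)⟩

theorem U_infinite {n : ℕ} {b : Set ℕ} (h : b ∈ U g n) : b.Infinite := by
  obtain ⟨k, hk⟩ := h
  exact ((g.pc k).inf n).mono hk

theorem U_or {b : Set ℕ} (hb : b ∈ BB g) (n : ℕ) : b ∈ U g n ∨ bᶜ ∈ U g n := by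
  have h1 : cN b ∈ g.N := hb
  obtain ⟨k, hk⟩ := g.req (.ult n) [cN b] (by simp [h1])
  rcases hk with ⟨x, hx, c, hc, h2⟩ | hk
  · have e1 : b = c := cN_inj g hc
    rw [e1]
    exact h2.imp (fun h => ⟨k, h⟩) (fun h => ⟨k, h⟩)
  · exfalso
    by_cases h2 : ((g.pc k).x n ∩ b).Infinite
    · refine hk _ (restr_le h2) (cN b) (HS_cN _) ⟨b, rfl, Or.inl ?_⟩
      rw [restr_x]
      exact inter_subset_right
    · have h3 : ((g.pc k).x n ∩ bᶜ).Infinite := by
        intro h4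
        apply (g.pc k).inf n
        rw [← inter_univ ((g.pc k).x n), ← union_compl_self b, inter_union_distrib_left]
        exact (not_infinite.1 h2).union h4
      refine hk _ (restr_le h3) (cN b) (HS_cN _) ⟨b, rfl, Or.inr ?_⟩
      rw [restr_x]
      exact inter_subset_right

theorem U_not_both {b : Set ℕ} {n : ℕ} (h : b ∈ U g n) (h' : bᶜ ∈ U g n) : False := by
  have h1 := U_infinite g (U_inter g h h')
  rw [inter_compl_self] at h1
  exact h1 finite_empty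

theorem U_compl {b : Set ℕ} (hb : b ∈ BB g) {n : ℕ} : bᶜ ∈ U g n ↔ b ∉ U g n :=
  ⟨fun h h' => U_not_both g h' h, fun h => (U_or g hb n).resolve_left h⟩

theorem U_union {b b' : Set ℕ} (hb : b ∈ BB g) (hb' : b' ∈ BB g) {n : ℕ} :
    b ∪ b' ∈ U g n ↔ b ∈ U g n ∨ b' ∈ U g n := by
  constructor
  · intro h
    by_contra hc
    rw [not_or] at hc
    have h1 := U_inter g ((U_compl g hb).2 hc.1) ((U_compl g hb').2 hc.2)
    rw [← compl_union] at h1
    exact U_not_both g h h1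
  · rintro (h | h)
    · exact U_mono g h subset_union_left
    · exact U_mono g h subset_union_right

theorem U_sep {n m : ℕ} (hnm : n ≠ m) : ∃ b ∈ BB g, b ∈ U g n ∧ b ∉ U g m := by
  obtain ⟨k, hk⟩ := g.req (.sep n m) [] (by simp)
  rcases hk with ⟨x, hx, b, rfl, h1, h2⟩ | hk
  · exact ⟨b, hx, ⟨k, h1⟩, fun h3 => U_not_both g h3 ⟨k, h2⟩⟩
  · exfalso
    obtain ⟨V, hV, hV', hV''⟩ := exists_thin ({m} : Finset ℕ) (fun _ => (g.pc k).x m)
      (fun _ _ => (g.pc k).inf m) ((g.pc k).inf n)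
    have h1 : ((g.pc k).x n ∩ V).Infinite := by rwa [inter_eq_right.2 hV]
    have h2 : ((restr (g.pc k) n V h1).x m ∩ Vᶜ).Infinite := by
      rw [restr_x_ne h1 hnm.symm]
      exact hV'' m (by simp)
    refine hk _ ((restr_le h2).trans (restr_le h1)) (cN V) (HS_cN _) ⟨V, rfl, ?_, ?_⟩
    · rw [restr_x_ne h2 hnm, restr_x]
      exact inter_subset_right
    · rw [restr_x]
      exact inter_subset_right

theorem U_pick {b : Set ℕ} (hb : b ∈ BB g) (hinf : b.Infinite) : ∃ n, b ∈ U g n := by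
  have h1 : cN b ∈ g.N := hb
  obtain ⟨k, hk⟩ := g.req .pick [cN b] (by simp [h1])
  rcases hk with ⟨x, hx, c, n, hc, h2⟩ | hk
  · have e1 : b = c := cN_inj g hc
    rw [e1]
    exact ⟨n, k, h2⟩
  · exfalso
    obtain ⟨n, hn⟩ := exists_free_x (g.pc k)
    have h2 : ((g.pc k).x n ∩ b).Infinite := by rwa [hn, univ_inter]
    refine hk _ (restr_le h2) (cN b) (HS_cN _) ⟨b, n, rfl, ?_⟩
    rw [restr_x]
    exact inter_subset_right

/-! ### Subsets of `D` -/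

theorem homog_dd {τ : Nm Cnd} (hτ : τ ∈ g.N) {i i' : ℕ}
    (hE : ∀ e ∈ (sup τ).2, e.1 ≠ i ∧ e.1 ≠ i') (hF : ∀ b ∈ (sup τ).1, (i' ∈ b ↔ i ∈ b))
    (h : dd g i ∈ g.val τ) : dd g i' ∈ g.val τ := by
  by_cases hii : i = i'
  · rw [← hii]
    exact h
  obtain ⟨k, hk⟩ := (g.mem_iff (dN_mem g i) hτ).2 h
  refine (g.mem_iff (dN_mem g i') hτ).1 ⟨k, fmem_dense fun s hs => ?_⟩
  obtain ⟨h, hh, -, hpi, q2, hq2, hq2'⟩ := swap_lemma (𝔽 := (sup τ).1) (E := (sup τ).2)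
    (Y := {i'}) (f := fun _ => i) (by simp) (by simpa using hii)
    (by
      intro e he
      have := hE e he
      simp only [mem_singleton_iff, image_singleton]
      exact ⟨this.2, this.1⟩)
    (by
      intro b hb y hy
      rw [mem_singleton_iff] at hy
      subst hy
      exact hF b hb)
    (le_refl s)
    (by
      intro n _
      exact (s.inf n).sdiff (by simp))
  have h1 := hpi i' rfl
  refine ⟨q2, hq2, ?_⟩
  have h2 := Feq_dN h i
  rw [h1.2] at h2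
  exact transport (g.hs τ hτ) hh h2 hq2' (fmem_mono hk hs)

/-- Every subset of `D` in the model comes from a basic set. -/
theorem F6 {A : ZFSet.{0}} (hA : A ∈ g.M) : ∃ b ∈ BB g, ∀ i, dd g i ∈ A ↔ i ∈ b := by
  obtain ⟨τ, hτ, rfl⟩ := hA
  refine ⟨{i | dd g i ∈ g.val τ}, ?_, fun i => Iff.rfl⟩
  set b : Set ℕ := {i | dd g i ∈ g.val τ} with hb
  have key : univ ∩ b ∈ BB g := by
    refine class_ind (𝓑 := BB g) (fun a ha c hc => BB_inter g ha hc) (fun a ha => BB_compl g ha)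
      (BB_univ g) (fun a => a ∩ b ∈ BB g) ?_ (sup τ).1 (BB_supp g hτ) ?_
    · intro a ha c hc h1 h2
      rw [union_inter_distrib_right]
      exact BB_union g h1 h2
    · intro a ha hom
      let e0 : Set ℕ := {i | ∃ e ∈ (sup τ).2, e.1 = i}
      have he0 : e0.Finite := by
        have : e0 = (fun e : ℕ × ℕ => e.1) '' {e | e ∈ (sup τ).2} := by
          ext i
          simp [e0]
        rw [this]
        exact (List.finite_toSet _).image _
      have h1 : a ∩ b = ((a \ e0) ∩ b) ∪ (a ∩ e0 ∩ b) := by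
        ext i
        simp only [mem_inter_iff, mem_union, mem_sdiff]
        tauto
      rw [h1]
      refine BB_union g ?_ (BB_finite g ((he0.subset inter_subset_right).subset inter_subset_left))
      by_cases h2 : ((a \ e0) ∩ b).Nonempty
      · obtain ⟨i, ⟨hi1, hi2⟩, hi3⟩ := h2
        have h3 : (a \ e0) ∩ b = a \ e0 := by
          apply inter_eq_left.2
          rintro i' ⟨hi1', hi2'⟩
          refine homog_dd g hτ (i := i) (i' := i') ?_ ?_ hi3
          · intro e he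
            exact ⟨fun h => hi2 ⟨e, he, h⟩, fun h => hi2' ⟨e, he, h⟩⟩
          · intro c hc
            rcases hom c hc with h | h
            · exact ⟨fun _ => h hi1, fun _ => h hi1'⟩
            · exact ⟨fun h' => absurd h' (h hi1'), fun h' => absurd h' (h hi1)⟩
        rw [h3]
        exact BB_diff g ha (BB_finite g he0)
      · rw [not_nonempty_iff_eq_empty.1 h2]
        exact BB_empty g
  rwa [univ_inter] at key

end Pool.Agent.Helper87.Rem
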