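import Pool.Agent.Helper87.RemPos

/-!
# In the model every remainder of `D` has only finitely many isolated points
-/

set_option autoImplicit false

namespace Pool.Agent.Helper87.Rem

open Pool.Agent.Helper87.Sym Pool.Agent.Helper87.ZFTop Set

section General

variable {M : Set ZFSet.{0}} (hM : IsTransModelZF M)

include hM

theorem open_of_nbhd {K T : ZFSet.{0}} (hT : T ∈ M) (top : IsTopologyIn M K T)
    {X : ZFSet.{0}} (hX : X ∈ M) (h : ∀ z ∈ X, ∃ O ∈ T, z ∈ O ∧ O ⊆ X) : X ∈ T := by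
  let 𝒰 : ZFSet := ZFSet.sep (fun O => O ⊆ X) T
  have h1 : 𝒰 ∈ M := by
    refine sep_mem hM hT (.all (.imp (.mem 0 1) (.mem 0 2))) (fun _ => X) (fun _ => hX) _ ?_
    intro O hO
    have hOM := hM.trans _ hT O hO
    simp only [Sat_all, Sat_imp, Sat_mem, cons_zero, cons_succ]
    exact ⟨fun h y _ hy => h hy, fun h y hy => h y (hM.trans _ hOM y hy) hy⟩
  have h2 := top.sUnion 𝒰 h1 ZFSet.sep_subset
  convert h2 using 1
  ext z
  rw [ZFSet.mem_sUnion]
  constructor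
  · intro hz
    obtain ⟨O, hO, hzO, hOX⟩ := h z hz
    exact ⟨O, ZFSet.mem_sep.2 ⟨hO, hOX⟩, hzO⟩
  · rintro ⟨O, hO, hzO⟩
    exact (ZFSet.mem_sep.1 hO).2 hzO

end General

variable (g : Gen 𝔖 WC)

section

variable {S K T h : ZFSet.{0}} (hS : IsDiscreteIn g.M (g.val DN) S)
  (hc : IsCompactificationIn g.M (g.val DN) S K T h)

include hc in
theorem exists_k : ∃ k : ℕ → ZFSet.{0}, (∀ i y, ZFSet.pair (dd g i) y ∈ h ↔ y = k i) ∧
    (∀ i, k i ∈ K) ∧ Function.Injective k := by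
  have h1 : ∀ i, ∃ y, ZFSet.pair (dd g i) y ∈ h ∧ ∀ z, ZFSet.pair (dd g i) z ∈ h → z = y := by
    intro i
    obtain ⟨y, hy, hy'⟩ := hc.func.2 (dd g i) ((mem_DD g).2 ⟨i, rfl⟩)
    exact ⟨y, hy, hy'⟩
  choose k hk hk' using h1
  refine ⟨k, fun i y => ⟨hk' i y, ?_⟩, fun i => (ZFSet.pair_mem_prod.1 (hc.func.1 (hk i))).2, ?_⟩
  · rintro rfl
    exact hk i
  · intro i j hij
    have h2 := hk j
    rw [← hij] at h2
    exact dd_inj g (hc.inj _ _ _ (hk i) h2)

variable {k : ℕ → ZFSet.{0}} (hk : ∀ i y, ZFSet.pair (dd g i) y ∈ h ↔ y = k i)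
  (hkK : ∀ i, k i ∈ K) (hkinj : Function.Injective k)

include hk in
theorem mem_rem {y : ZFSet.{0}} : y ∈ remainder (g.val DN) K h ↔ y ∈ K ∧ ∀ i, y ≠ k i := by
  unfold remainder
  rw [ZFSet.mem_sep]
  refine and_congr_right fun _ => ?_
  constructor
  · intro h1 i h2
    exact h1 (dd g i) ((mem_DD g).2 ⟨i, rfl⟩) ((hk i y).2 h2)
  · intro h1 x hx
    obtain ⟨i, rfl⟩ := (mem_DD g).1 hx
    rw [hk]
    exact h1 i

include hS hc hk hkK hkinj in
/-- The points of `D` are isolated in `K`. -/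
theorem sing_k (i : ℕ) : ({k i} : ZFSet) ∈ T := by
  have hM := g.isModel
  have h1 : ({dd g i} : ZFSet) ∈ g.M := singleton_mem hM (dd_mem g i)
  have h2 : ({dd g i} : ZFSet) ⊆ g.val DN := by
    intro z hz
    rw [ZFSet.mem_singleton] at hz
    exact (mem_DD g).2 ⟨i, hz⟩
  obtain ⟨O, hO, hO'⟩ := (hc.embed _ h1 h2).1 ((hS _).2 ⟨h1, h2⟩)
  have h3 : ∀ j, k j ∈ O ↔ j = i := by
    intro j
    have h4 := hO' (dd g j) ((mem_DD g).2 ⟨j, rfl⟩)
    rw [ZFSet.mem_singleton] at h4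
    constructor
    · intro h5
      exact dd_inj g (h4.2 ⟨k j, h5, (hk j _).2 rfl⟩)
    · rintro rfl
      obtain ⟨y, hy, hy'⟩ := h4.1 rfl
      rw [← (hk _ _).1 hy']
      exact hy
  have h5 : O = {k i} := by
    ext y
    rw [ZFSet.mem_singleton]
    constructor
    · intro hy
      by_contra hne
      obtain ⟨O1, hO1, O2, hO2, hy1, hy2, hd⟩ := hc.haus y (hc.top.sub _ hO hy) (k i) (hkK i) hne
      have h6 : O ∩ O1 ≠ ∅ := by
        intro he
        have : y ∈ O ∩ O1 := ZFSet.mem_inter.2 ⟨hy, hy1⟩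
        rw [he] at this
        exact ZFSet.notMem_empty _ this
      obtain ⟨x, hx, z, hz, hxz⟩ := hc.dense _ (hc.top.inter _ hO _ hO1) h6
      obtain ⟨j, rfl⟩ := (mem_DD g).1 hx
      rw [(hk _ _).1 hxz, ZFSet.mem_inter] at hz
      have h7 := (h3 j).1 hz.1
      rw [h7] at hz
      have h8 : k i ∈ O1 ∩ O2 := ZFSet.mem_inter.2 ⟨hz.2, hy2⟩
      rw [hd] at h8
      exact ZFSet.notMem_empty _ h8
    · rintro rfl
      exact (h3 i).2 rfl
  rw [← h5]
  exact hO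

include hS hc hk hkK hkinj in
/-- A clopen set disjoint from the remainder is finite. -/
theorem clopen_finite {X X' : ZFSet.{0}} (hX : X ∈ T) (hX' : X' ∈ T)
    (hXX' : ∀ z ∈ K, (z ∈ X' ↔ z ∉ X)) (hR : ∀ z ∈ X, ∃ i, z = k i) :
    {i | k i ∈ X}.Finite := by
  have hM := g.isModel
  let 𝒰 : ZFSet := ZFSet.sep (fun O => ∀ z ∈ O, ∀ w ∈ O, z ∈ X → w ∈ X → z = w) T
  have h1 : 𝒰 ∈ g.M := by
    refine sep_mem hM hc.memT (.all (.imp (.mem 0 1) (.all (.imp (.mem 0 2)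
      (.imp (.mem 1 3) (.imp (.mem 0 3) (.eq 1 0))))))) (fun _ => X)
      (fun _ => hM.trans _ hc.memT _ hX) _ ?_
    intro O hO
    have hOM := hM.trans _ hc.memT O hO
    simp only [Sat_all, Sat_imp, Sat_mem, Sat_eq, cons_zero, cons_succ]
    exact ⟨fun h z _ hz w _ hw => h z hz w hw,
      fun h z hz w hw => h z (hM.trans _ hOM z hz) hz w (hM.trans _ hOM w hw) hw⟩
  have h2 : ZFSet.sUnion 𝒰 = K := by
    ext z
    rw [ZFSet.mem_sUnion]
    constructor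
    · rintro ⟨O, hO, hzO⟩
      exact hc.top.sub _ (ZFSet.mem_sep.1 hO).1 hzO
    · intro hz
      by_cases hzX : z ∈ X
      · obtain ⟨i, rfl⟩ := hR z hzX
        refine ⟨{k i}, ZFSet.mem_sep.2 ⟨sing_k g hS hc hk hkK hkinj i, ?_⟩,
          ZFSet.mem_singleton.2 rfl⟩
        intro z hz w hw _ _
        rw [ZFSet.mem_singleton.1 hz, ZFSet.mem_singleton.1 hw]
      · refine ⟨X', ZFSet.mem_sep.2 ⟨hX', ?_⟩, (hXX' z hz).2 hzX⟩
        intro y hy w hw hyX _
        exact absurd hyX ((hXX' y (hc.top.sub _ hX' hy)).1 hy)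
  obtain ⟨𝒱, -, hV, hfin, hcov⟩ := hc.compact 𝒰 h1 ZFSet.sep_subset h2
  have h3 := finite_of_finiteIn hfin
  have h4 : ∀ i, ∃ O, k i ∈ X → O ∈ 𝒱 ∧ k i ∈ O := by
    intro i
    by_cases hi : k i ∈ X
    · have h5 := hkK i
      rw [← hcov] at h5
      obtain ⟨O, hO, hO'⟩ := ZFSet.mem_sUnion.1 h5
      exact ⟨O, fun _ => ⟨hO, hO'⟩⟩
    · exact ⟨∅, fun h => absurd h hi⟩
  choose O hO using h4
  refine Set.Finite.of_injOn (f := O) (t := {x | x ∈ 𝒱}) (fun i hi => (hO i hi).1) ?_ h3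
  intro i hi j hj hij
  apply hkinj
  have h6 := (ZFSet.mem_sep.1 (hV (hO i hi).1)).2
  exact h6 (k i) (hO i hi).2 (k j) (hij ▸ (hO j hj).2) hi hj

include hS hc hk hkK hkinj in
/-- Isolated points of the remainder have clopen neighbourhoods. -/
theorem exists_clopen {y O : ZFSet.{0}} (hyR : y ∈ remainder (g.val DN) K h) (hO : O ∈ T)
    (hOR : ∀ z ∈ remainder (g.val DN) K h, (z ∈ O ↔ z = y)) :
    ∃ V ∈ T, (∃ V' ∈ T, ∀ z ∈ K, (z ∈ V' ↔ z ∉ V)) ∧
      ∀ z ∈ remainder (g.val DN) K h, (z ∈ V ↔ z = y) := by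
  classical
  have hM := g.isModel
  have hyK : y ∈ K := ((mem_rem g hk).1 hyR).1
  have hyM : y ∈ g.M := hM.trans _ hc.memK y hyK
  have hOM : O ∈ g.M := hM.trans _ hc.memT O hO
  let 𝒰 : ZFSet := ZFSet.sep (fun W => W = O ∨ ∃ V ∈ T, y ∈ V ∧ ∀ z ∈ V, z ∉ W) T
  have h1 : 𝒰 ∈ g.M := by
    refine sep_mem hM hc.memT (.or (.eq 0 1) (.ex (.and (.mem 0 3) (.and (.mem 4 0)
      (.all (.imp (.mem 0 1) (.neg (.mem 0 2)))))))) (cons O (cons T fun _ => y)) ?_ _ ?_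
    · intro i
      rcases i with _ | _ | i
      · exact hOM
      · exact hc.memT
      · exact hyM
    · intro W hW
      simp only [Sat_all, Sat_imp, Sat_mem, Sat_eq, Sat_or, Sat_ex, Sat_and, Sat_neg, cons_zero,
        cons_succ]
      refine or_congr_right ?_
      constructor
      · rintro ⟨V, hV, hyV, hV'⟩
        exact ⟨V, hM.trans _ hc.memT V hV, hV, hyV, fun z _ hz => hV' z hz⟩
      · rintro ⟨V, hVM, hV, hyV, hV'⟩
        exact ⟨V, hV, hyV, fun z hz => hV' z (hM.trans _ hVM z hz) hz⟩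
  have hyO : y ∈ O := (hOR y hyR).2 rfl
  have h2 : ZFSet.sUnion 𝒰 = K := by
    ext z
    rw [ZFSet.mem_sUnion]
    constructor
    · rintro ⟨W, hW, hzW⟩
      exact hc.top.sub _ (ZFSet.mem_sep.1 hW).1 hzW
    · intro hz
      by_cases hzy : z = y
      · rw [hzy]
        exact ⟨O, ZFSet.mem_sep.2 ⟨hO, Or.inl rfl⟩, hyO⟩
      · obtain ⟨V, hV, W, hW, hyV, hzW, hd⟩ := hc.haus y hyK z hz (Ne.symm hzy)
        refine ⟨W, ZFSet.mem_sep.2 ⟨hW, Or.inr ⟨V, hV, hyV, fun w hw hw' => ?_⟩⟩, hzW⟩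
        have : w ∈ V ∩ W := ZFSet.mem_inter.2 ⟨hw, hw'⟩
        rw [hd] at this
        exact ZFSet.notMem_empty _ this
  obtain ⟨𝒱, -, hV, hfin, hcov⟩ := hc.compact 𝒰 h1 ZFSet.sep_subset h2
  have h3 := finite_of_finiteIn hfin
  -- intersect finitely many neighbourhoods of y
  have h4 : ∀ s : Set ZFSet.{0}, s.Finite → (∀ W ∈ s, W ∈ 𝒰 ∧ W ≠ O) →
      ∃ V ∈ T, y ∈ V ∧ ∀ W ∈ s, ∀ z ∈ V, z ∉ W := by
    intro s hs
    induction s, hs using Set.Finite.induction_on with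
    | empty => exact fun _ => ⟨K, hc.top.univ, hyK, fun W hW => absurd hW (Set.notMem_empty W)⟩
    | @insert W s _ _ ih =>
      intro h5
      obtain ⟨V, hV, hyV, hV'⟩ := ih fun W hW => h5 W (Or.inr hW)
      obtain ⟨h6, h7⟩ := h5 W (Or.inl rfl)
      obtain ⟨V2, hV2, hyV2, hV2'⟩ := (ZFSet.mem_sep.1 h6).2.resolve_left h7
      refine ⟨V ∩ V2, hc.top.inter _ hV _ hV2, ZFSet.mem_inter.2 ⟨hyV, hyV2⟩, ?_⟩
      rintro W' (rfl | hW') z hz
      · exact hV2' z (ZFSet.mem_inter.1 hz).2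
      · exact hV' W' hW' z (ZFSet.mem_inter.1 hz).1
  obtain ⟨V, hVT, hyV, hVW⟩ := h4 {W | W ∈ 𝒱 ∧ W ≠ O} (h3.subset fun W hW => hW.1)
    (fun W hW => ⟨hV hW.1, hW.2⟩)
  have hVK : V ⊆ K := hc.top.sub _ hVT
  have hVO : ∀ z ∈ V, z ∈ O := by
    intro z hz
    have h5 := hVK hz
    rw [← hcov] at h5
    obtain ⟨W, hW, hzW⟩ := ZFSet.mem_sUnion.1 h5
    by_cases hWO : W = O
    · rw [← hWO]
      exact hzW
    · exact absurd hzW (hVW W ⟨hW, hWO⟩ z hz)
  have hVR : ∀ z ∈ remainder (g.val DN) K h, (z ∈ V ↔ z = y) := by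
    intro z hz
    constructor
    · exact fun hzV => (hOR z hz).1 (hVO z hzV)
    · rintro rfl
      exact hyV
  refine ⟨V, hVT, ⟨K \ V, ?_, ?_⟩, hVR⟩
  · refine open_of_nbhd hM hc.memT hc.top (diff_mem hM hc.memK (hM.trans _ hc.memT _ hVT)) ?_
    intro z hz
    rw [ZFSet.mem_sdiff] at hz
    obtain ⟨hzK, hzV⟩ := hz
    have h5 := hzK
    rw [← hcov] at h5
    obtain ⟨W, hW, hzW⟩ := ZFSet.mem_sUnion.1 h5
    by_cases hWO : W = O
    · rw [hWO] at hzW
      by_cases hzR : z ∈ remainder (g.val DN) K h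
      · have := (hOR z hzR).1 hzW
        rw [this] at hzV
        exact absurd hyV hzV
      · rw [mem_rem g hk] at hzR
        push Not at hzR
        obtain ⟨i, rfl⟩ := hzR hzK
        refine ⟨{k i}, sing_k g hS hc hk hkK hkinj i, ZFSet.mem_singleton.2 rfl, ?_⟩
        intro w hw
        rw [ZFSet.mem_singleton] at hw
        rw [hw, ZFSet.mem_sdiff]
        exact ⟨hzK, hzV⟩
    · refine ⟨W, (ZFSet.mem_sep.1 (hV hW)).1, hzW, fun w hw => ?_⟩
      rw [ZFSet.mem_sdiff]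
      exact ⟨hc.top.sub _ (ZFSet.mem_sep.1 (hV hW)).1 hw, fun hwV => hVW W ⟨hW, hWO⟩ w hwV hw⟩
  · intro z hz
    rw [ZFSet.mem_sdiff]
    exact ⟨fun h => h.2, fun h => ⟨hz, h⟩⟩

include hS hc hk hkK hkinj in
/-- A clopen set whose trace on `D` is finite contains no point of the remainder. -/
theorem trace_infinite {V y : ZFSet.{0}} (hV : V ∈ T)
    (hVR : ∀ z ∈ remainder (g.val DN) K h, (z ∈ V ↔ z = y))
    (hyR : y ∈ remainder (g.val DN) K h) : {i | k i ∈ V}.Infinite := by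
  intro hfin
  have hM := g.isModel
  have key : ∀ s : Set ℕ, s.Finite → ∃ O ∈ T, ∀ z, z ∈ O ↔ z ∈ V ∧ ∀ i ∈ s, z ≠ k i := by
    intro s hs
    induction s, hs using Set.Finite.induction_on with
    | empty => exact ⟨V, hV, fun z => by simp⟩
    | @insert i s _ _ ih =>
      obtain ⟨O, hO, hO'⟩ := ih
      have h1 : O \ {k i} ∈ T := by
        refine open_of_nbhd hM hc.memT hc.top (diff_mem hM (hM.trans _ hc.memT _ hO)
          (singleton_mem hM (hM.trans _ hc.memK _ (hkK i)))) ?_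
        intro z hz
        rw [ZFSet.mem_sdiff, ZFSet.mem_singleton] at hz
        obtain ⟨O1, hO1, O2, hO2, hz1, hz2, hd⟩ :=
          hc.haus z (hc.top.sub _ hO hz.1) (k i) (hkK i) hz.2
        refine ⟨O ∩ O1, hc.top.inter _ hO _ hO1, ZFSet.mem_inter.2 ⟨hz.1, hz1⟩, fun w hw => ?_⟩
        rw [ZFSet.mem_inter] at hw
        rw [ZFSet.mem_sdiff, ZFSet.mem_singleton]
        refine ⟨hw.1, ?_⟩
        rintro rfl
        have : k i ∈ O1 ∩ O2 := ZFSet.mem_inter.2 ⟨hw.2, hz2⟩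
        rw [hd] at this
        exact ZFSet.notMem_empty _ this
      refine ⟨_, h1, fun z => ?_⟩
      rw [ZFSet.mem_sdiff, ZFSet.mem_singleton, hO']
      constructor
      · rintro ⟨⟨h2, h3⟩, h4⟩
        refine ⟨h2, ?_⟩
        rintro j (rfl | hj)
        · exact h4
        · exact h3 j hj
      · rintro ⟨h2, h3⟩
        exact ⟨⟨h2, fun j hj => h3 j (Or.inr hj)⟩, h3 i (Or.inl rfl)⟩
  obtain ⟨O, hO, hO'⟩ := key _ hfin
  have hyO : y ∈ O := (hO' y).2 ⟨(hVR y hyR).2 rfl, fun i _ => ((mem_rem g hk).1 hyR).2 i⟩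
  have hne : O ≠ ∅ := by
    rintro rfl
    exact ZFSet.notMem_empty _ hyO
  obtain ⟨x, hx, z, hz, hxz⟩ := hc.dense O hO hne
  obtain ⟨j, rfl⟩ := (mem_DD g).1 hx
  rw [(hk _ _).1 hxz] at hz
  obtain ⟨h1, h2⟩ := (hO' _).1 hz
  exact h2 j h1 rfl

include hS hc hk hkK hkinj in
/-- The remainder has only finitely many isolated points. -/
theorem finite_isolated : {y | y ∈ remainder (g.val DN) K h ∧
    ∃ O ∈ T, ∀ z ∈ remainder (g.val DN) K h, (z ∈ O ↔ z = y)}.Finite := by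
  classical
  have hM := g.isModel
  set R := remainder (g.val DN) K h with hR
  have hRM : R ∈ g.M := by
    refine sep_mem hM hc.memK (.all (.imp (.mem 0 2) (.all (.imp (.mem 0 4)
      (.neg (fPair 0 1 2)))))) (cons (g.val DN) fun _ => h) ?_ _ ?_
    · intro i
      rcases i with _ | i
      · exact D_mem g
      · exact hc.memh
    · intro y hy
      have hyM := hM.trans _ hc.memK y hy
      simp only [Sat_all, Sat_imp, Sat_mem, Sat_neg, cons_zero, cons_succ]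
      constructor
      · intro h1 x hxM hx p hpM hp hc'
        rw [Sat_fPair hM (by simpa using hpM) (by simpa using hxM) (by simpa using hyM)] at hc'
        simp only [cons_zero, cons_succ] at hc'
        rw [hc'] at hp
        exact h1 x hx hp
      · intro h1 x hx hp
        have hxM := hM.trans _ (D_mem g) x hx
        have hpM := opair_mem hM hxM hyM
        refine h1 x hxM hx _ hpM hp ?_
        rw [Sat_fPair hM (by simpa using hpM) (by simpa using hxM) (by simpa using hyM)]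
        rfl
  -- the family of basic sets
  let Pr : ZFSet.{0} → Prop := fun C => ∃ V ∈ T, (∃ V' ∈ T, ∀ z ∈ K, (z ∈ V' ↔ z ∉ V)) ∧
    (∃ y ∈ R, ∀ z ∈ R, (z ∈ V ↔ z = y)) ∧
    ∀ d ∈ g.val DN, (d ∈ C ↔ ∃ z ∈ V, ZFSet.pair d z ∈ h)
  have hFM : ZFSet.sep Pr (g.val CN) ∈ g.M := by
    refine sep_mem hM (C_mem g) (.ex (.and (.mem 0 2) (.and
      (.ex (.and (.mem 0 3) (.all (.imp (.mem 0 5) (.iff (.mem 0 1) (.neg (.mem 0 2)))))))
      (.and
        (.ex (.and (.mem 0 5) (.all (.imp (.mem 0 6) (.iff (.mem 0 2) (.eq 0 1))))))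
        (.all (.imp (.mem 0 6) (.iff (.mem 0 2) (.ex (.and (.mem 0 2) (.ex (.and (.mem 0 9)
          (fPair 0 2 1))))))))))))
      (cons T (cons K (cons R (cons (g.val DN) fun _ => h)))) ?_ _ ?_
    · intro i
      rcases i with _ | _ | _ | _ | i
      · exact hc.memT
      · exact hc.memK
      · exact hRM
      · exact D_mem g
      · exact hc.memh
    · intro C hC
      simp only [Sat_all, Sat_imp, Sat_mem, Sat_neg, Sat_ex, Sat_and, Sat_iff, Sat_eq,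
        cons_zero, cons_succ]
      have hsub : ∀ V ∈ T, V ∈ g.M := fun V hV => hM.trans _ hc.memT V hV
      have hK' : ∀ V ∈ K, V ∈ g.M := fun V hV => hM.trans _ hc.memK V hV
      have hR' : ∀ V ∈ R, V ∈ g.M := fun V hV => hM.trans _ hRM V hV
      have hD' : ∀ V ∈ g.val DN, V ∈ g.M := fun V hV => hM.trans _ (D_mem g) V hV
      have hpr : ∀ V ∈ T, ∀ d ∈ g.val DN, ((∃ z ∈ V, ZFSet.pair d z ∈ h) ↔
          ∃ z, z ∈ g.M ∧ z ∈ V ∧ ∃ p, p ∈ g.M ∧ p ∈ h ∧ Sat g.M (fPair 0 2 1)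
            (cons p (cons z (cons d (cons V (cons C (cons T (cons K (cons R
              (cons (g.val DN) fun _ => h)))))))))) := by
        intro V hV d hd
        have hdM := hD' d hd
        constructor
        · rintro ⟨z, hz, hz'⟩
          have hzM := hM.trans _ (hsub V hV) z hz
          have hpM := opair_mem hM hdM hzM
          refine ⟨z, hzM, hz, _, hpM, hz', ?_⟩
          rw [Sat_fPair hM (by simpa using hpM) (by simpa using hdM) (by simpa using hzM)]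
          rfl
        · rintro ⟨z, hzM, hz, p, hpM, hp, hp'⟩
          rw [Sat_fPair hM (by simpa using hpM) (by simpa using hdM) (by simpa using hzM)] at hp'
          simp only [cons_zero, cons_succ] at hp'
          rw [hp'] at hp
          exact ⟨z, hz, hp⟩
      constructor
      · rintro ⟨V, hV, ⟨V', hV', h1⟩, ⟨y, hy, h2⟩, h3⟩
        refine ⟨V, hsub V hV, hV, ⟨V', hsub V' hV', hV', fun z _ hz => h1 z hz⟩,
          ⟨y, hR' y hy, hy, fun z _ hz => h2 z hz⟩, fun d _ hd => ?_⟩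
        rw [h3 d hd]
        exact hpr V hV d hd
      · rintro ⟨V, hVM, hV, ⟨V', hVM', hV', h1⟩, ⟨y, hyM, hy, h2⟩, h3⟩
        refine ⟨V, hV, ⟨V', hV', fun z hz => h1 z (hK' z hz) hz⟩,
          ⟨y, hy, fun z hz => h2 z (hR' z hz) hz⟩, fun d hd => ?_⟩
        rw [hpr V hV d hd]
        exact h3 d (hD' d hd) hd
  -- reformulation
  have hPr : ∀ b ∈ BB g, cc g b ∈ ZFSet.sep Pr (g.val CN) → ∃ V ∈ T,
      (∃ V' ∈ T, ∀ z ∈ K, (z ∈ V' ↔ z ∉ V)) ∧
      (∃ y ∈ R, ∀ z ∈ R, (z ∈ V ↔ z = y)) ∧ ∀ i, (i ∈ b ↔ k i ∈ V) := by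
    intro b hb hb'
    obtain ⟨V, hV, h1, h2, h3⟩ := (ZFSet.mem_sep.1 hb').2
    refine ⟨V, hV, h1, h2, fun i => ?_⟩
    rw [← dd_mem_cc g, h3 _ ((mem_DD g).2 ⟨i, rfl⟩)]
    constructor
    · rintro ⟨z, hz, hz'⟩
      rw [← (hk _ _).1 hz']
      exact hz
    · intro h
      exact ⟨k i, h, (hk _ _).2 rfl⟩
  -- clopen sets agreeing on the remainder have almost equal traces
  have hdiff : ∀ V V2 V' V2' : ZFSet.{0}, V ∈ T → V2 ∈ T → V' ∈ T → V2' ∈ T →
      (∀ z ∈ K, (z ∈ V' ↔ z ∉ V)) → (∀ z ∈ K, (z ∈ V2' ↔ z ∉ V2)) →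
      (∀ z ∈ R, z ∈ V → z ∈ V2 → False) → {i | k i ∈ V ∧ k i ∈ V2}.Finite := by
    intro V V2 V' V2' hV hV2 hV' hV2' h1 h2 h3
    have h4 : {i | k i ∈ V ∧ k i ∈ V2} = {i | k i ∈ V ∩ V2} := by
      ext i
      simp
    rw [h4]
    have h5 : K \ (V ∩ V2) ∈ T := by
      refine open_of_nbhd hM hc.memT hc.top (diff_mem hM hc.memK
        (hM.trans _ hc.memT _ (hc.top.inter _ hV _ hV2))) ?_
      intro z hz
      rw [ZFSet.mem_sdiff, ZFSet.mem_inter, not_and_or] at hz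
      rcases hz with ⟨hzK, hz | hz⟩
      · refine ⟨V', hV', (h1 z hzK).2 hz, fun w hw => ?_⟩
        have hwK := hc.top.sub _ hV' hw
        rw [ZFSet.mem_sdiff, ZFSet.mem_inter]
        exact ⟨hwK, fun hc => (h1 w hwK).1 hw hc.1⟩
      · refine ⟨V2', hV2', (h2 z hzK).2 hz, fun w hw => ?_⟩
        have hwK := hc.top.sub _ hV2' hw
        rw [ZFSet.mem_sdiff, ZFSet.mem_inter]
        exact ⟨hwK, fun hc => (h2 w hwK).1 hw hc.2⟩
    refine clopen_finite g hS hc hk hkK hkinj (hc.top.inter _ hV _ hV2) h5 ?_ ?_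
    · intro z hz
      rw [ZFSet.mem_sdiff]
      exact ⟨fun h => h.2, fun h => ⟨hz, h⟩⟩
    · intro z hz
      rw [ZFSet.mem_inter] at hz
      by_contra hne
      push Not at hne
      have hzK := hc.top.sub _ hV hz.1
      exact h3 z ((mem_rem g hk).2 ⟨hzK, hne⟩) hz.1 hz.2
  have hF8 := F8 g hFM (by
    intro b hb hb1 b' hb' hb1' n hbn hbn' m hbm
    obtain ⟨V, hV, ⟨V', hV', hVV'⟩, ⟨y, hy, hy'⟩, hbV⟩ := hPr b hb hb1
    obtain ⟨V2, hV2, ⟨V2', hV2', hVV2'⟩, ⟨y2, hy2, hy2'⟩, hbV2⟩ := hPr b' hb' hb1'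
    by_cases hyy : y = y2
    · subst hyy
      have h1 : (b \ b').Finite := by
        have h2 := hdiff V V2' V' V2 hV hV2' hV' hV2 hVV' (by
          intro z hz
          rw [hVV2' z hz, not_not]) (by
          intro z hz hzV hzV2
          have h3 := (hy' z hz).1 hzV
          have h4 := (hy2' z hz).2 h3
          exact (hVV2' z (((mem_rem g hk).1 hz).1)).1 hzV2 h4)
        apply h2.subset
        rintro i ⟨hi, hi'⟩
        refine ⟨(hbV i).1 hi, (hVV2' _ (hkK i)).2 ?_⟩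
        rwa [← hbV2]
      by_contra hcon
      have h2 := U_inter g hbm ((U_compl g hb').2 hcon)
      exact U_infinite g h2 h1
    · exfalso
      have h1 : (b ∩ b').Finite := by
        have h2 := hdiff V V2 V' V2' hV hV2 hV' hV2' hVV' hVV2' (by
          intro z hz hzV hzV2
          exact hyy (((hy' z hz).1 hzV).symm.trans ((hy2' z hz).1 hzV2)))
        apply h2.subset
        rintro i ⟨hi, hi'⟩
        exact ⟨(hbV i).1 hi, (hbV2 i).1 hi'⟩
      exact U_infinite g (U_inter g hbn hbn') h1)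
  -- each isolated point gives a basic set
  have hb : ∀ y, ∃ b, (y ∈ R ∧ ∃ O ∈ T, ∀ z ∈ R, (z ∈ O ↔ z = y)) → b ∈ BB g ∧
      cc g b ∈ ZFSet.sep Pr (g.val CN) ∧ ∃ V ∈ T, (∃ V' ∈ T, ∀ z ∈ K, (z ∈ V' ↔ z ∉ V)) ∧
        (∀ z ∈ R, (z ∈ V ↔ z = y)) ∧ ∀ i, (i ∈ b ↔ k i ∈ V) := by
    intro y
    by_cases hy : y ∈ R ∧ ∃ O ∈ T, ∀ z ∈ R, (z ∈ O ↔ z = y)
    swap
    · exact ⟨∅, fun h => absurd h hy⟩
    obtain ⟨hyR, O, hO, hO'⟩ := hy
    obtain ⟨V, hV, hV', hVR⟩ := exists_clopen g hS hc hk hkK hkinj hyR hO hO'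
    have hVM := hM.trans _ hc.memT _ hV
    have hA : ZFSet.sep (fun d => ∃ z ∈ V, ZFSet.pair d z ∈ h) (g.val DN) ∈ g.M := by
      refine sep_mem hM (D_mem g) (.ex (.and (.mem 0 2) (.ex (.and (.mem 0 4) (fPair 0 2 1)))))
        (cons V fun _ => h) ?_ _ ?_
      · intro i
        rcases i with _ | i
        · exact hVM
        · exact hc.memh
      · intro d hd
        have hdM := hM.trans _ (D_mem g) d hd
        simp only [Sat_mem, Sat_ex, Sat_and, cons_zero, cons_succ]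
        constructor
        · rintro ⟨z, hz, hz'⟩
          have hzM := hM.trans _ hVM z hz
          have hpM := opair_mem hM hdM hzM
          refine ⟨z, hzM, hz, _, hpM, hz', ?_⟩
          rw [Sat_fPair hM (by simpa using hpM) (by simpa using hdM) (by simpa using hzM)]
          rfl
        · rintro ⟨z, hzM, hz, p, hpM, hp, hp'⟩
          rw [Sat_fPair hM (by simpa using hpM) (by simpa using hdM) (by simpa using hzM)] at hp'
          simp only [cons_zero, cons_succ] at hp'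
          rw [hp'] at hp
          exact ⟨z, hz, hp⟩
    obtain ⟨b, hb, hb'⟩ := F6 g hA
    have hbV : ∀ i, (i ∈ b ↔ k i ∈ V) := by
      intro i
      rw [← hb', ZFSet.mem_sep]
      constructor
      · rintro ⟨-, z, hz, hz'⟩
        rw [← (hk _ _).1 hz']
        exact hz
      · intro h
        exact ⟨(mem_DD g).2 ⟨i, rfl⟩, k i, h, (hk _ _).2 rfl⟩
    refine ⟨b, fun _ => ⟨hb, ?_, V, hV, hV', hVR, hbV⟩⟩
    refine ZFSet.mem_sep.2 ⟨(mem_CC g).2 ⟨b, hb, rfl⟩, V, hV, hV', ⟨y, hyR, hVR⟩, ?_⟩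
    intro d hd
    obtain ⟨i, rfl⟩ := (mem_DD g).1 hd
    rw [dd_mem_cc, hbV]
    constructor
    · intro h
      exact ⟨k i, h, (hk _ _).2 rfl⟩
    · rintro ⟨z, hz, hz'⟩
      rw [← (hk _ _).1 hz']
      exact hz
  choose b hb using hb
  refine Set.Finite.of_injOn (f := fun y => {n | b y ∈ U g n}) ?_ ?_ hF8
  · intro y hy
    exact ⟨b y, (hb y hy).1, (hb y hy).2.1, rfl⟩
  · intro y hy y2 hy2 hyy
    by_contra hne
    obtain ⟨h1, -, V, hV, ⟨V', hV', hVV'⟩, hVR, hbV⟩ := hb y hy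
    obtain ⟨h2, -, V2, hV2, ⟨V2', hV2', hVV2'⟩, hVR2, hbV2⟩ := hb y2 hy2
    have h3 : (b y).Infinite := by
      have := trace_infinite g hS hc hk hkK hkinj hV hVR hy.1
      apply this.mono
      intro i hi
      exact (hbV i).2 hi
    obtain ⟨n, hn⟩ := U_pick g h1 h3
    have hn2 : b y2 ∈ U g n := by
      have : n ∈ {n | b y ∈ U g n} := hn
      have h4 : {n | b y ∈ U g n} = {n | b y2 ∈ U g n} := hyy
      rw [h4] at this
      exact this
    have h5 : (b y ∩ b y2).Finite := by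
      have h6 := hdiff V V2 V' V2' hV hV2 hV' hV2' hVV' hVV2' (by
        intro z hz hzV hzV2
        exact hne (((hVR z hz).1 hzV).symm.trans ((hVR2 z hz).1 hzV2)))
      apply h6.subset
      rintro i ⟨hi, hi'⟩
      exact ⟨(hbV i).1 hi, (hbV2 i).1 hi'⟩
    exact U_infinite g (U_inter g hn hn2) h5

end

/-- `ℕ(∞)` is not a remainder of `D`. -/
theorem not_remainder {S W : ZFSet.{0}} (hS : IsDiscreteIn g.M (g.val DN) S)
    (hW : IsTopNInfIn g.M W) : ¬ IsRemainderIn g.M NInf W (g.val DN) S := by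
  rintro ⟨K, T, h, hc, f, hf, hbij, hhom⟩
  have hM := g.isModel
  obtain ⟨k, hk, hkK, hkinj⟩ := exists_k g hc
  have hfin := finite_isolated g hS hc hk hkK hkinj
  have h1 : ∀ n, ∃ z, z ∈ remainder (g.val DN) K h ∧ ZFSet.pair (Gen.nat n) z ∈ f := by
    intro n
    obtain ⟨z, hz, -⟩ := hbij.1.2 (Gen.nat n)
      (ZFSet.mem_insert_of_mem _ (mem_omega.2 ⟨n, rfl⟩))
    exact ⟨z, (ZFSet.pair_mem_prod.1 (hbij.1.1 hz)).2, hz⟩
  choose z hz hz' using h1
  have hzinj : Function.Injective z := by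
    intro n m hnm
    obtain ⟨x, -, hx⟩ := hbij.2 (z n) (hz n)
    have h2 := hx _ (hz' n)
    have h3 := hx (Gen.nat m) (by rw [hnm]; exact hz' m)
    exact nat_inj (h2.trans h3.symm)
  refine Set.infinite_range_of_injective hzinj (hfin.subset ?_)
  rintro _ ⟨n, rfl⟩
  refine ⟨hz n, ?_⟩
  have hA : ({Gen.nat n} : ZFSet) ∈ g.M := singleton_mem hM (nat_mem hM n)
  have hA' : ({Gen.nat n} : ZFSet) ⊆ NInf := by
    intro x hx
    rw [ZFSet.mem_singleton] at hx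
    rw [hx]
    exact ZFSet.mem_insert_of_mem _ (mem_omega.2 ⟨n, rfl⟩)
  have hAW : ({Gen.nat n} : ZFSet) ∈ W := by
    refine (hW _).2 ⟨hA, hA', fun hω => ?_⟩
    rw [ZFSet.mem_singleton] at hω
    have h2 : Gen.nat n ∈ ZFSet.omega := mem_omega.2 ⟨n, rfl⟩
    rw [← hω] at h2
    exact absurd h2 (ZFSet.mem_irrefl _)
  obtain ⟨O, hO, hO'⟩ := (hhom _ hA hA').1 hAW
  refine ⟨O, hO, fun w hw => ?_⟩
  obtain ⟨x, hx, hx'⟩ := hbij.2 w hw
  have hxN : x ∈ NInf := (ZFSet.pair_mem_prod.1 (hbij.1.1 hx)).1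
  have h2 := hO' x hxN
  rw [ZFSet.mem_singleton] at h2
  have huniq : ∀ u v v', ZFSet.pair u v ∈ f → ZFSet.pair u v' ∈ f → v = v' := by
    intro u v v' hu hu'
    obtain ⟨y, -, hy⟩ := hbij.1.2 u (ZFSet.pair_mem_prod.1 (hbij.1.1 hu)).1
    exact (hy v hu).trans (hy v' hu').symm
  constructor
  · intro hwO
    have h3 := h2.2 ⟨w, hwO, hx⟩
    rw [h3] at hx
    exact huniq _ _ _ hx (hz' n)
  · rintro rfl
    have h3 : x = Gen.nat n := (hx' _ (hz' n)).symm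
    obtain ⟨u, hu, hu'⟩ := h2.1 h3
    rw [huniq _ _ _ hx hu']
    exact hu

end Pool.Agent.Helper87.Rem
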