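import Pool.Agent.Helper87.RemSwap

/-!
# General topology inside a transitive model of ZF
-/

set_option autoImplicit false

namespace Pool.Agent.Helper87.ZFTop

open Pool.Agent.Helper87.Sym

/-! ### Closure properties of transitive models -/

variable {M : Set ZFSet.{0}} (hM : IsTransModelZF M)

include hM

theorem singleton_mem {x : ZFSet.{0}} (hx : x ∈ M) : ({x} : ZFSet) ∈ M := by
  have h := hM.pair x hx x hx
  rwa [ZFSet.pair_eq_singleton] at h

theorem opair_mem {x y : ZFSet.{0}} (hx : x ∈ M) (hy : y ∈ M) : ZFSet.pair x y ∈ M :=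
  hM.pair _ (singleton_mem hM hx) _ (hM.pair x hx y hy)

theorem union_mem {x y : ZFSet.{0}} (hx : x ∈ M) (hy : y ∈ M) : x ∪ y ∈ M := by
  have h := hM.union _ (hM.pair x hx y hy)
  convert h using 1
  ext z
  simp

theorem insert_mem {x y : ZFSet.{0}} (hx : x ∈ M) (hy : y ∈ M) : insert x y ∈ M := by
  rw [ZFSet.insert_eq]
  exact union_mem hM (singleton_mem hM hx) hy

/-- Separation, in a convenient form. -/
theorem sep_mem {x : ZFSet.{0}} (hx : x ∈ M) (φ : Fml) (v : ℕ → ZFSet.{0}) (hv : ∀ i, v i ∈ M)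
    (p : ZFSet.{0} → Prop) (hp : ∀ z ∈ x, (p z ↔ Sat M φ (cons z v))) : ZFSet.sep p x ∈ M := by
  obtain ⟨y, hy, hy'⟩ := hM.sep φ v hv x hx
  have : ZFSet.sep p x = y := by
    ext z
    rw [ZFSet.mem_sep, hy']
    constructor
    · exact fun h => ⟨h.1, (hp z h.1).1 h.2⟩
    · exact fun h => ⟨h.1, (hp z h.1).2 h.2⟩
  rw [this]
  exact hy

theorem diff_mem {x y : ZFSet.{0}} (hx : x ∈ M) (hy : y ∈ M) : x \ y ∈ M := by
  have h := sep_mem hM hx (.neg (.mem 0 1)) (fun _ => y) (fun _ => hy) (fun z => z ∉ y)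
    (by intro z _; simp)
  convert h using 1
  ext z
  simp

theorem inter_mem {x y : ZFSet.{0}} (hx : x ∈ M) (hy : y ∈ M) : x ∩ y ∈ M := by
  have h := sep_mem hM hx (.mem 0 1) (fun _ => y) (fun _ => hy) (fun z => z ∈ y)
    (by intro z _; simp)
  convert h using 1
  ext z
  simp

/-- The formula `v p = (v a, v b)`. -/
def fPair (p a b : ℕ) : Fml :=
  .all (.iff (.mem 0 (p + 1)) (.or (.all (.iff (.mem 0 1) (.eq 0 (a + 2))))
    (.all (.iff (.mem 0 1) (.or (.eq 0 (a + 2)) (.eq 0 (b + 2)))))))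

theorem Sat_fPair {p a b : ℕ} {v : ℕ → ZFSet.{0}} (hp : v p ∈ M) (ha : v a ∈ M) (hb : v b ∈ M) :
    Sat M (fPair p a b) v ↔ v p = ZFSet.pair (v a) (v b) := by
  simp only [fPair, Sat_all, Sat_iff, Sat_mem, Sat_or, Sat_eq, cons_zero, cons_succ]
  have e1 : ∀ w ∈ M, (∀ x ∈ M, (x ∈ w ↔ x = v a)) ↔ w = {v a} := by
    intro w hw
    constructor
    · intro h
      ext x
      rw [ZFSet.mem_singleton]
      constructor
      · exact fun hx => (h x (hM.trans w hw x hx)).1 hx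
      · rintro rfl
        exact (h _ ha).2 rfl
    · rintro rfl x -
      exact ZFSet.mem_singleton
  have e2 : ∀ w ∈ M, (∀ x ∈ M, (x ∈ w ↔ x = v a ∨ x = v b)) ↔ w = {v a, v b} := by
    intro w hw
    constructor
    · intro h
      ext x
      rw [ZFSet.mem_pair]
      constructor
      · exact fun hx => (h x (hM.trans w hw x hx)).1 hx
      · rintro (rfl | rfl)
        · exact (h _ ha).2 (Or.inl rfl)
        · exact (h _ hb).2 (Or.inr rfl)
    · rintro rfl x -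
      exact ZFSet.mem_pair
  constructor
  · intro h
    ext w
    unfold ZFSet.pair
    rw [ZFSet.mem_pair]
    constructor
    · intro hw
      have hwM := hM.trans _ hp w hw
      rw [← e1 w hwM, ← e2 w hwM]
      exact (h w hwM).1 hw
    · rintro (rfl | rfl)
      · have hwM := singleton_mem hM ha
        exact (h _ hwM).2 (Or.inl ((e1 _ hwM).2 rfl))
      · have hwM := hM.pair _ ha _ hb
        exact (h _ hwM).2 (Or.inr ((e2 _ hwM).2 rfl))
  · intro h w hwM
    rw [e1 w hwM, e2 w hwM, h]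
    unfold ZFSet.pair
    rw [ZFSet.mem_pair]

/-- The identity function. -/
theorem exists_id {X : ZFSet.{0}} (hX : X ∈ M) :
    ∃ f ∈ M, ∀ z, z ∈ f ↔ ∃ y ∈ X, z = ZFSet.pair y y := by
  obtain ⟨P1, hP1, hP1'⟩ := hM.power X hX
  obtain ⟨P2, hP2, hP2'⟩ := hM.power P1 hP1
  refine ⟨ZFSet.sep (fun z => ∃ y ∈ X, z = ZFSet.pair y y) P2, ?_, ?_⟩
  · refine sep_mem hM hP2 (.ex (.and (.mem 0 2) (fPair 1 0 0))) (fun _ => X) (fun _ => hX) _ ?_
    intro z hz
    have hzM : z ∈ M := hM.trans _ hP2 z hz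
    simp only [Sat_ex, Sat_and, Sat_mem, cons_zero, cons_succ]
    constructor
    · rintro ⟨y, hy, rfl⟩
      have hyM : y ∈ M := hM.trans _ hX y hy
      refine ⟨y, hyM, hy, ?_⟩
      rw [Sat_fPair hM (by simpa using hzM) (by simpa using hyM) (by simpa using hyM)]
      rfl
    · rintro ⟨y, hyM, hy, h⟩
      rw [Sat_fPair hM (by simpa using hzM) (by simpa using hyM) (by simpa using hyM)] at h
      exact ⟨y, hy, h⟩
  · intro z
    rw [ZFSet.mem_sep]
    constructor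
    · exact fun h => h.2
    · rintro ⟨y, hy, rfl⟩
      have hyM : y ∈ M := hM.trans _ hX y hy
      refine ⟨?_, y, hy, rfl⟩
      rw [hP2']
      refine ⟨opair_mem hM hyM hyM, fun w hw => ?_⟩
      have hw' : w = {y} := by
        unfold ZFSet.pair at hw
        simpa using hw
      subst hw'
      rw [hP1']
      refine ⟨singleton_mem hM hyM, fun u hu => ?_⟩
      rw [ZFSet.mem_singleton] at hu
      rw [hu]
      exact hy

omit hM in
theorem isBij_insert {A B f a b : ZFSet.{0}} (h : IsBij A B f) (ha : a ∉ A) (hb : b ∉ B) :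
    IsBij (insert a A) (insert b B) (insert (ZFSet.pair a b) f) := by
  obtain ⟨⟨h1, h2⟩, h3⟩ := h
  refine ⟨⟨?_, ?_⟩, ?_⟩
  · intro z hz
    rw [ZFSet.mem_insert_iff] at hz
    rcases hz with rfl | hz
    · rw [ZFSet.pair_mem_prod]
      exact ⟨ZFSet.mem_insert _ _, ZFSet.mem_insert _ _⟩
    · have := h1 hz
      rw [ZFSet.mem_prod] at this ⊢
      obtain ⟨x, hx, y, hy, rfl⟩ := this
      exact ⟨x, ZFSet.mem_insert_of_mem _ hx, y, ZFSet.mem_insert_of_mem _ hy, rfl⟩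
  · intro x hx
    rw [ZFSet.mem_insert_iff] at hx
    rcases hx with rfl | hx
    · refine ⟨b, ZFSet.mem_insert _ _, ?_⟩
      intro y hy
      rw [ZFSet.mem_insert_iff] at hy
      rcases hy with hy | hy
      · exact (ZFSet.pair_inj.1 hy).2
      · exact absurd (ZFSet.pair_mem_prod.1 (h1 hy)).1 ha
    · obtain ⟨y, hy, hy'⟩ := h2 x hx
      refine ⟨y, ZFSet.mem_insert_of_mem _ hy, ?_⟩
      intro z hz
      rw [ZFSet.mem_insert_iff] at hz
      rcases hz with hz | hz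
      · exact absurd ((ZFSet.pair_inj.1 hz).1 ▸ hx) ha
      · exact hy' z hz
  · intro y hy
    rw [ZFSet.mem_insert_iff] at hy
    rcases hy with rfl | hy
    · refine ⟨a, ZFSet.mem_insert _ _, ?_⟩
      intro x hx
      rw [ZFSet.mem_insert_iff] at hx
      rcases hx with hx | hx
      · exact (ZFSet.pair_inj.1 hx).1
      · exact absurd (ZFSet.pair_mem_prod.1 (h1 hx)).2 hb
    · obtain ⟨x, hx, hx'⟩ := h3 y hy
      refine ⟨x, ZFSet.mem_insert_of_mem _ hx, ?_⟩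
      intro z hz
      rw [ZFSet.mem_insert_iff] at hz
      rcases hz with hz | hz
      · exact absurd ((ZFSet.pair_inj.1 hz).2 ▸ hy) hb
      · exact hx' z hz

theorem nat_mem (n : ℕ) : Gen.nat n ∈ M :=
  hM.trans _ hM.inf _ (ZFSet.mk_mem_iff.2 ⟨⟨n⟩, PSet.Equiv.rfl⟩)

/-- Finite sets of elements of `M` belong to `M` and are finite in `M`. -/
theorem finite_mem {s : Set ZFSet.{0}} (hs : s.Finite) (hsM : s ⊆ M) :
    ∃ X ∈ M, (∀ x, x ∈ X ↔ x ∈ s) ∧ ∃ n, ∃ f ∈ M, IsBij (Gen.nat n) X f := by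
  induction s, hs using Set.Finite.induction_on with
  | empty =>
    refine ⟨∅, nat_mem hM 0, by simp, 0, ∅, nat_mem hM 0, ?_⟩
    refine ⟨⟨fun z hz => absurd hz (ZFSet.notMem_empty z), fun z hz => ?_⟩, fun z hz => ?_⟩
    · exact absurd hz (ZFSet.notMem_empty z)
    · exact absurd hz (ZFSet.notMem_empty z)
  | @insert a s ha _ ih =>
    obtain ⟨X, hX, hX', n, f, hf, hf'⟩ := ih fun x hx => hsM (Or.inr hx)
    have haM : a ∈ M := hsM (Or.inl rfl)
    refine ⟨insert a X, insert_mem hM haM hX, ?_, n + 1, insert (ZFSet.pair (Gen.nat n) a) f,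
      insert_mem hM (opair_mem hM (nat_mem hM n) haM) hf, ?_⟩
    · intro x
      rw [ZFSet.mem_insert_iff, hX', Set.mem_insert_iff]
    · change IsBij (insert (Gen.nat n) (Gen.nat n)) _ _
      exact isBij_insert hf' (ZFSet.mem_irrefl _) fun h => ha ((hX' a).1 h)

theorem finiteIn_of_finite {X : ZFSet.{0}} (hX : X ∈ M) (h : {x | x ∈ X}.Finite) :
    FiniteIn M X := by
  obtain ⟨Y, hY, hY', n, f, hf, hf'⟩ := finite_mem hM h fun x hx => hM.trans X hX x hx
  have : Y = X := by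
    ext x
    exact hY' x
  subst this
  exact ⟨Gen.nat n, ZFSet.mk_mem_iff.2 ⟨⟨n⟩, PSet.Equiv.rfl⟩, f, hf, hf'⟩

omit hM in
theorem finite_of_finiteIn {X : ZFSet.{0}} (h : FiniteIn M X) : {x | x ∈ X}.Finite := by
  obtain ⟨n, hn, f, -, hf⟩ := h
  obtain ⟨m, rfl⟩ := Rem.mem_omega.1 hn
  have h1 : {x | x ∈ Gen.nat m}.Finite := by
    apply ((Set.finite_lt_nat m).image Gen.nat).subset
    intro x hx
    obtain ⟨k, hk, rfl⟩ := Rem.mem_nat.1 hx
    exact ⟨k, hk, rfl⟩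
  have h2 : ∀ y, ∃ x, y ∈ X → x ∈ Gen.nat m ∧ ZFSet.pair x y ∈ f := by
    intro y
    by_cases hy : y ∈ X
    · obtain ⟨x, hx, -⟩ := hf.2 y hy
      exact ⟨x, fun _ => ⟨(ZFSet.pair_mem_prod.1 (hf.1.1 hx)).1, hx⟩⟩
    · exact ⟨∅, fun h => absurd h hy⟩
  choose F hF using h2
  refine Set.Finite.of_injOn (f := F) (t := {x | x ∈ Gen.nat m}) (fun y hy => (hF y hy).1) ?_ h1
  intro y hy y' hy' h
  have e1 := (hF y hy).2
  have e2 := (hF y' hy').2
  rw [h] at e1
  obtain ⟨z, -, hz⟩ := hf.1.2 _ (hF y' hy').1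
  exact (hz y e1).trans (hz y' e2).symm

theorem finiteIn_iff {X : ZFSet.{0}} (hX : X ∈ M) : FiniteIn M X ↔ {x | x ∈ X}.Finite :=
  ⟨finite_of_finiteIn, finiteIn_of_finite hM hX⟩

/-- The topology of `ℕ(∞)` exists in `M`. -/
theorem exists_topNInf : ∃ W ∈ M, IsTopNInfIn M W := by
  have hN : NInf ∈ M := insert_mem hM hM.inf hM.inf
  obtain ⟨Q, hQ, hQ'⟩ := hM.power _ hN
  refine ⟨ZFSet.sep (fun A => ZFSet.omega ∈ A → ∃ n ∈ ZFSet.omega, ∀ m ∈ ZFSet.omega,
    m ∈ A ∨ m ∈ n) Q, ?_, ?_⟩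
  · refine sep_mem hM hQ (.imp (.mem 1 0) (.ex (.and (.mem 0 2) (.all (.imp (.mem 0 3)
      (.or (.mem 0 2) (.mem 0 1))))))) (fun _ => ZFSet.omega) (fun _ => hM.inf) _ ?_
    intro A _
    simp only [Sat_ex, Sat_and, Sat_mem, Sat_all, Sat_imp, Sat_or, cons_zero, cons_succ]
    constructor
    · intro h h'
      obtain ⟨n, hn, hn'⟩ := h h'
      exact ⟨n, hM.trans _ hM.inf _ hn, hn, fun m _ hm => hn' m hm⟩
    · intro h h'
      obtain ⟨n, -, hn, hn'⟩ := h h'
      exact ⟨n, hn, fun m hm => hn' m (hM.trans _ hM.inf _ hm) hm⟩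
  · intro A
    rw [ZFSet.mem_sep, hQ', and_assoc]
    refine and_congr_right fun hA => and_congr_right fun hA' => imp_congr_right fun hω => ?_
    rw [finiteIn_iff hM (diff_mem hM hN hA)]
    constructor
    · rintro ⟨n, hn, hn'⟩
      obtain ⟨N, rfl⟩ := Rem.mem_omega.1 hn
      apply ((Set.finite_lt_nat N).image Gen.nat).subset
      intro x hx
      change x ∈ NInf \ A at hx
      rw [ZFSet.mem_sdiff] at hx
      obtain ⟨h1, h2⟩ := hx
      rcases ZFSet.mem_insert_iff.1 h1 with rfl | h1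
      · exact absurd hω h2
      · obtain ⟨k, hk, rfl⟩ := Rem.mem_nat.1 ((hn' x h1).resolve_left h2)
        exact ⟨k, hk, rfl⟩
    · intro h
      have h1 : {m : ℕ | Gen.nat m ∉ A}.Finite := by
        refine Set.Finite.of_injOn (f := Gen.nat) (t := {x | x ∈ NInf \ A}) ?_ ?_ h
        · intro m hm
          change Gen.nat m ∈ NInf \ A
          rw [ZFSet.mem_sdiff]
          exact ⟨ZFSet.mem_insert_of_mem _ (Rem.mem_omega.2 ⟨m, rfl⟩), hm⟩
        · exact fun m _ m' _ h => Rem.nat_inj h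
      obtain ⟨N, hN⟩ := h1.bddAbove
      refine ⟨Gen.nat (N + 1), Rem.mem_omega.2 ⟨_, rfl⟩, fun m hm => ?_⟩
      obtain ⟨k, rfl⟩ := Rem.mem_omega.1 hm
      by_cases hk : Gen.nat k ∈ A
      · exact Or.inl hk
      · exact Or.inr (Rem.mem_nat.2 ⟨k, Nat.lt_succ_of_le (hN hk), rfl⟩)

end Pool.Agent.Helper87.ZFTop
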