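import Pool.Agent.Helper87.RemCompact
import Pool.Agent.Helper87.ZFTop

/-!
# The compactification with a denumerable remainder
-/

set_option autoImplicit false

namespace Pool.Agent.Helper87.Rem

open Pool.Agent.Helper87.Sym Pool.Agent.Helper87.ZFTop Set

variable (g : Gen 𝔖 WC)

/-- The underlying set of the compactification. -/
noncomputable def KK : ZFSet.{0} := g.val DN ∪ ZFSet.omega

theorem dd_mem (i : ℕ) : dd g i ∈ g.M := ⟨_, dN_mem g i, rfl⟩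
theorem D_mem : g.val DN ∈ g.M := ⟨_, DN_mem g, rfl⟩
theorem C_mem : g.val CN ∈ g.M := ⟨_, CN_mem g, rfl⟩
theorem cc_mem {b : Set ℕ} (hb : b ∈ BB g) : cc g b ∈ g.M := ⟨_, hb, rfl⟩
theorem KK_mem : KK g ∈ g.M := union_mem g.isModel (D_mem g) g.isModel.inf

theorem mem_KK {x : ZFSet.{0}} : x ∈ KK g ↔ (∃ i, x = dd g i) ∨ ∃ n, x = Gen.nat n := by
  rw [KK, ZFSet.mem_union, mem_DD, mem_omega]

theorem cc_sub (b : Set ℕ) : cc g b ⊆ KK g := by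
  intro x hx
  rw [mem_KK]
  rcases (mem_cc g).1 hx with ⟨i, -, h⟩ | ⟨n, -, h⟩
  · exact Or.inl ⟨i, h⟩
  · exact Or.inr ⟨n, h⟩

theorem U_univ (n : ℕ) : univ ∈ U g n := ⟨0, subset_univ _⟩

theorem U_finite_sUnion {B : Set (Set ℕ)} (hB : B.Finite) (hB' : ∀ b ∈ B, b ∈ BB g) {n : ℕ} :
    ⋃₀ B ∈ BB g ∧ (⋃₀ B ∈ U g n → ∃ b ∈ B, b ∈ U g n) := by
  induction B, hB using Set.Finite.induction_on with
  | empty =>
    rw [sUnion_empty]
    exact ⟨BB_empty g, fun h => absurd finite_empty (U_infinite g h)⟩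
  | @insert b B _ _ ih =>
    have h1 := ih fun c hc => hB' c (Or.inr hc)
    have h2 := hB' b (Or.inl rfl)
    rw [sUnion_insert]
    refine ⟨BB_union g h2 h1.1, fun h => ?_⟩
    rcases (U_union g h2 h1.1).1 h with h3 | h3
    · exact ⟨b, Or.inl rfl, h3⟩
    · obtain ⟨c, hc, hc'⟩ := h1.2 h3
      exact ⟨c, Or.inr hc, hc'⟩

/-- The topology. -/
theorem exists_T : ∃ T ∈ g.M, ∀ A, A ∈ T ↔ A ∈ g.M ∧ A ⊆ KK g ∧
    ∀ x ∈ A, ∃ b ∈ BB g, x ∈ cc g b ∧ cc g b ⊆ A := by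
  have hM := g.isModel
  obtain ⟨Q, hQ, hQ'⟩ := hM.power _ (KK_mem g)
  refine ⟨ZFSet.sep (fun A => ∀ x ∈ A, ∃ b ∈ BB g, x ∈ cc g b ∧ cc g b ⊆ A) Q, ?_, ?_⟩
  · refine sep_mem hM hQ (.all (.imp (.mem 0 1) (.ex (.and (.mem 0 3) (.and (.mem 1 0)
      (.all (.imp (.mem 0 1) (.mem 0 3)))))))) (fun _ => g.val CN) (fun _ => C_mem g) _ ?_
    intro A hA
    have hAM := hM.trans _ hQ A hA
    simp only [Sat_ex, Sat_and, Sat_mem, Sat_all, Sat_imp, cons_zero, cons_succ]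
    constructor
    · intro h x hxM hx
      obtain ⟨b, hb, hb', hb''⟩ := h x hx
      exact ⟨cc g b, cc_mem g hb, (mem_CC g).2 ⟨b, hb, rfl⟩, hb', fun y _ hy => hb'' hy⟩
    · intro h x hx
      obtain ⟨C, hC, hC', hxC, h2⟩ := h x (hM.trans _ hAM x hx) hx
      obtain ⟨b, hb, rfl⟩ := (mem_CC g).1 hC'
      exact ⟨b, hb, hxC, fun y hy => h2 y (hM.trans _ hC y hy) hy⟩
  · intro A
    rw [ZFSet.mem_sep, hQ', and_assoc]

variable {g}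

theorem cc_mem_T {T : ZFSet.{0}} (hT : ∀ A, A ∈ T ↔ A ∈ g.M ∧ A ⊆ KK g ∧
    ∀ x ∈ A, ∃ b ∈ BB g, x ∈ cc g b ∧ cc g b ⊆ A) {b : Set ℕ} (hb : b ∈ BB g) : cc g b ∈ T :=
  (hT _).2 ⟨cc_mem g hb, cc_sub g b, fun _ hx => ⟨b, hb, hx, fun _ h => h⟩⟩

theorem top_T {T : ZFSet.{0}} (hT : ∀ A, A ∈ T ↔ A ∈ g.M ∧ A ⊆ KK g ∧
    ∀ x ∈ A, ∃ b ∈ BB g, x ∈ cc g b ∧ cc g b ⊆ A) : IsTopologyIn g.M (KK g) T where
  sub U hU := ((hT U).1 hU).2.1
  empty := (hT _).2 ⟨nat_mem g.isModel 0, ZFSet.empty_subset _, fun x hx => by simp at hx⟩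
  univ := by
    refine (hT _).2 ⟨KK_mem g, fun _ h => h, fun x hx => ⟨univ, BB_univ g, ?_, cc_sub g _⟩⟩
    rw [mem_cc]
    rcases (mem_KK g).1 hx with ⟨i, hi⟩ | ⟨n, hn⟩
    · exact Or.inl ⟨i, mem_univ i, hi⟩
    · exact Or.inr ⟨n, U_univ g n, hn⟩
  inter U hU V hV := by
    obtain ⟨u1, u2, u3⟩ := (hT U).1 hU
    obtain ⟨v1, v2, v3⟩ := (hT V).1 hV
    refine (hT _).2 ⟨inter_mem g.isModel u1 v1, fun x hx => u2 (ZFSet.mem_inter.1 hx).1, ?_⟩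
    intro x hx
    rw [ZFSet.mem_inter] at hx
    obtain ⟨b, hb, hb1, hb2⟩ := u3 x hx.1
    obtain ⟨c, hc, hc1, hc2⟩ := v3 x hx.2
    refine ⟨b ∩ c, BB_inter g hb hc, ?_, ?_⟩
    · rw [mem_cc] at hb1 hc1 ⊢
      rcases hb1 with ⟨i, hi, h1⟩ | ⟨n, hn, h1⟩
      · rcases hc1 with ⟨j, hj, h2⟩ | ⟨m, hm, h2⟩
        · have : i = j := dd_inj g (h1.symm.trans h2)
          subst this
          exact Or.inl ⟨i, ⟨hi, hj⟩, h1⟩
        · exact absurd (h1.symm.trans h2) (dd_ne_nat g i m)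
      · rcases hc1 with ⟨j, hj, h2⟩ | ⟨m, hm, h2⟩
        · exact absurd (h2.symm.trans h1) (dd_ne_nat g j n)
        · have : n = m := nat_inj (h1.symm.trans h2)
          subst this
          exact Or.inr ⟨n, U_inter g hn hm, h1⟩
    · intro y hy
      rw [ZFSet.mem_inter]
      rw [mem_cc] at hy
      rcases hy with ⟨i, hi, rfl⟩ | ⟨n, hn, rfl⟩
      · exact ⟨hb2 ((dd_mem_cc g).2 hi.1), hc2 ((dd_mem_cc g).2 hi.2)⟩
      · exact ⟨hb2 ((nat_mem_cc g).2 (U_mono g hn inter_subset_left)),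
          hc2 ((nat_mem_cc g).2 (U_mono g hn inter_subset_right))⟩
  sUnion 𝒰 h𝒰 hsub := by
    refine (hT _).2 ⟨g.isModel.union _ h𝒰, ?_, ?_⟩
    · intro x hx
      obtain ⟨U, hU, hxU⟩ := ZFSet.mem_sUnion.1 hx
      exact ((hT U).1 (hsub hU)).2.1 hxU
    · intro x hx
      obtain ⟨U, hU, hxU⟩ := ZFSet.mem_sUnion.1 hx
      obtain ⟨b, hb, hb1, hb2⟩ := ((hT U).1 (hsub hU)).2.2 x hxU
      exact ⟨b, hb, hb1, fun y hy => ZFSet.mem_sUnion.2 ⟨U, hU, hb2 hy⟩⟩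

theorem haus_T {T : ZFSet.{0}} (hT : ∀ A, A ∈ T ↔ A ∈ g.M ∧ A ⊆ KK g ∧
    ∀ x ∈ A, ∃ b ∈ BB g, x ∈ cc g b ∧ cc g b ⊆ A) : IsHausdorff (KK g) T := by
  have hdisj : ∀ b, cc g b ∩ cc g bᶜ = ∅ := by
    intro b
    rw [ZFSet.eq_empty]
    intro x hx
    rw [ZFSet.mem_inter] at hx
    obtain ⟨h1, h2⟩ := hx
    rcases (mem_cc g).1 h1 with ⟨i, hi, rfl⟩ | ⟨n, hn, rfl⟩
    · exact (dd_mem_cc g).1 h2 hi
    · exact U_not_both g hn ((nat_mem_cc g).1 h2)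
  have hdisj' : ∀ b, cc g bᶜ ∩ cc g b = ∅ := by
    intro b
    have := hdisj bᶜ
    rwa [compl_compl] at this
  intro x hx y hy hxy
  rcases (mem_KK g).1 hx with ⟨i, rfl⟩ | ⟨n, rfl⟩
  · refine ⟨cc g {i}, cc_mem_T hT (sing_mem g i), cc g {i}ᶜ,
      cc_mem_T hT (BB_compl g (sing_mem g i)), (dd_mem_cc g).2 rfl, ?_, hdisj _⟩
    rcases (mem_KK g).1 hy with ⟨j, rfl⟩ | ⟨m, rfl⟩
    · rw [dd_mem_cc]
      intro h
      exact hxy (by rw [mem_singleton_iff.1 h])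
    · rw [nat_mem_cc, U_compl g (sing_mem g i)]
      exact fun h => U_infinite g h (finite_singleton i)
  · rcases (mem_KK g).1 hy with ⟨j, rfl⟩ | ⟨m, rfl⟩
    · refine ⟨cc g {j}ᶜ, cc_mem_T hT (BB_compl g (sing_mem g j)), cc g {j},
        cc_mem_T hT (sing_mem g j), ?_, (dd_mem_cc g).2 rfl, hdisj' _⟩
      rw [nat_mem_cc, U_compl g (sing_mem g j)]
      exact fun h => U_infinite g h (finite_singleton j)
    · have hnm : n ≠ m := fun h => hxy (by rw [h])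
      obtain ⟨b, hb, h1, h2⟩ := U_sep g hnm
      refine ⟨cc g b, cc_mem_T hT hb, cc g bᶜ, cc_mem_T hT (BB_compl g hb),
        (nat_mem_cc g).2 h1, ?_, hdisj _⟩
      rw [nat_mem_cc, U_compl g hb]
      exact h2

theorem compact_T {T : ZFSet.{0}} (hT : ∀ A, A ∈ T ↔ A ∈ g.M ∧ A ⊆ KK g ∧
    ∀ x ∈ A, ∃ b ∈ BB g, x ∈ cc g b ∧ cc g b ⊆ A) : IsCompactIn g.M (KK g) T := by
  classical
  have hM := g.isModel
  intro 𝒰 h𝒰 hsub hcov
  let 𝒰' : ZFSet := ZFSet.sep (fun C => ∃ O ∈ 𝒰, C ⊆ O) (g.val CN)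
  have h1 : 𝒰' ∈ g.M := by
    refine sep_mem hM (C_mem g) (.ex (.and (.mem 0 2) (.all (.imp (.mem 0 2) (.mem 0 1)))))
      (fun _ => 𝒰) (fun _ => h𝒰) _ ?_
    intro C hC
    have hCM := hM.trans _ (C_mem g) C hC
    simp only [Sat_ex, Sat_and, Sat_mem, Sat_all, Sat_imp, cons_zero, cons_succ]
    constructor
    · rintro ⟨O, hO, hO'⟩
      exact ⟨O, hM.trans _ h𝒰 O hO, hO, fun y _ hy => hO' hy⟩
    · rintro ⟨O, hO, hO', h⟩
      exact ⟨O, hO', fun y hy => h y (hM.trans _ hCM y hy) hy⟩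
  have h2 : ∀ x ∈ KK g, ∃ C ∈ 𝒰', x ∈ C := by
    intro x hx
    rw [← hcov] at hx
    obtain ⟨O, hO, hxO⟩ := ZFSet.mem_sUnion.1 hx
    obtain ⟨b, hb, hb1, hb2⟩ := ((hT O).1 (hsub hO)).2.2 x hxO
    exact ⟨cc g b, ZFSet.mem_sep.2 ⟨(mem_CC g).2 ⟨b, hb, rfl⟩, O, hO, hb2⟩, hb1⟩
  obtain ⟨B, hB, hB', hB''⟩ := F7 g h1 ZFSet.sep_subset
    (fun i => h2 _ ((mem_KK g).2 (Or.inl ⟨i, rfl⟩)))
    (fun n => h2 _ ((mem_KK g).2 (Or.inr ⟨n, rfl⟩)))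
  have h3 : ∀ b, ∃ O, b ∈ B → O ∈ 𝒰 ∧ cc g b ⊆ O := by
    intro b
    by_cases hb : b ∈ B
    · obtain ⟨O, hO, hO'⟩ := (ZFSet.mem_sep.1 (hB' b hb).2).2
      exact ⟨O, fun _ => ⟨hO, hO'⟩⟩
    · exact ⟨∅, fun h => absurd h hb⟩
  choose O hO using h3
  have h4 : O '' B ⊆ g.M := by
    rintro _ ⟨b, hb, rfl⟩
    exact hM.trans _ h𝒰 _ (hO b hb).1
  obtain ⟨𝒱, hV, hV', -⟩ := finite_mem hM (hB.image O) h4
  have h5 : 𝒱 ⊆ 𝒰 := by
    intro V hVV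
    obtain ⟨b, hb, rfl⟩ := (hV' V).1 hVV
    exact (hO b hb).1
  refine ⟨𝒱, hV, h5, finiteIn_of_finite hM hV ?_, ?_⟩
  · have : {x | x ∈ 𝒱} = O '' B := by
      ext x
      exact hV' x
    rw [this]
    exact hB.image O
  · ext x
    constructor
    · intro hx
      rw [← hcov]
      obtain ⟨V, hVV, hxV⟩ := ZFSet.mem_sUnion.1 hx
      exact ZFSet.mem_sUnion.2 ⟨V, h5 hVV, hxV⟩
    · intro hx
      have h6 : ∃ b ∈ B, x ∈ cc g b := by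
        rcases (mem_KK g).1 hx with ⟨i, rfl⟩ | ⟨n, rfl⟩
        · obtain ⟨b, hb, hib⟩ := hB'' (mem_univ i)
          exact ⟨b, hb, (dd_mem_cc g).2 hib⟩
        · obtain ⟨b, hb, hib⟩ := (U_finite_sUnion g hB (fun b hb => (hB' b hb).1) (n := n)).2
            (U_mono g (U_univ g n) hB'')
          exact ⟨b, hb, (nat_mem_cc g).2 hib⟩
      obtain ⟨b, hb, hxb⟩ := h6
      exact ZFSet.mem_sUnion.2 ⟨O b, (hV' _).2 (mem_image_of_mem O hb), (hO b hb).2 hxb⟩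

variable (g)

theorem D_infinite : ¬ FiniteIn g.M (g.val DN) := by
  intro h
  have h1 := finite_of_finiteIn h
  have h2 : Set.range (dd g) ⊆ {x | x ∈ g.val DN} := by
    rintro _ ⟨i, rfl⟩
    exact (mem_DD g).2 ⟨i, rfl⟩
  exact Set.infinite_range_of_injective (fun i j h => dd_inj g h) (h1.subset h2)

theorem has_denumerable {S : ZFSet.{0}} (hS : IsDiscreteIn g.M (g.val DN) S) :
    HasDenumerableRemainderIn g.M (g.val DN) S := by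
  have hM := g.isModel
  obtain ⟨T, hT, hT'⟩ := exists_T g
  obtain ⟨h, hh, hh'⟩ := exists_id hM (D_mem g)
  obtain ⟨f, hf, hf'⟩ := exists_id hM hM.inf
  have hpair : ∀ x y, ZFSet.pair x y ∈ h ↔ x ∈ g.val DN ∧ x = y := by
    intro x y
    rw [hh']
    constructor
    · rintro ⟨z, hz, hz'⟩
      obtain ⟨rfl, rfl⟩ := ZFSet.pair_inj.1 hz'
      exact ⟨hz, rfl⟩
    · rintro ⟨hx, rfl⟩
      exact ⟨x, hx, rfl⟩
  have hpairf : ∀ x y, ZFSet.pair x y ∈ f ↔ x ∈ ZFSet.omega ∧ x = y := by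
    intro x y
    rw [hf']
    constructor
    · rintro ⟨z, hz, hz'⟩
      obtain ⟨rfl, rfl⟩ := ZFSet.pair_inj.1 hz'
      exact ⟨hz, rfl⟩
    · rintro ⟨hx, rfl⟩
      exact ⟨x, hx, rfl⟩
  have hDK : ∀ x ∈ g.val DN, x ∈ KK g := fun x hx => ZFSet.mem_union.2 (Or.inl hx)
  have hrem : ∀ y, y ∈ remainder (g.val DN) (KK g) h ↔ y ∈ ZFSet.omega := by
    intro y
    unfold remainder
    rw [ZFSet.mem_sep]
    constructor
    · rintro ⟨h1, h2⟩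
      rcases ZFSet.mem_union.1 h1 with h3 | h3
      · exact absurd ((hpair y y).2 ⟨h3, rfl⟩) (h2 y h3)
      · exact h3
    · intro hy
      refine ⟨ZFSet.mem_union.2 (Or.inr hy), fun x hx hc => ?_⟩
      obtain ⟨-, rfl⟩ := (hpair x y).1 hc
      obtain ⟨i, rfl⟩ := (mem_DD g).1 hx
      obtain ⟨n, hn⟩ := mem_omega.1 hy
      exact dd_ne_nat g i n hn
  refine ⟨KK g, T, h, ?_, f, hf, ?_⟩
  · refine ⟨KK_mem g, hT, hh, top_T hT', compact_T hT', haus_T hT', ⟨?_, ?_⟩, ?_, ?_, ?_⟩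
    · intro z hz
      obtain ⟨y, hy, rfl⟩ := (hh' z).1 hz
      exact ZFSet.pair_mem_prod.2 ⟨hy, hDK y hy⟩
    · intro x hx
      refine ⟨x, (hpair x x).2 ⟨hx, rfl⟩, fun y hy => ?_⟩
      exact ((hpair x y).1 hy).2.symm
    · intro x x' y h1 h2
      rw [((hpair x y).1 h1).2, ((hpair x' y).1 h2).2]
    · intro A hA hAD
      refine ⟨fun _ => ⟨A, ?_, ?_⟩, fun _ => (hS A).2 ⟨hA, hAD⟩⟩
      · refine (hT' A).2 ⟨hA, fun x hx => hDK x (hAD hx), fun x hx => ?_⟩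
        obtain ⟨i, rfl⟩ := (mem_DD g).1 (hAD hx)
        refine ⟨{i}, sing_mem g i, (dd_mem_cc g).2 rfl, fun y hy => ?_⟩
        rcases (mem_cc g).1 hy with ⟨j, hj, rfl⟩ | ⟨n, hn, -⟩
        · rw [mem_singleton_iff.1 hj]
          exact hx
        · exact absurd (finite_singleton i) (U_infinite g hn)
      · intro x hx
        constructor
        · exact fun hxA => ⟨x, hxA, (hpair x x).2 ⟨hx, rfl⟩⟩
        · rintro ⟨y, hy, hy'⟩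
          rw [((hpair x y).1 hy').2]
          exact hy
    · intro O hO hne
      obtain ⟨x, hx⟩ := (ZFSet.eq_empty_or_nonempty O).resolve_left hne
      obtain ⟨b, hb, hb1, hb2⟩ := ((hT' O).1 hO).2.2 x hx
      have h1 : b.Nonempty := by
        rcases (mem_cc g).1 hb1 with ⟨i, hi, -⟩ | ⟨n, hn, -⟩
        · exact ⟨i, hi⟩
        · exact (U_infinite g hn).nonempty
      obtain ⟨i, hi⟩ := h1
      have h2 : dd g i ∈ g.val DN := (mem_DD g).2 ⟨i, rfl⟩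
      exact ⟨dd g i, h2, dd g i, hb2 ((dd_mem_cc g).2 hi), (hpair _ _).2 ⟨h2, rfl⟩⟩
  · refine ⟨⟨?_, ?_⟩, ?_⟩
    · intro z hz
      obtain ⟨y, hy, rfl⟩ := (hf' z).1 hz
      exact ZFSet.pair_mem_prod.2 ⟨hy, (hrem y).2 hy⟩
    · intro x hx
      refine ⟨x, (hpairf x x).2 ⟨hx, rfl⟩, fun y hy => ?_⟩
      exact ((hpairf x y).1 hy).2.symm
    · intro y hy
      have hy' := (hrem y).1 hy
      refine ⟨y, (hpairf y y).2 ⟨hy', rfl⟩, fun x hx => ?_⟩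
      exact ((hpairf x y).1 hx).2

end Pool.Agent.Helper87.Rem
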