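import Pool.Agent.Helper87.SymModel

/-!
# The poset, the group and the names for the model with a denumerable remainder
-/

set_option autoImplicit false

namespace Pool.Agent.Helper87.Rem

open Pool.Agent.Helper87.Sym Set

/-- The conditions. -/
@[ext]
structure Cnd where
  /-- promises on the ultrafilters -/
  x : ℕ → Set ℕ
  /-- finite information on the Cohen reals -/
  a : (ℕ × ℕ) × ℕ → Option Bool
  inf : ∀ n, (x n).Infinite
  finx : {n | x n ≠ univ}.Finite
  fina : {t | a t ≠ none}.Finite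

instance : PartialOrder Cnd where
  le p q := (∀ n, p.x n ⊆ q.x n) ∧ ∀ t b, q.a t = some b → p.a t = some b
  le_refl p := ⟨fun n => Subset.rfl, fun _ _ h => h⟩
  le_trans p q r h1 h2 := ⟨fun n => (h1.1 n).trans (h2.1 n), fun t b h => h1.2 t b (h2.2 t b h)⟩
  le_antisymm p q h1 h2 := by
    ext1
    · funext n
      exact (h1.1 n).antisymm (h2.1 n)
    · funext t
      cases h : p.a t with
      | some b => exact (h2.2 t b h).symm ▸ rfl
      | none =>
        cases h' : q.a t with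
        | none => rfl
        | some b =>
          have := h1.2 t b h'
          rw [h] at this
          cases this

instance : OrderTop Cnd where
  top := ⟨fun _ => univ, fun _ => none, fun _ => infinite_univ, by simp, by simp⟩
  le_top p := ⟨fun n => subset_univ _, fun t b h => by cases h⟩

theorem le_def {p q : Cnd} :
    p ≤ q ↔ (∀ n, p.x n ⊆ q.x n) ∧ ∀ t b, q.a t = some b → p.a t = some b := Iff.rfl

/-- The group. -/
def Gp : Subgroup (Equiv.Perm ℕ × Equiv.Perm (ℕ × ℕ)) where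
  carrier := {g | ∀ e, (g.2 e).1 = g.1 e.1}
  one_mem' := fun e => rfl
  mul_mem' := by
    intro g h hg hh e
    change (g.2 (h.2 e)).1 = g.1 (h.1 e.1)
    rw [hg, hh]
  inv_mem' := by
    intro g hg e
    change (g.2.symm e).1 = g.1.symm e.1
    rw [Equiv.eq_symm_apply, ← hg, Equiv.apply_symm_apply]

/-- The permutation of the points. -/
abbrev pi (g : Gp) : Equiv.Perm ℕ := g.1.1
/-- The permutation of the Cohen reals. -/
abbrev rho (g : Gp) : Equiv.Perm (ℕ × ℕ) := g.1.2

theorem rho_fst (g : Gp) (e : ℕ × ℕ) : (rho g e).1 = pi g e.1 := g.2 e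

theorem rho_symm_fst (g : Gp) (e : ℕ × ℕ) : ((rho g).symm e).1 = (pi g).symm e.1 := by
  rw [Equiv.eq_symm_apply, ← rho_fst, Equiv.apply_symm_apply]

instance : MulAction Gp Cnd where
  smul g p :=
    { x := fun n => pi g '' p.x n
      a := fun t => p.a ((rho g).symm t.1, t.2)
      inf := fun n => (p.inf n).image (pi g).injective.injOn
      finx := by
        apply p.finx.subset
        intro n hn h
        apply hn
        rw [h]
        simp
      fina := by
        have h1 := p.fina.preimage (f := fun t : (ℕ × ℕ) × ℕ => ((rho g).symm t.1, t.2)) (by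
          rintro ⟨e, k⟩ - ⟨e', k'⟩ - h
          simp only [Prod.mk.injEq, EmbeddingLike.apply_eq_iff_eq] at h ⊢
          exact h)
        exact h1 }
  one_smul p := by
    ext1
    · funext n
      change (fun i => i) '' p.x n = p.x n
      simp
    · funext t
      rfl
  mul_smul g h p := by
    ext1
    · funext n
      change (pi (g * h)) '' p.x n = pi g '' (pi h '' p.x n)
      rw [image_image]
      rfl
    · funext t
      rfl

theorem smul_x (g : Gp) (p : Cnd) (n : ℕ) : (g • p).x n = pi g '' p.x n := rfl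
theorem smul_a (g : Gp) (p : Cnd) (t : (ℕ × ℕ) × ℕ) :
    (g • p).a t = p.a ((rho g).symm t.1, t.2) := rfl

instance : ActMono Cnd Gp where
  smul_le g p q h := by
    refine ⟨fun n => ?_, fun t b ht => ?_⟩
    · rw [smul_x, smul_x]
      exact image_mono (h.1 n)
    · rw [smul_a] at ht ⊢
      exact h.2 _ _ ht

/-- The symmetric system. -/
def 𝔖 : SymSys Cnd Gp where
  S := List (Set ℕ) × List (ℕ × ℕ)
  fix s := {g | (∀ b ∈ s.1, pi g '' b = b) ∧ ∀ e ∈ s.2, rho g e = e}
  nonempty := ⟨([], [])⟩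
  dir s t := ⟨(s.1 ++ t.1, s.2 ++ t.2), fun g hg =>
    ⟨⟨fun b hb => hg.1 b (List.mem_append_left _ hb), fun e he => hg.2 e (List.mem_append_left _ he)⟩,
     ⟨fun b hb => hg.1 b (List.mem_append_right _ hb), fun e he => hg.2 e (List.mem_append_right _ he)⟩⟩⟩
  conj g s := ⟨(s.1.map fun b => pi g '' b, s.2.map fun e => rho g e), by
    intro h hh
    constructor
    · intro b hb
      have h1 := hh.1 _ (List.mem_map_of_mem hb)
      change (fun i => (pi g).symm (pi h (pi g i))) '' b = b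
      have h2 : (fun i => (pi g).symm (pi h (pi g i))) '' b =
          (pi g).symm '' (pi h '' (pi g '' b)) := by
        rw [image_image, image_image]
      rw [h2, h1]
      simp
    · intro e he
      have h1 := hh.2 _ (List.mem_map_of_mem he)
      change (rho g).symm (rho h (rho g e)) = e
      rw [h1]
      simp⟩

/-- The check name of `n`. -/
def nN (n : ℕ) : Nm Cnd := chk (PSet.ofNat n)

/-- The names of the Cohen reals. -/
def aN (e : ℕ × ℕ) : Nm Cnd :=
  .mk {pk : Cnd × ℕ // pk.1.a (e, pk.2) = some true} (fun pk => nN pk.1.2) (fun pk => pk.1.1)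

/-- The names of the points. -/
def dN (i : ℕ) : Nm Cnd := .mk ℕ (fun j => aN (i, j)) (fun _ => ⊤)

/-- The names of the basic sets. -/
def cN (b : Set ℕ) : Nm Cnd :=
  .mk ({i : ℕ // i ∈ b} ⊕ {pn : Cnd × ℕ // pn.1.x pn.2 ⊆ b})
    (Sum.elim (fun i => dN i.1) (fun pn => nN pn.1.2)) (Sum.elim (fun _ => ⊤) (fun pn => pn.1.1))

/-- The name of the set of all basic sets. -/
def CN : Nm Cnd := .mk (Set ℕ) cN (fun _ => ⊤)

/-- The name of the set of points. -/
def DN : Nm Cnd := .mk ℕ dN (fun _ => ⊤)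

theorem Feq_nN (g : Gp) (n : ℕ) : Feq (act g (nN n)) (nN n) := Gen.Feq_act_chk g _

theorem Feq_aN (g : Gp) (e : ℕ × ℕ) : Feq (act g (aN e)) (aN (rho g e)) := by
  refine Feq.of_children ?_ ?_
  · rintro ⟨⟨p, k⟩, h⟩
    refine ⟨⟨⟨g • p, k⟩, ?_⟩, le_rfl, Feq_nN g k⟩
    rw [smul_a]
    simpa using h
  · rintro ⟨⟨p, k⟩, h⟩
    refine ⟨⟨⟨g⁻¹ • p, k⟩, ?_⟩, ?_, Feq_nN g k⟩
    · rw [smul_a]
      exact h
    · change p ≤ g • g⁻¹ • p
      rw [smul_inv_smul]

theorem Feq_dN (g : Gp) (i : ℕ) : Feq (act g (dN i)) (dN (pi g i)) := by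
  refine Feq.of_children ?_ ?_
  · intro j
    refine ⟨(rho g (i, j)).2, le_top, ?_⟩
    have h1 := Feq_aN g (i, j)
    have h2 : rho g (i, j) = (pi g i, (rho g (i, j)).2) := by
      ext
      · exact rho_fst g _
      · rfl
    rw [h2] at h1
    exact h1
  · intro (j : ℕ)
    refine ⟨((rho g).symm (pi g i, j)).2, le_smul_top g _, ?_⟩
    have h1 := Feq_aN g (i, ((rho g).symm (pi g i, j)).2)
    have h2 : (rho g).symm (pi g i, j) = (i, ((rho g).symm (pi g i, j)).2) := by
      ext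
      · rw [rho_symm_fst]; simp
      · rfl
    have h3 : rho g (i, ((rho g).symm (pi g i, j)).2) = (pi g i, j) := by
      rw [← h2, Equiv.apply_symm_apply]
    rw [h3] at h1
    exact h1

theorem Feq_cN (g : Gp) (b : Set ℕ) : Feq (act g (cN b)) (cN (pi g '' b)) := by
  refine Feq.of_children ?_ ?_
  · rintro (⟨i, hi⟩ | ⟨⟨p, n⟩, h⟩)
    · exact ⟨Sum.inl ⟨pi g i, mem_image_of_mem _ hi⟩, le_top, Feq_dN g i⟩
    · refine ⟨Sum.inr ⟨⟨g • p, n⟩, ?_⟩, le_rfl, Feq_nN g n⟩
      rw [smul_x]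
      exact image_mono h
  · rintro (⟨i, i', hi, rfl⟩ | ⟨⟨p, n⟩, h⟩)
    · exact ⟨Sum.inl ⟨i', hi⟩, le_smul_top g _, Feq_dN g i'⟩
    · refine ⟨Sum.inr ⟨⟨g⁻¹ • p, n⟩, ?_⟩, ?_, Feq_nN g n⟩
      · rw [smul_x]
        have h1 : pi g⁻¹ '' p.x n ⊆ pi g⁻¹ '' (pi g '' b) := image_mono h
        have h2 : pi g⁻¹ '' (pi g '' b) = b := by
          change (pi g).symm '' (pi g '' b) = b
          simp
        rw [h2] at h1
        exact h1
      · change p ≤ g • g⁻¹ • p
        rw [smul_inv_smul]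

theorem Feq_CN (g : Gp) : Feq (act g CN) CN := by
  refine Feq.of_children ?_ ?_
  · intro b
    exact ⟨pi g '' b, le_top, Feq_cN g b⟩
  · intro (b : Set ℕ)
    refine ⟨(pi g).symm '' b, le_smul_top g _, ?_⟩
    have h1 := Feq_cN g ((pi g).symm '' b)
    have h2 : pi g '' ((pi g).symm '' b) = b := by simp
    rw [h2] at h1
    exact h1

theorem Feq_DN (g : Gp) : Feq (act g DN) DN := by
  refine Feq.of_children ?_ ?_
  · intro i
    exact ⟨pi g i, le_top, Feq_dN g i⟩
  · intro (i : ℕ)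
    refine ⟨(pi g).symm i, le_smul_top g _, ?_⟩
    have h1 := Feq_dN g ((pi g).symm i)
    rw [Equiv.apply_symm_apply] at h1
    exact h1

theorem HS_nN (n : ℕ) : HS 𝔖 (nN n) := Gen.HS_chk _

theorem HS_aN (e : ℕ × ℕ) : HS 𝔖 (aN e) := by
  refine HS.mk' ⟨([], [e]), ?_⟩ (fun _ => HS_nN _)
  intro g hg
  have h1 := Feq_aN g e
  rw [hg.2 e (by simp)] at h1
  exact h1

theorem HS_dN (i : ℕ) : HS 𝔖 (dN i) := by
  refine HS.mk' ⟨([{i}], []), ?_⟩ (fun _ => HS_aN _)
  intro g hg
  have h1 := Feq_dN g i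
  have h2 := hg.1 {i} (by simp)
  rw [image_singleton, singleton_eq_singleton_iff] at h2
  rw [h2] at h1
  exact h1

theorem HS_cN (b : Set ℕ) : HS 𝔖 (cN b) := by
  refine HS.mk' ⟨([b], []), ?_⟩ ?_
  · intro g hg
    have h1 := Feq_cN g b
    rw [hg.1 b (by simp)] at h1
    exact h1
  · rintro (i | pn)
    · exact HS_dN _
    · exact HS_nN _

theorem HS_CN : HS 𝔖 CN :=
  HS.mk' ⟨([], []), fun g _ => Feq_CN g⟩ (fun b => HS_cN b)

theorem HS_DN : HS 𝔖 DN :=
  HS.mk' ⟨([], []), fun g _ => Feq_DN g⟩ (fun b => HS_dN b)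

end Pool.Agent.Helper87.Rem
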