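import Pool.Agent.Helper87.RemPoset

/-!
# Extending conditions, and the homogeneity lemma
-/

set_option autoImplicit false

namespace Pool.Agent.Helper87.Rem

open Pool.Agent.Helper87.Sym Set

/-! ### natural numbers -/

theorem nat_succ (n : ℕ) : Gen.nat (n + 1) = insert (Gen.nat n) (Gen.nat n) := rfl

theorem mem_nat {n : ℕ} {x : ZFSet.{0}} : x ∈ Gen.nat n ↔ ∃ m, m < n ∧ x = Gen.nat m := by
  induction n with
  | zero =>
    constructor
    · intro h
      exact absurd h (ZFSet.notMem_empty x)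
    · rintro ⟨m, hm, -⟩
      omega
  | succ n ih =>
    rw [nat_succ, ZFSet.mem_insert_iff, ih]
    constructor
    · rintro (h | ⟨m, hm, rfl⟩)
      · exact ⟨n, by omega, h⟩
      · exact ⟨m, by omega, rfl⟩
    · rintro ⟨m, hm, rfl⟩
      rcases Nat.lt_succ_iff_lt_or_eq.1 hm with h | h
      · exact Or.inr ⟨m, h, rfl⟩
      · exact Or.inl (by rw [h])

theorem nat_inj {m n : ℕ} (h : Gen.nat m = Gen.nat n) : m = n := by
  rcases lt_trichotomy m n with h1 | h1 | h1
  · have h2 : Gen.nat m ∈ Gen.nat n := mem_nat.2 ⟨m, h1, rfl⟩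
    rw [h] at h2
    exact absurd h2 (ZFSet.mem_irrefl _)
  · exact h1
  · have h2 : Gen.nat n ∈ Gen.nat m := mem_nat.2 ⟨n, h1, rfl⟩
    rw [h] at h2
    exact absurd h2 (ZFSet.mem_irrefl _)

theorem mem_omega {x : ZFSet.{0}} : x ∈ ZFSet.omega ↔ ∃ n, x = Gen.nat n := by
  constructor
  · intro h
    obtain ⟨y, rfl⟩ := Quotient.exists_rep x
    obtain ⟨⟨n⟩, hn⟩ : y ∈ PSet.omega := h
    exact ⟨n, ZFSet.sound hn⟩
  · rintro ⟨n, rfl⟩
    exact ZFSet.mk_mem_iff.2 ⟨⟨n⟩, PSet.Equiv.rfl⟩

theorem feq_chk {x y : PSet.{0}} {p : Cnd} (h : feq (chk x) (chk y) p) : PSet.Equiv x y := by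
  induction x generalizing y p with
  | mk α A ih =>
    cases y with
    | mk β B =>
      rw [feq_iff] at h
      constructor
      · intro a
        obtain ⟨s, -, b, -, hb⟩ := h.1 a p le_rfl le_top
        exact ⟨b, ih a hb⟩
      · intro b
        obtain ⟨s, -, a, -, ha⟩ := h.2 b p le_rfl le_top
        exact ⟨a, ih a ha⟩

theorem feq_nN {m n : ℕ} {p : Cnd} (h : feq (nN m) (nN n) p) : m = n :=
  nat_inj (ZFSet.sound (feq_chk h))

/-! ### Extensions of conditions -/

open Classical in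
/-- Restrict the promise at `n` to `s`. -/
noncomputable def restr (p : Cnd) (n : ℕ) (s : Set ℕ) (h : (p.x n ∩ s).Infinite) : Cnd where
  x := Function.update p.x n (p.x n ∩ s)
  a := p.a
  inf m := by
    by_cases hm : m = n
    · subst hm
      rw [Function.update_self]
      exact h
    · rw [Function.update_of_ne hm]
      exact p.inf m
  finx := by
    apply (p.finx.union (finite_singleton n)).subset
    intro m hm
    by_cases hmn : m = n
    · exact Or.inr hmn
    · left
      intro h1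
      apply hm
      rw [Function.update_of_ne hmn]
      exact h1
  fina := p.fina

theorem restr_le {p : Cnd} {n : ℕ} {s : Set ℕ} (h : (p.x n ∩ s).Infinite) :
    restr p n s h ≤ p := by
  classical
  refine ⟨fun m => ?_, fun t b ht => ht⟩
  by_cases hm : m = n
  · subst hm
    simp only [restr, Function.update_self]
    exact inter_subset_left
  · simp only [restr, Function.update_of_ne hm]
    exact Subset.rfl

theorem restr_x {p : Cnd} {n : ℕ} {s : Set ℕ} (h : (p.x n ∩ s).Infinite) :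
    (restr p n s h).x n = p.x n ∩ s := by
  classical
  simp only [restr, Function.update_self]

theorem restr_x_ne {p : Cnd} {n m : ℕ} {s : Set ℕ} (h : (p.x n ∩ s).Infinite) (hm : m ≠ n) :
    (restr p n s h).x m = p.x m := by
  classical
  simp only [restr, Function.update_of_ne hm]

theorem exists_free_x (p : Cnd) : ∃ n, p.x n = univ := by
  obtain ⟨n, hn⟩ := p.finx.exists_notMem
  exact ⟨n, by simpa using hn⟩

open Classical in
/-- Add a bit. -/
noncomputable def addA (p : Cnd) (t : (ℕ × ℕ) × ℕ) (b : Bool) : Cnd where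
  x := p.x
  a := Function.update p.a t (some b)
  inf := p.inf
  finx := p.finx
  fina := by
    apply (p.fina.union (finite_singleton t)).subset
    intro m hm
    by_cases hmn : m = t
    · exact Or.inr hmn
    · left
      intro h1
      apply hm
      rw [Function.update_of_ne hmn]
      exact h1

theorem addA_le {p : Cnd} {t : (ℕ × ℕ) × ℕ} {b : Bool} (h : p.a t = none) : addA p t b ≤ p := by
  classical
  refine ⟨fun m => Subset.rfl, fun t' b' ht => ?_⟩
  have : t' ≠ t := by
    rintro rfl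
    rw [h] at ht
    cases ht
  simp only [addA, Function.update_of_ne this]
  exact ht

theorem addA_a {p : Cnd} {t : (ℕ × ℕ) × ℕ} {b : Bool} : (addA p t b).a t = some b := by
  classical
  simp only [addA, Function.update_self]

theorem addA_a_ne {p : Cnd} {t t' : (ℕ × ℕ) × ℕ} {b : Bool} (h : t' ≠ t) :
    (addA p t b).a t' = p.a t' := by
  classical
  simp only [addA, Function.update_of_ne h]

theorem exists_bound (p : Cnd) : ∃ J : ℕ, ∀ i j k b, p.a ((i, j), k) = some b → j < J ∧ k < J := by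
  obtain ⟨J, hJ⟩ := (p.fina.image fun t => max t.1.2 t.2).bddAbove
  refine ⟨J + 1, fun i j k b h => ?_⟩
  have h1 : max j k ≤ J := hJ ⟨((i, j), k), by simp [h], rfl⟩
  exact ⟨by omega, by omega⟩

theorem aN_ne {e e' : ℕ × ℕ} (he : e ≠ e') {p : Cnd} : ¬ feq (aN e) (aN e') p := by
  intro h
  obtain ⟨J, hJ⟩ := exists_bound p
  have hnone : ∀ e, p.a (e, J) = none := by
    intro e
    cases h1 : p.a (e, J) with
    | none => rfl
    | some b => exact absurd (hJ e.1 e.2 J b h1).2 (lt_irrefl _)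
  have h1 : addA p (e, J) true ≤ p := addA_le (hnone e)
  have hne : ((e', J) : (ℕ × ℕ) × ℕ) ≠ (e, J) := by
    intro h
    rw [Prod.mk.injEq] at h
    exact he h.1.symm
  have h2 : addA (addA p (e, J) true) (e', J) false ≤ addA p (e, J) true :=
    addA_le (by rw [addA_a_ne hne]; exact hnone e')
  set q := addA (addA p (e, J) true) (e', J) false with hq
  have h3 : q.a (e, J) = some true := by rw [hq, addA_a_ne hne.symm, addA_a]
  have h4 : q.a (e', J) = some false := by rw [hq, addA_a]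
  have h5 : fmem (nN J) (aN e) q := fmem_child (aN e) ⟨⟨q, J⟩, h3⟩ le_rfl
  have h6 : fmem (nN J) (aN e') q := fmem_congr_right (feq_mono h (h2.trans h1)) h5
  obtain ⟨s, hs, ⟨⟨r, k⟩, hr⟩, hsr, heq⟩ := h6 q le_rfl
  have h7 : J = k := feq_nN heq
  subst h7
  have h8 : s.a (e', J) = some true := hsr.2 _ _ hr
  have h9 : s.a (e', J) = some false := hs.2 _ _ h4
  rw [h8] at h9
  cases h9

/-- Common extension. -/
def meet (p q : Cnd) (hx : ∀ n, (p.x n ∩ q.x n).Infinite) : Cnd where
  x n := p.x n ∩ q.x n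
  a t := (p.a t).orElse fun _ => q.a t
  inf := hx
  finx := by
    apply (p.finx.union q.finx).subset
    intro n hn
    by_contra hc
    simp only [mem_union, mem_ofPred_eq, not_or, not_not] at hc
    apply hn
    simp [hc.1, hc.2]
  fina := by
    apply (p.fina.union q.fina).subset
    intro t ht
    by_contra hc
    simp only [mem_union, mem_ofPred_eq, not_or, not_not] at hc
    apply ht
    simp [hc.1, hc.2]

theorem meet_le_left {p q : Cnd} (hx : ∀ n, (p.x n ∩ q.x n).Infinite) : meet p q hx ≤ p := by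
  refine ⟨fun n => inter_subset_left, fun t b ht => ?_⟩
  simp only [meet, ht, Option.orElse_some]

theorem meet_le_right {p q : Cnd} (hx : ∀ n, (p.x n ∩ q.x n).Infinite)
    (ha : ∀ t b b', p.a t = some b → q.a t = some b' → b = b') : meet p q hx ≤ q := by
  refine ⟨fun n => inter_subset_right, fun t b ht => ?_⟩
  simp only [meet]
  cases h : p.a t with
  | none => simpa using ht
  | some b' =>
    simp only [Option.orElse_some]
    rw [ha t b' b h ht]

/-! ### Combinatorics -/

theorem split_infinite {s : Set ℕ} (hs : s.Infinite) :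
    ∃ A B, A ⊆ s ∧ B ⊆ s ∧ A.Infinite ∧ B.Infinite ∧ Disjoint A B := by
  let e := hs.natEmbedding s
  refine ⟨range fun n => (e (2 * n) : ℕ), range fun n => (e (2 * n + 1) : ℕ), ?_, ?_, ?_, ?_, ?_⟩
  · rintro _ ⟨n, rfl⟩
    exact (e (2 * n)).2
  · rintro _ ⟨n, rfl⟩
    exact (e (2 * n + 1)).2
  · apply infinite_range_of_injective
    intro m n h
    have := e.injective (Subtype.ext h)
    omega
  · apply infinite_range_of_injective
    intro m n h
    have := e.injective (Subtype.ext h)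
    omega
  · rw [Set.disjoint_left]
    rintro _ ⟨m, rfl⟩ ⟨n, h⟩
    have := e.injective (Subtype.ext h)
    omega

theorem exists_thin {ι : Type} (s : Finset ι) (X : ι → Set ℕ) (hX : ∀ n ∈ s, (X n).Infinite)
    {V0 : Set ℕ} (hV0 : V0.Infinite) :
    ∃ V, V ⊆ V0 ∧ V.Infinite ∧ ∀ n ∈ s, (X n \ V).Infinite := by
  classical
  induction s using Finset.induction_on with
  | empty => exact ⟨V0, Subset.rfl, hV0, by simp⟩
  | insert n s hn ih =>
    obtain ⟨V, h1, h2, h3⟩ := ih fun m hm => hX m (Finset.mem_insert_of_mem hm)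
    by_cases h4 : (X n \ V).Infinite
    · refine ⟨V, h1, h2, fun m hm => ?_⟩
      rcases Finset.mem_insert.1 hm with rfl | hm
      · exact h4
      · exact h3 m hm
    · have h5 : (X n ∩ V).Infinite := by
        intro h6
        apply hX n (Finset.mem_insert_self _ _)
        rw [← inter_union_sdiff (X n) V]
        exact h6.union (not_infinite.1 h4)
      obtain ⟨A, B, hA, hB, hA', hB', hAB⟩ := split_infinite h5
      refine ⟨A, (hA.trans inter_subset_right).trans h1, hA', fun m hm => ?_⟩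
      rcases Finset.mem_insert.1 hm with rfl | hm
      · apply hB'.mono
        intro z hz
        exact ⟨(hB hz).1, fun hz' => Set.disjoint_left.1 hAB hz' hz⟩
      · apply (h3 m hm).mono
        intro z hz
        exact ⟨hz.1, fun hz' => hz.2 (hA hz').2⟩

/-- The involution of `ℕ` which swaps `[0, J)` and `[J, 2J)`. -/
def shf (J : ℕ) (j : ℕ) : ℕ := if j < J then j + J else if j < 2 * J then j - J else j

theorem shf_shf (J j : ℕ) : shf J (shf J j) = j := by
  unfold shf
  split_ifs <;> omega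

theorem le_of_shf_lt {J j : ℕ} (h : shf J j < J) : J ≤ j := by
  unfold shf at h
  split_ifs at h <;> omega

open Classical in
/-- The swapping function. -/
noncomputable def swp (Y : Set ℕ) (f : ℕ → ℕ) (i : ℕ) : ℕ :=
  if i ∈ Y then f i else if h : ∃ y ∈ Y, f y = i then h.choose else i

theorem swp_of_mem {Y : Set ℕ} {f : ℕ → ℕ} {i : ℕ} (h : i ∈ Y) : swp Y f i = f i := by
  classical
  exact if_pos h

theorem swp_f {Y : Set ℕ} {f : ℕ → ℕ} (hf : InjOn f Y) (hY : ∀ y ∈ Y, f y ∉ Y) {y : ℕ}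
    (h : y ∈ Y) : swp Y f (f y) = y := by
  classical
  unfold swp
  rw [if_neg (hY y h)]
  have h1 : ∃ y' ∈ Y, f y' = f y := ⟨y, h, rfl⟩
  rw [dif_pos h1]
  exact hf h1.choose_spec.1 h h1.choose_spec.2

theorem swp_other {Y : Set ℕ} {f : ℕ → ℕ} {i : ℕ} (h : i ∉ Y) (h' : i ∉ f '' Y) :
    swp Y f i = i := by
  classical
  unfold swp
  rw [if_neg h, dif_neg]
  rintro ⟨y, hy, rfl⟩
  exact h' (mem_image_of_mem f hy)

theorem swp_swp {Y : Set ℕ} {f : ℕ → ℕ} (hf : InjOn f Y) (hY : ∀ y ∈ Y, f y ∉ Y) (i : ℕ) :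
    swp Y f (swp Y f i) = i := by
  by_cases h : i ∈ Y
  · rw [swp_of_mem h, swp_f hf hY h]
  · by_cases h' : i ∈ f '' Y
    · obtain ⟨y, hy, rfl⟩ := h'
      rw [swp_f hf hY hy, swp_of_mem hy]
    · rw [swp_other h h', swp_other h h']

/-- The homogeneity lemma. -/
theorem swap_lemma {𝔽 : List (Set ℕ)} {E : List (ℕ × ℕ)} {Y : Set ℕ} {f : ℕ → ℕ}
    (hf : InjOn f Y) (hY : ∀ y ∈ Y, f y ∉ Y) (hE : ∀ e ∈ E, e.1 ∉ Y ∧ e.1 ∉ f '' Y)
    (hF : ∀ b ∈ 𝔽, ∀ y ∈ Y, (y ∈ b ↔ f y ∈ b)) {q0 q1 : Cnd} (hq : q1 ≤ q0)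
    (hx : ∀ n, q0.x n ≠ univ → (q1.x n \ (Y ∪ f '' Y)).Infinite) :
    ∃ h : Gp, h ∈ 𝔖.fix (𝔽, E) ∧ (∀ i, i ∉ Y → i ∉ f '' Y → pi h i = i) ∧
      (∀ y ∈ Y, pi h y = f y ∧ pi h (f y) = y) ∧ ∃ q2, q2 ≤ q1 ∧ q2 ≤ h • q0 := by
  classical
  obtain ⟨J, hJ⟩ := exists_bound q1
  let π : Equiv.Perm ℕ := Function.Involutive.toPerm (swp Y f) (swp_swp hf hY)
  let r : ℕ × ℕ → ℕ × ℕ := fun e =>
    if e.1 ∈ Y ∪ f '' Y then (swp Y f e.1, shf J e.2) else e
  have hmem : ∀ i, i ∈ Y ∪ f '' Y → swp Y f i ∈ Y ∪ f '' Y := by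
    rintro i (hi | ⟨y, hy, rfl⟩)
    · rw [swp_of_mem hi]
      exact Or.inr (mem_image_of_mem f hi)
    · rw [swp_f hf hY hy]
      exact Or.inl hy
  have hr : Function.Involutive r := by
    rintro ⟨i, j⟩
    by_cases h : i ∈ Y ∪ f '' Y
    · have h1 : r (i, j) = (swp Y f i, shf J j) := if_pos h
      have h2 : r (swp Y f i, shf J j) = (swp Y f (swp Y f i), shf J (shf J j)) :=
        if_pos (hmem i h)
      rw [h1, h2, swp_swp hf hY, shf_shf]
    · have h1 : r (i, j) = (i, j) := if_neg h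
      rw [h1, h1]
  let ρ : Equiv.Perm (ℕ × ℕ) := Function.Involutive.toPerm r hr
  let h : Gp := ⟨(π, ρ), by
    rintro ⟨i, j⟩
    change (r (i, j)).1 = swp Y f i
    by_cases h : i ∈ Y ∪ f '' Y
    · have h1 : r (i, j) = (swp Y f i, shf J j) := if_pos h
      rw [h1]
    · have h1 : r (i, j) = (i, j) := if_neg h
      rw [h1]
      rw [mem_union, not_or] at h
      rw [swp_other h.1 h.2]⟩
  have hpi : ∀ i, pi h i = swp Y f i := fun i => rfl
  have hpi2 : ∀ i, i ∉ Y → i ∉ f '' Y → pi h i = i := fun i h1 h2 => swp_other h1 h2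
  have hpi3 : ∀ y ∈ Y, pi h y = f y ∧ pi h (f y) = y := fun y hy =>
    ⟨swp_of_mem hy, swp_f hf hY hy⟩
  have hinv : ∀ b ∈ 𝔽, ∀ i, (swp Y f i ∈ b ↔ i ∈ b) := by
    intro b hb i
    by_cases h1 : i ∈ Y
    · rw [swp_of_mem h1]
      exact (hF b hb i h1).symm
    · by_cases h2 : i ∈ f '' Y
      · obtain ⟨y, hy, rfl⟩ := h2
        rw [swp_f hf hY hy]
        exact hF b hb y hy
      · rw [swp_other h1 h2]
  refine ⟨h, ⟨?_, ?_⟩, hpi2, hpi3, ?_⟩
  · intro b hb
    ext i
    constructor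
    · rintro ⟨i', hi', rfl⟩
      rw [hpi]
      exact (hinv b hb i').2 hi'
    · intro hi
      refine ⟨swp Y f i, (hinv b hb i).2 hi, ?_⟩
      rw [hpi, swp_swp hf hY]
  · rintro ⟨i, j⟩ he
    change r (i, j) = (i, j)
    refine if_neg ?_
    rw [mem_union, not_or]
    exact hE _ he
  · have hx' : ∀ n, (q1.x n ∩ (h • q0).x n).Infinite := by
      intro n
      rw [smul_x]
      by_cases h1 : q0.x n = univ
      · rw [h1, image_univ, (pi h).surjective.range_eq, inter_univ]
        exact q1.inf n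
      · apply (hx n h1).mono
        rintro i ⟨h2, h3⟩
        rw [mem_union, not_or] at h3
        exact ⟨h2, i, hq.1 n h2, hpi2 i h3.1 h3.2⟩
    have ha : ∀ t b b', q1.a t = some b → (h • q0).a t = some b' → b = b' := by
      rintro ⟨⟨i, j⟩, k⟩ b b' h1 h2
      rw [smul_a] at h2
      have h3 : (rho h).symm (i, j) = r (i, j) := rfl
      change q0.a ((rho h).symm (i, j), k) = some b' at h2
      rw [h3] at h2
      by_cases h4 : i ∈ Y ∪ f '' Y
      · have h5 : r (i, j) = (swp Y f i, shf J j) := if_pos h4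
        rw [h5] at h2
        have h6 := (hJ _ _ _ _ (hq.2 _ _ h2)).1
        have h7 := (hJ _ _ _ _ h1).1
        have h8 := le_of_shf_lt h6
        omega
      · have h5 : r (i, j) = (i, j) := if_neg h4
        rw [h5] at h2
        have h6 := hq.2 _ _ h2
        rw [h1] at h6
        exact Option.some.inj h6
    exact ⟨meet q1 (h • q0) hx', meet_le_left hx', meet_le_right hx' ha⟩

end Pool.Agent.Helper87.Rem
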