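import Pool.Agent.Helper87.FastSequence

set_option autoImplicit false

open Topology Filter Set
open scoped Pointwise

namespace Pool.Agent.Helper87

universe u v

section Existence

variable {H : Type u} [Group H] [TopologicalSpace H] [IsTopologicalGroup H]

theorem exists_symm_three {W : Set H} (hW : W ∈ 𝓝 (1 : H)) :
    ∃ V ∈ 𝓝 (1 : H), V ⊆ W ∧ (∀ u ∈ V, u⁻¹ ∈ V) ∧
      ∀ a ∈ V, ∀ b ∈ V, ∀ c ∈ V, a * b * c ∈ W := by
  have h1 : Tendsto (fun p : H × H × H => p.1 * p.2.1 * p.2.2) (𝓝 (1, 1, 1)) (𝓝 (1 * 1 * 1)) := by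
    apply Continuous.tendsto
    fun_prop
  rw [mul_one, mul_one] at h1
  have h2 := h1 hW
  rw [nhds_prod_eq, nhds_prod_eq] at h2
  obtain ⟨A, hA, T, hT, hAT⟩ := mem_prod_iff.mp h2
  obtain ⟨B, hB, C, hC, hBC⟩ := mem_prod_iff.mp hT
  set V := (A ∩ B ∩ C ∩ W) with hV
  have hVn : V ∈ 𝓝 (1 : H) := inter_mem (inter_mem (inter_mem hA hB) hC) hW
  refine ⟨V ∩ V⁻¹, inter_mem hVn (inv_mem_nhds_one H hVn), ?_, ?_, ?_⟩
  · exact fun x hx => hx.1.2
  · rintro u ⟨h1, h2⟩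
    exact ⟨h2, by simpa using h1⟩
  · intro a ha b hb c hc
    exact hAT (show (a, b, c) ∈ A ×ˢ T from ⟨ha.1.1.1.1, hBC ⟨hb.1.1.1.2, hc.1.1.2⟩⟩)

theorem conj_nhds {K : Set H} (hK : IsCompact K) {W : Set H} (hW : W ∈ 𝓝 (1 : H)) :
    {u | ∀ x ∈ K, x * u * x⁻¹ ∈ W} ∈ 𝓝 (1 : H) := by
  have h5 : ∀ᶠ u in 𝓝 (1 : H), ∀ x ∈ K, x * u * x⁻¹ ∈ W := by
    apply hK.eventually_forall_of_forall_eventually
    intro d hd
    have ha : Tendsto (fun p : H × H => p.2 * p.1 * p.2⁻¹) (𝓝 (1, d))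
        (𝓝 (d * 1 * d⁻¹)) := by apply Continuous.tendsto; fun_prop
    simp only [mul_one, mul_inv_cancel] at ha
    exact ha.eventually_mem hW
  exact h5

theorem exists_nbhd_sequence [LocallyCompactSpace H] [(𝓝 (1 : H)).IsCountablyGenerated]
    {K₀ : Set H} (hK₀ : K₀ ∈ 𝓝 (1 : H)) :
    ∃ U : ℕ → Set H, (∀ n, U n ∈ 𝓝 (1 : H)) ∧ U 0 ⊆ K₀ ∧ (∀ n, ∀ u ∈ U n, u⁻¹ ∈ U n) ∧
      (∀ n, ∀ a ∈ U (n+1), ∀ b ∈ U (n+1), ∀ c ∈ U (n+1), a * b * c ∈ U n) ∧
      (∀ O ∈ 𝓝 (1 : H), ∃ n, U n ⊆ O) := by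
  obtain ⟨B, hB⟩ := (𝓝 (1 : H)).exists_antitone_basis
  choose! f hf1 hf2 hf3 hf4 using fun (W : Set H) (hW : W ∈ 𝓝 (1 : H)) => exists_symm_three hW
  let U : ℕ → Set H := fun n => Nat.rec (f (K₀ ∩ B 0)) (fun n X => f (X ∩ B (n+1))) n
  have hBn : ∀ n, B n ∈ 𝓝 (1 : H) := fun n => hB.1.mem_of_mem trivial
  have hUn : ∀ n, U n ∈ 𝓝 (1 : H) := by
    intro n
    induction n with
    | zero => exact hf1 _ (inter_mem hK₀ (hBn 0))
    | succ n ih => exact hf1 _ (inter_mem ih (hBn _))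
  refine ⟨U, hUn, ?_, ?_, ?_, ?_⟩
  · exact (hf2 _ (inter_mem hK₀ (hBn 0))).trans inter_subset_left
  · intro n
    cases n with
    | zero => exact hf3 _ (inter_mem hK₀ (hBn 0))
    | succ n => exact hf3 _ (inter_mem (hUn n) (hBn _))
  · intro n a ha b hb c hc
    exact (hf4 _ (inter_mem (hUn n) (hBn (n+1))) a ha b hb c hc).1
  · intro O hO
    obtain ⟨n, -, hn⟩ := hB.1.mem_iff.mp hO
    refine ⟨n, Subset.trans ?_ hn⟩
    cases n with
    | zero => exact (hf2 _ (inter_mem hK₀ (hBn 0))).trans inter_subset_right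
    | succ n => exact (hf2 _ (inter_mem (hUn n) (hBn _))).trans inter_subset_right

/-- The compact set built from an exhausting set and a bounded set. -/
def Qset (E P : Set H) : Set H := (E ∪ E⁻¹) ∪ (P ∪ P⁻¹)

theorem Qset_compact {E P : Set H} (hE : IsCompact E) (hP : IsCompact P) :
    IsCompact (Qset E P) := (hE.union hE.inv).union (hP.union hP.inv)

theorem exists_fastData [LocallyCompactSpace H] [T2Space H] [SigmaCompactSpace H]
    [(𝓝 (1 : H)).IsCountablyGenerated] (l : Ultrafilter H)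
    (hl : AsympCentral (l : Filter H))
    (hinf : ∀ K : Set H, IsCompact K → ∀ᶠ x in (l : Filter H), x ∉ K) :
    ∃ F : FastData H, (∀ n, F.U n ∈ 𝓝 (1 : H)) ∧ (∀ O ∈ 𝓝 (1 : H), ∃ n, F.U n ⊆ O) ∧
      (∀ K : Set H, IsCompact K → ∃ n, K ⊆ F.E n) ∧ (∀ n, F.y n ∉ F.E n) := by
  obtain ⟨K₀, hK₀, hK₀1⟩ := exists_compact_mem_nhds (1 : H)
  obtain ⟨U, hUn, hU0, hUs, hU3, hUb⟩ := exists_nbhd_sequence hK₀1
  let E := CompactExhaustion.choice H
  -- choice of the next element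
  have hstep : ∀ (n : ℕ) (P : Set H), IsCompact P → ∃ y : H,
      y ∉ Qset (E n) P * Qset (E n) P * Qset (E n) P ∧
      ∀ a : ℤ, |a| ≤ 2 ^ n →
      (∀ g ∈ Qset (E n) P * Qset (E n) P * Qset (E n) P,
        ∀ x ∈ Qset (E n) P * Qset (E n) P * Qset (E n) P,
        x * (y ^ a * g * (y ^ a)⁻¹ * g⁻¹) * x⁻¹ ∈ U (n + 2)) ∧
      (y ^ a ∉ Qset (E n) P * Qset (E n) P * Qset (E n) P ∨ 
        ∀ x ∈ Qset (E n) P * Qset (E n) P * Qset (E n) P, x * y ^ a * x⁻¹ ∈ U (n + 2)) := by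
    intro n P hP
    have hQ := Qset_compact (E.isCompact n) hP
    have hK := (hQ.mul hQ).mul hQ
    obtain ⟨y, hy1, hy2⟩ := exists_good_element l hl hinf hK
      (conj_nhds hK (hUn (n+2))) (2 ^ n)
    refine ⟨y, hy1, fun a ha => ?_⟩
    have := hy2 a (by exact_mod_cast ha)
    exact ⟨fun g hg x hx => this.1 g hg x hx, this.2⟩
  choose! f hf1 hf2 using hstep
  let nextP : ℕ → Set H → Set H := fun n P => ⋃ a ∈ Finset.Icc (-(2 ^ n : ℤ)) (2 ^ n),
    (fun z => z * f n P ^ a) '' P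
  let P : ℕ → Set H := fun n => Nat.rec K₀ (fun n X => nextP n X) n
  have hPc : ∀ n, IsCompact (P n) := by
    intro n
    induction n with
    | zero => exact hK₀
    | succ n ih =>
      refine (Finset.Icc (-(2 ^ n : ℤ)) (2 ^ n)).isCompact_biUnion fun a _ => ?_
      exact ih.image (by fun_prop)
  have hP0 : ∀ n, K₀ ⊆ P n := by
    intro n
    induction n with
    | zero => exact subset_rfl
    | succ n ih =>
      intro x hx
      refine mem_iUnion₂.mpr ⟨0, ?_, x, ih hx, by simp⟩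
      simp
  let y : ℕ → H := fun n => f n (P n)
  have hpr : ∀ n, ∀ v ∈ U 0, ∀ e : ℕ → ℤ, (∀ i, |e i| ≤ 2 ^ i) → v * pr y e n ∈ P n := by
    intro n v hv e he
    induction n with
    | zero =>
      show v * 1 ∈ K₀
      rw [mul_one]
      exact hU0 hv
    | succ n ih =>
      refine mem_iUnion₂.mpr ⟨e n, ?_, v * pr y e n, ih, ?_⟩
      · rw [Finset.mem_Icc]; exact abs_le.mp (he n)
      · show (v * pr y e n) * y n ^ e n = v * (pr y e n * y n ^ e n)
        rw [mul_assoc]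
  have hPQ : ∀ n, P n ⊆ Qset (E n) (P n) := fun n x hx => Or.inr (Or.inl hx)
  have hEQ : ∀ n, E n ⊆ Qset (E n) (P n) := fun n x hx => Or.inl (Or.inl hx)
  have h1Q : ∀ n, (1 : H) ∈ Qset (E n) (P n) := fun n =>
    hPQ n (hP0 n (mem_of_mem_nhds hK₀1))
  have hQQQ : ∀ n, Qset (E n) (P n) ⊆
      Qset (E n) (P n) * Qset (E n) (P n) * Qset (E n) (P n) := fun n x hx =>
    ⟨x * 1, ⟨x, hx, 1, h1Q n, rfl⟩, 1, h1Q n, by simp⟩
  let F : FastData H :=
    { U := U
      y := y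
      Q := fun n => Qset (E n) (P n)
      E := fun n => E n
      one_mem := fun n => mem_of_mem_nhds (hUn n)
      symm := hUs
      three := hU3
      E_mono := fun n m hnm => E.subset hnm
      E_sub := hEQ
      U_sub := fun n => hU0.trans ((hP0 n).trans (hPQ n))
      Q_symm := by
        intro n u hu
        rcases hu with (h | h) | (h | h)
        · exact Or.inl (Or.inr (by simpa using h))
        · exact Or.inl (Or.inl h)
        · exact Or.inr (Or.inr (by simpa using h))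
        · exact Or.inr (Or.inl h)
      pr_sub := fun n v hv e he => hPQ n (hpr n v hv e he)
      comm := fun n a ha g hg x hx => ((hf2 n (P n) (hPc n)) a ha).1 g hg x hx
      dich := by
        intro n a ha
        rcases ((hf2 n (P n) (hPc n)) a ha).2 with h | h
        · exact Or.inl h
        · right
          have := h 1 (hQQQ n (h1Q n))
          simpa using this }
  refine ⟨F, hUn, hUb, ?_, ?_⟩
  · intro K hK
    exact E.exists_superset_of_isCompact hK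
  · intro n hn
    exact hf1 n (P n) (hPc n) (hQQQ n (hEQ n hn))

/-- The group filter basis attached to fast data. -/
@[reducible] def FastData.basis (F : FastData H) (hU : ∀ n, F.U n ∈ 𝓝 (1 : H))
    (hb : ∀ O ∈ 𝓝 (1 : H), ∃ n, F.U n ⊆ O)
    (hE : ∀ K : Set H, IsCompact K → ∃ n, K ⊆ F.E n) : GroupFilterBasis H where
  sets := range F.W
  nonempty := ⟨_, 0, rfl⟩
  inter_sets := by
    rintro _ _ ⟨i, rfl⟩ ⟨j, rfl⟩
    exact ⟨_, ⟨max i j, rfl⟩, fun x hx =>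
      ⟨F.W_anti (le_max_left _ _) hx, F.W_anti (le_max_right _ _) hx⟩⟩
  one' := by
    rintro _ ⟨i, rfl⟩
    exact F.one_mem_W i
  mul' := by
    rintro _ ⟨i, rfl⟩
    refine ⟨_, ⟨i+1, rfl⟩, ?_⟩
    rintro _ ⟨x, hx, y, hy, rfl⟩
    exact F.W_mul i hx hy
  inv' := by
    rintro _ ⟨i, rfl⟩
    exact ⟨_, ⟨i+1, rfl⟩, fun x hx => F.W_inv i hx⟩
  conj' := by
    rintro h _ ⟨i, rfl⟩
    obtain ⟨m, hm⟩ := hE {h} isCompact_singleton
    obtain ⟨j, hj⟩ := hb _ (conj_nhds (isCompact_singleton (x := h)) (hU (i+1)))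
    refine ⟨_, ⟨max (i+1) (max m j), rfl⟩, fun x hx => ?_⟩
    refine F.W_conj i _ (le_max_left _ _) (h := h) ?_ ?_ hx
    · exact F.E_mono m _ ((le_max_left _ _).trans (le_max_right _ _)) (hm rfl)
    · intro v hv
      exact hj (F.U_anti ((le_max_right _ _).trans (le_max_right _ _)) hv) h rfl

end Existence

/-- In a second countable locally compact minimal group some asymptotic centraliser is
relatively compact. -/
theorem exists_asympCent_compact {H : Type u} [Group H] [τ : TopologicalSpace H]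
    [LocallyCompactSpace H] [SigmaCompactSpace H] [(𝓝 (1 : H)).IsCountablyGenerated]
    (hmin : IsMinimalGroupTopology τ) :
    ∃ D V K : Set H, IsCompact D ∧ V ∈ 𝓝 (1 : H) ∧ IsCompact K ∧ asympCent D V ⊆ K := by
  by_contra hcon
  push Not at hcon
  have := hmin.1
  have := hmin.2.1
  -- the asymptotically central filter at infinity
  let B : Set (Set H) := {S | ∃ D V K : Set H, IsCompact D ∧ V ∈ 𝓝 (1 : H) ∧ IsCompact K ∧
    S = asympCent D V \ K}
  let FB : FilterBasis H :=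
    { sets := B
      nonempty := ⟨_, ∅, univ, ∅, isCompact_empty, univ_mem, isCompact_empty, rfl⟩
      inter_sets := by
        rintro _ _ ⟨D, V, K, hD, hV, hK, rfl⟩ ⟨D', V', K', hD', hV', hK', rfl⟩
        refine ⟨_, ⟨D ∪ D', V ∩ V', K ∪ K', hD.union hD', inter_mem hV hV', hK.union hK', rfl⟩, ?_⟩
        rintro x ⟨hx, hxK⟩
        refine ⟨⟨fun d hd => ⟨(hx d (Or.inl hd)).1.1, (hx d (Or.inl hd)).2.1⟩,
          fun h => hxK (Or.inl h)⟩, ⟨fun d hd => ⟨(hx d (Or.inr hd)).1.2, (hx d (Or.inr hd)).2.2⟩,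
          fun h => hxK (Or.inr h)⟩⟩ }
  have hne : FB.filter.NeBot := by
    rw [FB.hasBasis.neBot_iff]
    rintro S ⟨D, V, K, hD, hV, hK, rfl⟩
    obtain ⟨x, hx, hxK⟩ := not_subset.mp (hcon D V K hD hV hK)
    exact ⟨x, hx, hxK⟩
  let l := Ultrafilter.of FB.filter
  have hle : (l : Filter H) ≤ FB.filter := Ultrafilter.of_le _
  have hmem : ∀ D V K : Set H, IsCompact D → V ∈ 𝓝 (1 : H) → IsCompact K →
      asympCent D V \ K ∈ (l : Filter H) := fun D V K hD hV hK =>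
    hle (FB.mem_filter_of_mem ⟨D, V, K, hD, hV, hK, rfl⟩)
  have hinf : ∀ K : Set H, IsCompact K → ∀ᶠ x in (l : Filter H), x ∉ K := by
    intro K hK
    filter_upwards [hmem ∅ univ K isCompact_empty univ_mem hK] with x hx
    exact hx.2
  have hac : AsympCentral (l : Filter H) := by
    intro g
    have key : ∀ O ∈ 𝓝 g, ∃ A ∈ (l : Filter H), ∃ N ∈ 𝓝 g, ∀ x ∈ A, ∀ h ∈ N,
        x * h * x⁻¹ ∈ O ∧ x⁻¹ * h * x ∈ O := by
      intro O hO
      have h1 : Tendsto (fun p : H × H => p.1 * p.2) (𝓝 (1, g)) (𝓝 (1 * g)) := by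
        apply Continuous.tendsto; fun_prop
      rw [one_mul, nhds_prod_eq] at h1
      obtain ⟨V, hV, N, hN, hVN⟩ := mem_prod_iff.mp (h1 hO)
      obtain ⟨D, hDN, hDsub, hD⟩ := local_compact_nhds hN
      refine ⟨_, hmem D V ∅ hD hV isCompact_empty, D, hDN, ?_⟩
      rintro x ⟨hx, -⟩ h hh
      refine ⟨?_, ?_⟩
      · have h2 : x * h * x⁻¹ = (x * h * x⁻¹ * h⁻¹) * h := by group
        rw [h2]
        exact hVN (show (x * h * x⁻¹ * h⁻¹, h) ∈ V ×ˢ N from ⟨(hx h hh).1, hDsub hh⟩)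
      · have h2 : x⁻¹ * h * x = (x⁻¹ * h * x * h⁻¹) * h := by group
        rw [h2]
        exact hVN (show (x⁻¹ * h * x * h⁻¹, h) ∈ V ×ˢ N from ⟨(hx h hh).2, hDsub hh⟩)
    constructor
    · intro O hO
      obtain ⟨A, hA, N, hN, hAN⟩ := key O hO
      exact mem_prod_iff.mpr ⟨A, hA, N, hN, fun p hp => (hAN p.1 hp.1 p.2 hp.2).1⟩
    · intro O hO
      obtain ⟨A, hA, N, hN, hAN⟩ := key O hO
      exact mem_prod_iff.mpr ⟨A, hA, N, hN, fun p hp => (hAN p.1 hp.1 p.2 hp.2).2⟩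
  obtain ⟨F, hU, hb, hE, hy⟩ := exists_fastData l hac hinf
  let Bas := F.basis hU hb hE
  have hWn : ∀ k, F.W k ∈ 𝓝 (1 : H) := fun k => mem_of_superset (hU k) (F.U_sub_W k)
  have hT2 : @T2Space H Bas.topology := by
    apply @IsTopologicalGroup.t2Space_of_one_sep H Bas.topology _ Bas.isTopologicalGroup
    intro x hx
    obtain ⟨n₁, hn₁⟩ := hE {x} isCompact_singleton
    obtain ⟨n₂, hn₂⟩ := hb {x}ᶜ (isOpen_compl_singleton.mem_nhds (Ne.symm hx))
    refine ⟨F.W (max n₁ n₂ + 1), Bas.mem_nhds_one ⟨_, rfl⟩, ?_⟩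
    apply F.W_sep
    · exact F.E_mono n₁ _ ((le_max_left _ _).trans (Nat.le_succ _)) (hn₁ rfl)
    · intro hxU
      exact hn₂ (F.U_anti (le_max_right _ _) hxU) rfl
  have hle2 : τ ≤ Bas.topology := by
    rw [← continuous_id_iff_le]
    have h3 : @ContinuousAt H H τ Bas.topology (MonoidHom.id H) 1 := by
      intro S hS
      obtain ⟨_, ⟨k, rfl⟩, hk⟩ := Bas.nhds_one_hasBasis.mem_iff.mp hS
      exact mem_of_superset (hWn k) hk
    exact @continuous_of_continuousAt_one H τ _ _ H (H →* H) _ Bas.topology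
      Bas.isTopologicalGroup.toContinuousMul _ _ (MonoidHom.id H) h3
  have heq : Bas.topology = τ := hmin.2.2 _ Bas.isTopologicalGroup hT2 hle2
  obtain ⟨C, hC, hC1⟩ := exists_compact_mem_nhds (1 : H)
  have hC2 : C ∈ @nhds H Bas.topology 1 := by rw [heq]; exact hC1
  obtain ⟨_, ⟨k, rfl⟩, hk⟩ := Bas.nhds_one_hasBasis.mem_iff.mp hC2
  obtain ⟨m, hm⟩ := hE C hC
  apply hy (max k m)
  exact F.E_mono m _ (le_max_right _ _) (hm (hk (F.y_mem_W k _ (le_max_left _ _))))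

end Pool.Agent.Helper87
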