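import Pool.Agent.Helper87.SymGeneric

/-!
# Symmetric forcing, part 3: hereditarily symmetric names for the sets that ZF asks for
-/

set_option autoImplicit false

namespace Pool.Agent.Helper87.Sym

open Nm

variable {P : Type} [Preorder P] [OrderTop P] {G : Type} [Group G] [MulAction G P]

theorem le_smul_top [ActMono P G] (g : G) (p : P) : p ≤ g • (⊤ : P) := by
  rw [← smul_le_iff g⁻¹, inv_smul_smul]; exact le_top

/-- `σ` and `τ` are forced to be equal. -/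
def Feq (σ τ : Nm P) : Prop := ∀ p, feq σ τ p

omit [OrderTop P] in
theorem Feq.refl (σ : Nm P) : Feq σ σ := fun p => feq_refl σ p

omit [OrderTop P] in
theorem Feq.symm {σ τ : Nm P} (h : Feq σ τ) : Feq τ σ := fun p => feq_symm (h p)

omit [OrderTop P] in
theorem Feq.trans {ρ σ τ : Nm P} (h : Feq ρ σ) (h' : Feq σ τ) : Feq ρ τ :=
  fun p => feq_trans (h p) (h' p)

omit [OrderTop P] in
theorem Feq.act' [ActMono P G] {σ τ : Nm P} (g : G) (h : Feq σ τ) : Feq (act g σ) (act g τ) := by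
  intro p
  rw [feq_act']
  exact h _

omit [OrderTop P] in
theorem Feq.of_children {σ τ : Nm P}
    (h1 : ∀ i : σ.Idx, ∃ j : τ.Idx, σ.cond i ≤ τ.cond j ∧ Feq (σ.child i) (τ.child j))
    (h2 : ∀ j : τ.Idx, ∃ i : σ.Idx, τ.cond j ≤ σ.cond i ∧ Feq (σ.child i) (τ.child j)) :
    Feq σ τ := by
  intro p
  rw [feq_iff]
  constructor
  · intro i q hq hqi
    obtain ⟨j, hj, hj'⟩ := h1 i
    exact ⟨q, le_rfl, j, hqi.trans hj, hj' q⟩
  · intro j q hq hqj
    obtain ⟨i, hi, hi'⟩ := h2 j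
    exact ⟨q, le_rfl, i, hqj.trans hi, hi' q⟩

omit [OrderTop P] in
/-- Extensionality, with hereditarily symmetric test names. -/
theorem feq_of_fmem_HS {𝔖 : SymSys P G} {σ τ : Nm P} {p : P} (hσ : ∀ i, HS 𝔖 (σ.child i))
    (hτ : ∀ i, HS 𝔖 (τ.child i))
    (h : ∀ ρ, HS 𝔖 ρ → ∀ q, q ≤ p → (fmem ρ σ q ↔ fmem ρ τ q)) : feq σ τ p :=
  feq_of_fmem (fun i q hq hqi => (h _ (hσ i) q hq).1 (fmem_child _ _ hqi))
    (fun i q hq hqi => (h _ (hτ i) q hq).2 (fmem_child _ _ hqi))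

omit [OrderTop P] in
theorem exists_common_support {𝔖 : SymSys P G} {v : ℕ → Nm P} (hv : ∀ i, HS 𝔖 (v i)) (n : ℕ) :
    ∃ u : 𝔖.S, ∀ h ∈ 𝔖.fix u, ∀ i, i < n → Feq (act h (v i)) (v i) := by
  induction n with
  | zero =>
    obtain ⟨u⟩ := 𝔖.nonempty
    exact ⟨u, fun h _ i hi => absurd hi (by omega)⟩
  | succ n ih =>
    obtain ⟨u, hu⟩ := ih
    obtain ⟨s, hs⟩ := (hv n).symm
    obtain ⟨t, ht⟩ := 𝔖.dir u s
    refine ⟨t, fun h hh i hi => ?_⟩
    rcases Nat.lt_succ_iff_lt_or_eq.1 hi with h1 | h1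
    · exact hu h (ht hh).1 i h1
    · subst h1
      exact hs h (ht hh).2

/-- `σ` is the collection of all `ρ` with `χ(ρ, v)`. -/
def Char (𝔖 : SymSys P G) (χ : Fml) (v : ℕ → Nm P) (σ : Nm P) : Prop :=
  ∀ ρ, HS 𝔖 ρ → ∀ p, fmem ρ σ p ↔ Fc 𝔖 χ (cons ρ v) p

omit [OrderTop P] in
/-- Definable names are symmetric. -/
theorem HS_of_char [ActMono P G] {𝔖 : SymSys P G} {χ : Fml} {v : ℕ → Nm P} {σ : Nm P}
    (hv : ∀ i, HS 𝔖 (v i)) (hσ : ∀ i, HS 𝔖 (σ.child i)) (h : Char 𝔖 χ v σ) : HS 𝔖 σ := by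
  refine HS.mk' ?_ hσ
  obtain ⟨u, hu⟩ := exists_common_support hv χ.bd
  refine ⟨u, fun g hg p => ?_⟩
  have hch : ∀ i, HS 𝔖 ((act g σ).child i) := by
    intro i
    cases σ with
    | mk ι x c => exact (hσ i).act g
  refine feq_of_fmem_HS hch hσ ?_
  intro ρ hρ q _
  rw [← fmem_act g⁻¹, act_inv_act, h _ (hρ.act g⁻¹), h _ hρ]
  rw [← Fc_act_aux g, smul_inv_smul]
  have e : ∀ i, i < χ.bd → feq ((fun i => act g (cons (act g⁻¹ ρ) v i)) i) (cons ρ v i) q := by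
    intro i hi
    cases i with
    | zero => simp only [cons_zero, act_act_inv]; exact feq_refl _ _
    | succ i => exact hu g hg i (by omega) q
  constructor
  · exact Fc_congr_bd e
  · exact Fc_congr_bd fun i hi => feq_symm (e i hi)

/-- the empty name -/
def emptyN : Nm P := .mk Empty Empty.elim Empty.elim

omit [OrderTop P] in
theorem HS_emptyN {𝔖 : SymSys P G} : HS 𝔖 (emptyN : Nm P) := by
  obtain ⟨u⟩ := 𝔖.nonempty
  refine ⟨⟨u, fun h _ => Feq.of_children (fun i => i.elim) (fun i => i.elim)⟩, fun i => i.elim⟩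

/-- the unordered pair -/
def upairN (σ τ : Nm P) : Nm P := .mk Bool (fun b => cond b σ τ) (fun _ => ⊤)

theorem char_upairN {𝔖 : SymSys P G} (v : ℕ → Nm P) :
    Char 𝔖 (.or (.eq 0 1) (.eq 0 2)) v (upairN (v 0) (v 1)) := by
  intro ρ hρ p
  constructor
  · intro h q hq hn
    apply feq_dense
    intro r hr
    obtain ⟨s, hs, b, -, hb⟩ := h r (hr.trans hq)
    cases b with
    | true => exact absurd hb (hn s (hs.trans hr))
    | false => exact ⟨s, hs, hb⟩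
  · intro h q hq
    by_cases h1 : ∃ s, s ≤ q ∧ feq ρ (v 0) s
    · obtain ⟨s, hs, hs'⟩ := h1
      exact ⟨s, hs, true, le_top, hs'⟩
    · push Not at h1
      have h2 := h q hq (fun s hs hs' => h1 s hs hs')
      exact ⟨q, le_rfl, false, le_top, h2⟩

theorem HS_upairN [ActMono P G] {𝔖 : SymSys P G} {σ τ : Nm P} (hσ : HS 𝔖 σ) (hτ : HS 𝔖 τ) :
    HS 𝔖 (upairN σ τ) := by
  refine HS_of_char (v := cons σ fun _ => τ) ?_ ?_ (char_upairN _)
  · intro i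
    cases i with
    | zero => exact hσ
    | succ i => exact hτ
  · intro b
    cases b with
    | true => exact hσ
    | false => exact hτ

/-- the union -/
def unionN (τ : Nm P) : Nm P :=
  .mk {x : (Σ i : τ.Idx, (τ.child i).Idx) × P //
      x.2 ≤ τ.cond x.1.1 ∧ x.2 ≤ (τ.child x.1.1).cond x.1.2}
    (fun x => (τ.child x.1.1.1).child x.1.1.2) (fun x => x.1.2)

omit [OrderTop P] in
theorem char_unionN {𝔖 : SymSys P G} (v : ℕ → Nm P) (h0 : HS 𝔖 (v 0)) :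
    Char 𝔖 (.ex (.and (.mem 0 2) (.mem 1 0))) v (unionN (v 0)) := by
  intro ρ hρ p
  rw [Fc_ex]
  constructor
  · intro h q hq
    obtain ⟨s, hs, ⟨⟨⟨i, j⟩, r⟩, hi, hj⟩, hr, hs'⟩ := h q hq
    refine ⟨s, hs, (v 0).child i, h0.child i, ?_⟩
    rw [Fc_and]
    refine ⟨fmem_child _ _ (hr.trans hi), ?_⟩
    exact fmem_congr_left (feq_symm hs') (fmem_child _ _ (hr.trans hj))
  · intro h q hq
    obtain ⟨r, hr, x, hx, hx'⟩ := h q hq
    rw [Fc_and] at hx'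
    obtain ⟨h1, h2⟩ := hx'
    obtain ⟨s, hs, i, hi, hi'⟩ := h1 r le_rfl
    have h3 : fmem ρ ((v 0).child i) s := fmem_congr_right hi' (fmem_mono h2 hs)
    obtain ⟨t, ht, j, hj, hj'⟩ := h3 s le_rfl
    exact ⟨t, ht.trans (hs.trans hr), ⟨⟨⟨i, j⟩, t⟩, ht.trans hi, hj⟩, le_rfl, hj'⟩

omit [OrderTop P] in
theorem HS_unionN [ActMono P G] {𝔖 : SymSys P G} {τ : Nm P} (hτ : HS 𝔖 τ) :
    HS 𝔖 (unionN τ) :=
  HS_of_char (v := fun _ => τ) (fun _ => hτ) (fun _ => (hτ.child _).child _) (char_unionN _ hτ)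

/-- subset names -/
def subN (τ : Nm P) (S : Set (τ.Idx × P)) : Nm P :=
  .mk {x : τ.Idx × P // x ∈ S ∧ x.2 ≤ τ.cond x.1} (fun x => τ.child x.1.1) (fun x => x.1.2)

/-- separation -/
def sepN (𝔖 : SymSys P G) (φ : Fml) (τ : Nm P) (v : ℕ → Nm P) : Nm P :=
  subN τ {x | Fc 𝔖 φ (cons (τ.child x.1) v) x.2}

omit [OrderTop P] in
theorem fmem_sepN {𝔖 : SymSys P G} {φ : Fml} {σ τ : Nm P} {v : ℕ → Nm P} {p : P} :
    fmem σ (sepN 𝔖 φ τ v) p ↔ fmem σ τ p ∧ Fc 𝔖 φ (cons σ v) p := by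
  constructor
  · intro h
    constructor
    · intro q hq
      obtain ⟨s, hs, ⟨⟨j, r⟩, _, h2⟩, h3, h4⟩ := h q hq
      exact ⟨s, hs, j, h3.trans h2, h4⟩
    · apply Fc_dense
      intro q hq
      obtain ⟨s, hs, ⟨⟨j, r⟩, h1, h2⟩, h3, h4⟩ := h q hq
      refine ⟨s, hs, ?_⟩
      refine Fc_congr ?_ (Fc_mono h1 h3)
      intro i
      cases i with
      | zero => exact feq_symm h4
      | succ i => exact feq_refl _ _
  · rintro ⟨h1, h2⟩ q hq
    obtain ⟨s, hs, j, hj, hj'⟩ := h1 q hq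
    refine ⟨s, hs, ⟨⟨j, s⟩, ?_, hj⟩, le_rfl, hj'⟩
    refine Fc_congr ?_ (Fc_mono h2 (hs.trans hq))
    intro i
    cases i with
    | zero => exact hj'
    | succ i => exact feq_refl _ _

/-- Insert `τ` into an assignment beyond the variables of `φ`. -/
def putAt {α : Type*} (n : ℕ) (τ : α) (v : ℕ → α) : ℕ → α := fun i => if i < n then v i else τ

theorem putAt_lt {α : Type*} {n : ℕ} {τ : α} {v : ℕ → α} {i : ℕ} (hi : i < n) :
    putAt n τ v i = v i := if_pos hi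

theorem putAt_self {α : Type*} {n : ℕ} {τ : α} {v : ℕ → α} : putAt n τ v n = τ :=
  if_neg (lt_irrefl n)

omit [OrderTop P] in
theorem char_sepN {𝔖 : SymSys P G} {φ : Fml} {τ : Nm P} {v : ℕ → Nm P} :
    Char 𝔖 (.and (.mem 0 (φ.bd + 1)) φ) (putAt φ.bd τ v) (sepN 𝔖 φ τ v) := by
  intro ρ hρ p
  rw [fmem_sepN, Fc_and]
  have e1 : Fc 𝔖 (.mem 0 (φ.bd + 1)) (cons ρ (putAt φ.bd τ v)) p ↔ fmem ρ τ p := by
    simp only [Fc, cons_zero, cons_succ, putAt_self]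
  have e2 : Fc 𝔖 φ (cons ρ (putAt φ.bd τ v)) p ↔ Fc 𝔖 φ (cons ρ v) p := by
    apply Fc_bd
    intro i hi
    cases i with
    | zero => rfl
    | succ i => exact putAt_lt (by omega)
  rw [e1, e2]

omit [OrderTop P] in
theorem HS_sepN [ActMono P G] {𝔖 : SymSys P G} {φ : Fml} {τ : Nm P} {v : ℕ → Nm P}
    (hτ : HS 𝔖 τ) (hv : ∀ i, HS 𝔖 (v i)) : HS 𝔖 (sepN 𝔖 φ τ v) := by
  refine HS_of_char (v := putAt φ.bd τ v) ?_ ?_ char_sepN
  · intro i
    unfold putAt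
    split
    · exact hv i
    · exact hτ
  · exact fun x => hτ.child _

/-- the power set -/
def powN (𝔖 : SymSys P G) (τ : Nm P) : Nm P :=
  .mk {S : Set (τ.Idx × P) // HS 𝔖 (subN τ S)} (fun S => subN τ S.1) (fun _ => ⊤)

omit [OrderTop P] in
theorem fmem_of_subN {τ σ : Nm P} {S : Set (τ.Idx × P)} {p : P} (h : fmem σ (subN τ S) p) :
    fmem σ τ p := by
  intro q hq
  obtain ⟨s, hs, ⟨⟨j, r⟩, _, h2⟩, h3, h4⟩ := h q hq
  exact ⟨s, hs, j, h3.trans h2, h4⟩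

theorem char_powN [ActMono P G] {𝔖 : SymSys P G} (v : ℕ → Nm P) (h0 : HS 𝔖 (v 0)) :
    Char 𝔖 (.all (.imp (.mem 0 1) (.mem 0 2))) v (powN 𝔖 (v 0)) := by
  intro ρ hρ p
  constructor
  · intro h x hx q hq hxρ
    apply fmem_dense
    intro r hr
    obtain ⟨s, hs, S, -, hS⟩ := h r (hr.trans hq)
    exact ⟨s, hs, fmem_of_subN (fmem_congr_right hS (fmem_mono hxρ (hs.trans hr)))⟩
  · intro h
    have h1 : ∀ x, HS 𝔖 x → ∀ q, q ≤ p → fmem x ρ q → fmem x (v 0) q := fun x hx q hq hh =>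
      h x hx q hq hh
    have hS : HS 𝔖 (sepN 𝔖 (.mem 0 1) (v 0) fun _ => ρ) := HS_sepN h0 fun _ => hρ
    have heq : feq ρ (sepN 𝔖 (.mem 0 1) (v 0) fun _ => ρ) p := by
      refine feq_of_fmem_HS (𝔖 := 𝔖) (fun i => hρ.child i) (fun i => hS.child i) ?_
      intro x hx q hq
      rw [fmem_sepN]
      constructor
      · exact fun hh => ⟨h1 x hx q hq hh, hh⟩
      · exact fun hh => hh.2
    exact fun q hq => ⟨q, le_rfl, ⟨_, hS⟩, le_top, feq_mono heq hq⟩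

theorem HS_powN [ActMono P G] {𝔖 : SymSys P G} {τ : Nm P} (hτ : HS 𝔖 τ) :
    HS 𝔖 (powN 𝔖 τ) :=
  HS_of_char (v := fun _ => τ) (fun _ => hτ) (fun x => x.2) (char_powN _ hτ)

/-- Collection, in forcing form. -/
theorem exists_coll [ActMono P G] {𝔖 : SymSys P G} {φ : Fml} {τ : Nm P} {v : ℕ → Nm P} :
    ∃ β, HS 𝔖 β ∧ ∀ σ, HS 𝔖 σ → ∀ p, fmem σ τ p → Fc 𝔖 (.ex φ) (cons σ v) p →
      ∀ q, q ≤ p → ∃ r, r ≤ q ∧ ∃ y, HS 𝔖 y ∧ fmem y β r ∧ Fc 𝔖 φ (cons y (cons σ v)) r := by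
  classical
  let pick : τ.Idx × P → Nm P := fun x =>
    if h : ∃ y, HS 𝔖 y ∧ Fc 𝔖 φ (cons y (cons (τ.child x.1) v)) x.2 then h.choose else emptyN
  have hpick : ∀ x, HS 𝔖 (pick x) := by
    intro x
    simp only [pick]
    split
    · next h => exact h.choose_spec.1
    · exact HS_emptyN
  let β : Nm P := .mk ((τ.Idx × P) × G) (fun x => act x.2 (pick x.1)) (fun _ => ⊤)
  have hβ : HS 𝔖 β := by
    refine HS.mk' ?_ (fun x => (hpick x.1).act x.2)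
    obtain ⟨u⟩ := 𝔖.nonempty
    refine ⟨u, fun h _ => ?_⟩
    refine Feq.of_children ?_ ?_
    · rintro ⟨x, g⟩
      refine ⟨⟨x, h * g⟩, le_top, ?_⟩
      have : act h (act g (pick x)) = act (h * g) (pick x) := (act_mul h g _).symm
      change Feq (act h (act g (pick x))) (act (h * g) (pick x))
      rw [this]
      exact Feq.refl _
    · rintro ⟨x, g⟩
      refine ⟨⟨x, h⁻¹ * g⟩, le_smul_top h _, ?_⟩
      have : act h (act (h⁻¹ * g) (pick x)) = act g (pick x) := by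
        rw [← act_mul, mul_inv_cancel_left]
      change Feq (act h (act (h⁻¹ * g) (pick x))) (act g (pick x))
      rw [this]
      exact Feq.refl _
  refine ⟨β, hβ, ?_⟩
  intro σ hσ p hmem hφ q hq
  rw [Fc_ex] at hφ
  obtain ⟨r, hr, y, hy, hy'⟩ := hφ q hq
  obtain ⟨s, hs, i, hi, hi'⟩ := hmem r (hr.trans hq)
  have h1 : Fc 𝔖 φ (cons y (cons (τ.child i) v)) s := by
    refine Fc_congr ?_ (Fc_mono hy' hs)
    intro j
    rcases j with _ | _ | j
    · exact feq_refl _ _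
    · exact hi'
    · exact feq_refl _ _
  have h2 : ∃ y, HS 𝔖 y ∧ Fc 𝔖 φ (cons y (cons (τ.child (i, s).1) v)) (i, s).2 := ⟨y, hy, h1⟩
  have h3 : pick (i, s) = h2.choose := by
    simp only [pick]
    rw [dif_pos h2]
  have h4 := h2.choose_spec
  rw [← h3] at h4
  refine ⟨s, hs.trans hr, pick (i, s), h4.1, ?_, ?_⟩
  · have h5 : fmem (β.child ((i, s), 1)) β s := fmem_child _ _ le_top
    have h6 : β.child ((i, s), 1) = pick (i, s) := act_one _
    rw [h6] at h5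
    exact h5
  · refine Fc_congr ?_ h4.2
    intro j
    rcases j with _ | _ | j
    · exact feq_refl _ _
    · exact feq_symm hi'
    · exact feq_refl _ _

end Pool.Agent.Helper87.Sym
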