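import Pool.Agent.Helper87.SymNames

/-!
# Symmetric forcing, part 2: connectives, countable generic sequences, name constructions
-/

set_option autoImplicit false

namespace Pool.Agent.Helper87.Sym

universe u

/-! ### Derived connectives -/

/-- negation -/
def Fml.neg (φ : Fml) : Fml := .imp φ .bot
/-- conjunction -/
def Fml.and (φ ψ : Fml) : Fml := .neg (.imp φ (.neg ψ))
/-- disjunction -/
def Fml.or (φ ψ : Fml) : Fml := .imp (.neg φ) ψ
/-- equivalence -/
def Fml.iff (φ ψ : Fml) : Fml := .and (.imp φ ψ) (.imp ψ φ)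
/-- existential quantifier -/
def Fml.ex (φ : Fml) : Fml := .neg (.all (.neg φ))

section SatLemmas

variable {M : Set ZFSet.{0}} {φ ψ : Fml} {v : ℕ → ZFSet.{0}}

@[simp] theorem Sat_bot : Sat M .bot v ↔ False := Iff.rfl
@[simp] theorem Sat_mem {i j : ℕ} : Sat M (.mem i j) v ↔ v i ∈ v j := Iff.rfl
@[simp] theorem Sat_eq {i j : ℕ} : Sat M (.eq i j) v ↔ v i = v j := Iff.rfl
@[simp] theorem Sat_imp : Sat M (.imp φ ψ) v ↔ (Sat M φ v → Sat M ψ v) := Iff.rfl
@[simp] theorem Sat_all : Sat M (.all φ) v ↔ ∀ x, x ∈ M → Sat M φ (cons x v) := Iff.rfl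
@[simp] theorem Sat_neg : Sat M (.neg φ) v ↔ ¬ Sat M φ v := Iff.rfl
@[simp] theorem Sat_and : Sat M (.and φ ψ) v ↔ Sat M φ v ∧ Sat M ψ v := by
  simp only [Fml.and, Sat_neg, Sat_imp]; tauto
@[simp] theorem Sat_or : Sat M (.or φ ψ) v ↔ Sat M φ v ∨ Sat M ψ v := by
  simp only [Fml.or, Sat_neg, Sat_imp]; tauto
@[simp] theorem Sat_iff : Sat M (.iff φ ψ) v ↔ (Sat M φ v ↔ Sat M ψ v) := by
  simp only [Fml.iff, Sat_and, Sat_imp]; tauto
@[simp] theorem Sat_ex : Sat M (.ex φ) v ↔ ∃ x, x ∈ M ∧ Sat M φ (cons x v) := by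
  simp only [Fml.ex, Sat_neg, Sat_all]; push Not; rfl

end SatLemmas

theorem Sat_bd {M : Set ZFSet.{0}} {φ : Fml} {v v' : ℕ → ZFSet.{0}}
    (hv : ∀ i, i < φ.bd → v i = v' i) : Sat M φ v ↔ Sat M φ v' := by
  induction φ generalizing v v' with
  | bot => rfl
  | mem i j =>
    simp only [Sat, Fml.bd] at *
    rw [hv i (by omega), hv j (by omega)]
  | eq i j =>
    simp only [Sat, Fml.bd] at *
    rw [hv i (by omega), hv j (by omega)]
  | imp φ ψ ihφ ihψ =>
    simp only [Sat, Fml.bd] at *
    have h1 : Sat M φ v ↔ Sat M φ v' := ihφ fun i hi => hv i (by omega)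
    have h2 : Sat M ψ v ↔ Sat M ψ v' := ihψ fun i hi => hv i (by omega)
    simp only [h1, h2]
  | all φ ih =>
    simp only [Sat, Fml.bd] at *
    have : ∀ x, Sat M φ (cons x v) ↔ Sat M φ (cons x v') := by
      intro x
      apply ih
      intro i hi
      cases i with
      | zero => rfl
      | succ i => exact hv i (by omega)
    simp only [this]

section FcLemmas

variable {P : Type} [Preorder P] {G : Type} [Group G] [MulAction G P]
variable {𝔖 : SymSys P G} {φ ψ : Fml} {v : ℕ → Nm P} {p : P}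

theorem Fc_neg : Fc 𝔖 (.neg φ) v p ↔ ∀ q, q ≤ p → ¬ Fc 𝔖 φ v q := Iff.rfl

theorem Fc_and : Fc 𝔖 (.and φ ψ) v p ↔ Fc 𝔖 φ v p ∧ Fc 𝔖 ψ v p := by
  constructor
  · intro h
    constructor
    · apply Fc_dense
      intro q hq
      by_contra hc
      push Not at hc
      exact h q hq fun r hr h1 => absurd h1 (hc r hr)
    · apply Fc_dense
      intro q hq
      by_contra hc
      push Not at hc
      exact h q hq fun r hr h1 s hs h2 => absurd h2 (hc s (hs.trans hr))
  · intro h q hq h1
    exact h1 q le_rfl (Fc_mono h.1 hq) q le_rfl (Fc_mono h.2 hq)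

theorem Fc_ex : Fc 𝔖 (.ex φ) v p ↔ ∀ q, q ≤ p → ∃ r, r ≤ q ∧ ∃ x, HS 𝔖 x ∧ Fc 𝔖 φ (cons x v) r := by
  constructor
  · intro h q hq
    by_contra hc
    push Not at hc
    exact h q hq fun x hx r hr => hc r hr x hx
  · intro h q hq h1
    obtain ⟨r, hr, x, hx, h2⟩ := h q hq
    exact h1 x hx r hr h2

theorem Fc_ex_of {x : Nm P} (hx : HS 𝔖 x) (h : Fc 𝔖 φ (cons x v) p) : Fc 𝔖 (.ex φ) v p := by
  rw [Fc_ex]
  exact fun q hq => ⟨q, le_rfl, x, hx, Fc_mono h hq⟩

theorem Fc_congr_bd {v' : ℕ → Nm P} (hv : ∀ i, i < φ.bd → feq (v i) (v' i) p)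
    (h : Fc 𝔖 φ v p) : Fc 𝔖 φ v' p := by
  classical
  let w : ℕ → Nm P := fun i => if i < φ.bd then v' i else v i
  have h1 : Fc 𝔖 φ w p := by
    apply Fc_congr _ h
    intro i
    by_cases hi : i < φ.bd
    · simp only [w, hi, if_true]; exact hv i hi
    · simp only [w, hi, if_false]; exact feq_refl _ _
  rw [Fc_bd (v' := v')] at h1
  · exact h1
  · intro i hi
    simp only [w, hi, if_true]

end FcLemmas

/-! ### Generic sequences -/

theorem exists_generic {P : Type} [Preorder P] {N : Type 1} {R : Type} [Countable R]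
    (W : R → List N → P → N → Prop) (p0 : P) (x0 : N) (H : N → Prop) (hx0 : H x0)
    (hW : ∀ r t p x, W r t p x → H x) :
    ∃ (pc : ℕ → P) (𝒩 : Set N), 𝒩.Countable ∧ Antitone pc ∧ pc 0 ≤ p0 ∧ x0 ∈ 𝒩 ∧
      (∀ x ∈ 𝒩, H x) ∧
      ∀ r t, (∀ σ ∈ t, σ ∈ 𝒩) →
        ∃ k, (∃ x ∈ 𝒩, W r t (pc k) x) ∨ ∀ q, q ≤ pc k → ∀ x, ¬ W r t q x := by
  classical
  obtain ⟨e⟩ : Nonempty (Encodable R) := nonempty_encodable R
  -- the decoded requirement at stage n
  let dec : ℕ → Option (R × List ℕ) := fun n => Encodable.decode (Nat.unpair n).1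
  let step : ℕ → P × (ℕ → N) → P × (ℕ → N) := fun n s =>
    match dec n with
    | none => s
    | some (r, t) =>
      if h : ∃ qx : P × N, qx.1 ≤ s.1 ∧ W r (t.map s.2) qx.1 qx.2 then
        (h.choose.1, Function.update s.2 (n + 1) h.choose.2)
      else s
  let st : ℕ → P × (ℕ → N) := fun n => Nat.rec (p0, fun _ => x0) step n
  have st_succ : ∀ n, st (n + 1) = step n (st n) := fun n => rfl
  have step_le : ∀ n s, (step n s).1 ≤ s.1 := by
    intro n s
    simp only [step]
    split
    · exact le_rfl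
    · split
      · next h => exact h.choose_spec.1
      · exact le_rfl
  have step_fix : ∀ n s i, i ≤ n → (step n s).2 i = s.2 i := by
    intro n s i hi
    simp only [step]
    split
    · rfl
    · split
      · exact Function.update_of_ne (by omega) _ _
      · rfl
  have step_H : ∀ n s, (∀ i, H (s.2 i)) → ∀ i, H ((step n s).2 i) := by
    intro n s hs i
    simp only [step]
    split
    · exact hs i
    · split
      · next h =>
        by_cases hi : i = n + 1
        · subst hi
          simp only [Function.update_self]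
          exact hW _ _ _ _ h.choose_spec.2
        · have e1 := Function.update_of_ne hi h.choose.2 s.2
          simp only [e1]
          exact hs i
      · exact hs i
  have st_H : ∀ n i, H ((st n).2 i) := by
    intro n
    induction n with
    | zero => exact fun i => hx0
    | succ n ih => exact step_H n _ ih
  have anti : Antitone fun n => (st n).1 := antitone_nat_of_succ_le fun n => step_le n _
  have stab : ∀ i n, i ≤ n → (st n).2 i = (st i).2 i := by
    intro i n hin
    induction n, hin using Nat.le_induction with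
    | base => rfl
    | succ n hn ih => rw [← ih, st_succ]; exact step_fix n _ i hn
  refine ⟨fun n => (st n).1, Set.range fun i => (st i).2 i, Set.countable_range _, anti, le_rfl,
    ⟨0, rfl⟩, ?_, ?_⟩
  · rintro _ ⟨i, rfl⟩
    exact st_H i i
  · intro r t ht
    choose! j hj using ht
    let t' : List ℕ := t.map j
    have ht' : t'.map (fun i => (st i).2 i) = t := by
      simp only [t', List.map_map]
      conv_rhs => rw [← List.map_id t]
      apply List.map_congr_left
      intro σ hσ
      exact hj σ hσ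
    -- choose a late stage
    let m : ℕ := t'.sum
    let c : ℕ := Encodable.encode ((r, t') : R × List ℕ)
    let n : ℕ := Nat.pair c m
    have hn : m ≤ n := Nat.right_le_pair _ _
    have hdec : dec n = some (r, t') := by
      simp only [dec, n, Nat.unpair_pair, c, Encodable.encodek]
    have hmap : t'.map (st n).2 = t := by
      rw [← ht']
      apply List.map_congr_left
      intro i hi
      apply stab
      exact (List.le_sum_of_mem hi).trans hn
    by_cases h : ∃ qx : P × N, qx.1 ≤ (st n).1 ∧ W r (t'.map (st n).2) qx.1 qx.2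
    · refine ⟨n + 1, Or.inl ⟨_, ⟨n + 1, rfl⟩, ?_⟩⟩
      have e1 : st (n + 1) = (h.choose.1, Function.update (st n).2 (n + 1) h.choose.2) := by
        rw [st_succ]
        simp only [step, hdec]
        rw [dif_pos h]
      have h2 := h.choose_spec.2
      have h3 : ∀ q x, W r (t'.map (st n).2) q x → W r t q x := by
        rw [hmap]
        exact fun _ _ h => h
      simp only [e1, Function.update_self]
      exact h3 _ _ h2
    · refine ⟨n, Or.inr ?_⟩
      intro q hq x hx
      apply h
      refine ⟨(q, x), hq, ?_⟩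
      rw [hmap]
      exact hx

end Pool.Agent.Helper87.Sym
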