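import Pool.Agent.Helper87.SymExist

/-!
# Symmetric forcing, part 4: countable generic fragments and their transitive collapse
-/

set_option autoImplicit false

namespace Pool.Agent.Helper87.Sym

open Nm

deriving instance Countable for Fml

/-- Check names. -/
def chk {P : Type} [Preorder P] [OrderTop P] : PSet.{0} → Nm P
  | ⟨α, A⟩ => .mk α (fun a => chk (A a)) (fun _ => ⊤)

/-- The basic requirements on a generic sequence. -/
inductive Req0 : Type
  | mem | diff | omg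
  | num (n : ℕ)
  | dec (φ : Fml)
  | cex (φ : Fml)
  | char (χ : Fml)
  | coll (φ : Fml)
  deriving Countable

variable {P : Type} [Preorder P] [OrderTop P] {G : Type} [Group G] [MulAction G P]

/-- The assignment of a list. -/
def asg (t : List (Nm P)) : ℕ → Nm P := fun i => t.getD i emptyN

/-- The first `n` values of an assignment. -/
def trunc (v : ℕ → Nm P) (n : ℕ) : ℕ → Nm P := asg ((List.range n).map v)

omit [Preorder P] [OrderTop P] in
theorem trunc_lt {v : ℕ → Nm P} {n i : ℕ} (hi : i < n) : trunc v n i = v i := by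
  simp [trunc, asg, hi]

/-- The meaning of the basic requirements. -/
def W0 (𝔖 : SymSys P G) : Req0 → (ℕ → Nm P) → P → Nm P → Prop
  | .mem, v, p, x => ∃ j : (v 1).Idx, x = (v 1).child j ∧ p ≤ (v 1).cond j ∧ feq (v 0) x p
  | .diff, v, p, x =>
      (∃ i : (v 0).Idx, x = (v 0).child i ∧ p ≤ (v 0).cond i ∧ ∀ q, q ≤ p → ¬ fmem x (v 1) q) ∨
      (∃ i : (v 1).Idx, x = (v 1).child i ∧ p ≤ (v 1).cond i ∧ ∀ q, q ≤ p → ¬ fmem x (v 0) q)
  | .omg, _, _, x => x = chk PSet.omega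
  | .num n, _, _, x => x = chk (PSet.ofNat n)
  | .dec φ, v, p, _ => Fc 𝔖 φ v p
  | .cex φ, v, p, x => ∀ q, q ≤ p → ¬ Fc 𝔖 φ (cons x v) q
  | .char χ, v, _, x => Char 𝔖 χ v x
  | .coll φ, v, _, x => ∀ σ, HS 𝔖 σ → ∀ p, fmem σ (v 0) p →
      Fc 𝔖 (.ex φ) (cons σ fun i => v (i + 1)) p →
      ∀ q, q ≤ p → ∃ r, r ≤ q ∧ ∃ y, HS 𝔖 y ∧ fmem y x r ∧
        Fc 𝔖 φ (cons y (cons σ fun i => v (i + 1))) r

/-- A generic sequence of conditions with a countable set of names. -/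
structure Gen (𝔖 : SymSys P G) {R : Type} (W : R → (ℕ → Nm P) → P → Nm P → Prop) where
  /-- the conditions -/
  pc : ℕ → P
  /-- the names -/
  N : Set (Nm P)
  count : N.Countable
  anti : Antitone pc
  empty_mem : emptyN ∈ N
  hs : ∀ x ∈ N, HS 𝔖 x
  req0 : ∀ (r : Req0) (t : List (Nm P)), (∀ x ∈ t, x ∈ N) →
    ∃ k, (∃ x ∈ N, W0 𝔖 r (asg t) (pc k) x) ∨
      ∀ q, q ≤ pc k → ∀ x, HS 𝔖 x → ¬ W0 𝔖 r (asg t) q x
  req : ∀ (r : R) (t : List (Nm P)), (∀ x ∈ t, x ∈ N) →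
    ∃ k, (∃ x ∈ N, W r (asg t) (pc k) x) ∨
      ∀ q, q ≤ pc k → ∀ x, HS 𝔖 x → ¬ W r (asg t) q x

theorem exists_gen (𝔖 : SymSys P G) {R : Type} [Countable R]
    (W : R → (ℕ → Nm P) → P → Nm P → Prop) : Nonempty (Gen 𝔖 W) := by
  obtain ⟨pc, N, h1, h2, -, h4, h5, h6⟩ := exists_generic (R := Req0 ⊕ R) (N := Nm P)
    (fun r t p x => HS 𝔖 x ∧ Sum.elim (fun r => W0 𝔖 r (asg t) p x) (fun r => W r (asg t) p x) r)
    (⊤ : P) emptyN (HS 𝔖) HS_emptyN (fun r t p x h => h.1)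
  refine ⟨⟨pc, N, h1, h2, h4, h5, ?_, ?_⟩⟩
  · intro r t ht
    obtain ⟨k, hk⟩ := h6 (Sum.inl r) t ht
    refine ⟨k, ?_⟩
    rcases hk with ⟨x, hx, hx'⟩ | hk
    · exact Or.inl ⟨x, hx, hx'.2⟩
    · exact Or.inr fun q hq x hx hx' => hk q hq x ⟨hx, hx'⟩
  · intro r t ht
    obtain ⟨k, hk⟩ := h6 (Sum.inr r) t ht
    refine ⟨k, ?_⟩
    rcases hk with ⟨x, hx, hx'⟩ | hk
    · exact Or.inl ⟨x, hx, hx'.2⟩
    · exact Or.inr fun q hq x hx hx' => hk q hq x ⟨hx, hx'⟩

/-- The evaluation of names. -/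
noncomputable def vl (N : Set (Nm P)) (F : Set P) : Nm P → ZFSet.{0}
  | .mk ι x c => ZFSet.range fun i : {i : ι // x i ∈ N ∧ c i ∈ F} => vl N F (x i.1)

namespace Gen

variable {𝔖 : SymSys P G} {R : Type} {W : R → (ℕ → Nm P) → P → Nm P → Prop} (g : Gen 𝔖 W)

/-- The generic filter. -/
def F : Set P := {p | ∃ k, g.pc k ≤ p}

/-- The value of a name. -/
noncomputable def val (τ : Nm P) : ZFSet.{0} := vl g.N g.F τ

/-- The model. -/
def M : Set ZFSet.{0} := g.val '' g.N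

theorem mem_val {τ : Nm P} {x : ZFSet.{0}} :
    x ∈ g.val τ ↔ ∃ i : τ.Idx, τ.child i ∈ g.N ∧ (∃ k, g.pc k ≤ τ.cond i) ∧ g.val (τ.child i) = x := by
  cases τ with
  | mk ι y c =>
    unfold val
    rw [vl, ZFSet.mem_range]
    constructor
    · rintro ⟨⟨i, h1, h2⟩, h3⟩
      exact ⟨i, h1, h2, h3⟩
    · rintro ⟨i, h1, h2, h3⟩
      exact ⟨⟨i, h1, h2⟩, h3⟩

theorem trans {x y : ZFSet.{0}} (hx : x ∈ g.M) (hy : y ∈ x) : y ∈ g.M := by
  obtain ⟨τ, hτ, rfl⟩ := hx
  obtain ⟨i, h1, -, h3⟩ := g.mem_val.1 hy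
  exact ⟨_, h1, h3⟩

theorem countable_M : g.M.Countable := g.count.image _

theorem pc_le {k l : ℕ} (h : k ≤ l) : g.pc l ≤ g.pc k := g.anti h

theorem mem_req {σ τ : Nm P} (hσ : σ ∈ g.N) (hτ : τ ∈ g.N) {k : ℕ} (h : fmem σ τ (g.pc k)) :
    ∃ i : τ.Idx, τ.child i ∈ g.N ∧ ∃ l, g.pc l ≤ τ.cond i ∧ feq σ (τ.child i) (g.pc l) := by
  obtain ⟨l, hl⟩ := g.req0 .mem [σ, τ] (by simp [hσ, hτ])
  rcases hl with ⟨x, hx, j, rfl, h1, h2⟩ | hl
  · exact ⟨j, hx, l, h1, h2⟩
  · exfalso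
    obtain ⟨s, hs, j, hj, hj'⟩ := h (g.pc (max k l)) (g.pc_le (le_max_left _ _))
    exact hl s (hs.trans (g.pc_le (le_max_right _ _))) (τ.child j) ((g.hs τ hτ).child j)
      ⟨j, rfl, hj, hj'⟩

theorem eq_iff {σ τ : Nm P} (hσ : σ ∈ g.N) (hτ : τ ∈ g.N) :
    (∃ k, feq σ τ (g.pc k)) ↔ g.val σ = g.val τ := by
  induction σ generalizing τ with
  | mk ι x c ih =>
    constructor
    · rintro ⟨k, hk⟩
      ext z
      constructor
      · intro hz
        obtain ⟨i, h1, ⟨l, h2⟩, h3⟩ := g.mem_val.1 hz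
        have h4 : fmem ((Nm.mk ι x c).child i) τ (g.pc (max k l)) :=
          fmem_congr_right (feq_mono hk (g.pc_le (le_max_left _ _)))
            (fmem_child _ _ ((g.pc_le (le_max_right _ _)).trans h2))
        obtain ⟨j, hj, m, hm, hm'⟩ := g.mem_req h1 hτ h4
        have h5 := (ih i h1 hj).1 ⟨m, hm'⟩
        exact g.mem_val.2 ⟨j, hj, ⟨m, hm⟩, h5.symm.trans h3⟩
      · intro hz
        obtain ⟨j, h1, ⟨l, h2⟩, h3⟩ := g.mem_val.1 hz
        have h4 : fmem (τ.child j) (Nm.mk ι x c) (g.pc (max k l)) :=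
          fmem_congr_right (feq_symm (feq_mono hk (g.pc_le (le_max_left _ _))))
            (fmem_child _ _ ((g.pc_le (le_max_right _ _)).trans h2))
        obtain ⟨i, hi, m, hm, hm'⟩ := g.mem_req h1 hσ h4
        have h5 := (ih i hi h1).1 ⟨m, feq_symm hm'⟩
        exact g.mem_val.2 ⟨i, hi, ⟨m, hm⟩, h5.trans h3⟩
    · intro h
      obtain ⟨k, hk⟩ := g.req0 .diff [Nm.mk ι x c, τ] (by simp [hσ, hτ])
      rcases hk with ⟨z, hz, hk⟩ | hk
      · exfalso
        rcases hk with ⟨i, hi, h1, h2⟩ | ⟨j, hj, h1, h2⟩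
        · change z = x i at hi
          subst hi
          have h3 : g.val (x i) ∈ g.val τ := by
            rw [← h]
            exact g.mem_val.2 ⟨i, hz, ⟨k, h1⟩, rfl⟩
          obtain ⟨j, hj, ⟨l, hl⟩, h4⟩ := g.mem_val.1 h3
          obtain ⟨m, hm⟩ := (ih i hz hj).2 h4.symm
          have h5 : fmem (x i) τ (g.pc (max m (max k l))) :=
            fmem_congr_left (feq_symm (feq_mono hm (g.pc_le (le_max_left _ _))))
              (fmem_child _ _ ((g.pc_le ((le_max_right _ _).trans (le_max_right _ _))).trans hl))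
          exact h2 _ (g.pc_le ((le_max_left _ _).trans (le_max_right _ _))) h5
        · change z = τ.child j at hj
          subst hj
          have h3 : g.val (τ.child j) ∈ g.val (Nm.mk ι x c) := by
            rw [h]
            exact g.mem_val.2 ⟨j, hz, ⟨k, h1⟩, rfl⟩
          obtain ⟨i, hi, ⟨l, hl⟩, h4⟩ := g.mem_val.1 h3
          obtain ⟨m, hm⟩ := (ih i hi hz).2 h4
          have h5 : fmem (τ.child j) (Nm.mk ι x c) (g.pc (max m (max k l))) :=
            fmem_congr_left (feq_mono hm (g.pc_le (le_max_left _ _)))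
              (fmem_child _ _ ((g.pc_le ((le_max_right _ _).trans (le_max_right _ _))).trans hl))
          exact h2 _ (g.pc_le ((le_max_left _ _).trans (le_max_right _ _))) h5
      · refine ⟨k, ?_⟩
        by_contra hne
        have : ¬ ((∀ i : (Nm.mk ι x c).Idx, ∀ q, q ≤ g.pc k → q ≤ (Nm.mk ι x c).cond i →
              fmem ((Nm.mk ι x c).child i) τ q) ∧
            (∀ i : τ.Idx, ∀ q, q ≤ g.pc k → q ≤ τ.cond i → fmem (τ.child i) (Nm.mk ι x c) q)) :=
          fun h => hne (feq_of_fmem h.1 h.2)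
        rw [not_and_or] at this
        rcases this with h1 | h1
        · push Not at h1
          obtain ⟨i, q, hq, hqi, h2⟩ := h1
          have h3 : ∃ r, r ≤ q ∧ ∀ s, s ≤ r → ¬ fmem ((Nm.mk ι x c).child i) τ s := by
            by_contra h4
            push Not at h4
            exact h2 (fmem_dense h4)
          obtain ⟨r, hr, hr'⟩ := h3
          exact hk r (hr.trans hq) _ ((g.hs _ hσ).child i)
            (Or.inl ⟨i, rfl, hr.trans hqi, hr'⟩)
        · push Not at h1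
          obtain ⟨i, q, hq, hqi, h2⟩ := h1
          have h3 : ∃ r, r ≤ q ∧ ∀ s, s ≤ r → ¬ fmem (τ.child i) (Nm.mk ι x c) s := by
            by_contra h4
            push Not at h4
            exact h2 (fmem_dense h4)
          obtain ⟨r, hr, hr'⟩ := h3
          exact hk r (hr.trans hq) _ ((g.hs _ hτ).child i)
            (Or.inr ⟨i, rfl, hr.trans hqi, hr'⟩)

theorem mem_iff {σ τ : Nm P} (hσ : σ ∈ g.N) (hτ : τ ∈ g.N) :
    (∃ k, fmem σ τ (g.pc k)) ↔ g.val σ ∈ g.val τ := by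
  constructor
  · rintro ⟨k, hk⟩
    obtain ⟨i, hi, l, hl, hl'⟩ := g.mem_req hσ hτ hk
    exact g.mem_val.2 ⟨i, hi, ⟨l, hl⟩, ((g.eq_iff hσ hi).1 ⟨l, hl'⟩).symm⟩
  · intro h
    obtain ⟨i, hi, ⟨l, hl⟩, h3⟩ := g.mem_val.1 h
    obtain ⟨m, hm⟩ := (g.eq_iff hi hσ).2 h3
    exact ⟨max l m, fmem_congr_left (feq_mono hm (g.pc_le (le_max_right _ _)))
      (fmem_child _ _ ((g.pc_le (le_max_left _ _)).trans hl))⟩

theorem trunc_mem {v : ℕ → Nm P} (hv : ∀ i, v i ∈ g.N) (n : ℕ) :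
    ∀ x ∈ (List.range n).map v, x ∈ g.N := by
  intro x hx
  obtain ⟨i, -, rfl⟩ := List.mem_map.1 hx
  exact hv i

/-- The truth lemma. -/
theorem truth (φ : Fml) {v : ℕ → Nm P} (hv : ∀ i, v i ∈ g.N) :
    (∃ k, Fc 𝔖 φ v (g.pc k)) ↔ Sat g.M φ (fun i => g.val (v i)) := by
  induction φ generalizing v with
  | bot => simp [Fc, Sat]
  | mem i j => exact g.mem_iff (hv i) (hv j)
  | eq i j => exact g.eq_iff (hv i) (hv j)
  | imp φ ψ ihφ ihψ =>
    rw [Sat_imp, ← ihφ hv, ← ihψ hv]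
    constructor
    · rintro ⟨k, hk⟩ ⟨l, hl⟩
      exact ⟨max k l, hk _ (g.pc_le (le_max_left _ _)) (Fc_mono hl (g.pc_le (le_max_right _ _)))⟩
    · intro h
      by_cases hψ : ∃ k, Fc 𝔖 ψ v (g.pc k)
      · obtain ⟨k, hk⟩ := hψ
        exact ⟨k, fun q hq _ => Fc_mono hk hq⟩
      · have hφ : ¬ ∃ k, Fc 𝔖 φ v (g.pc k) := fun hc => hψ (h hc)
        obtain ⟨k, hk⟩ := g.req0 (.dec φ) _ (g.trunc_mem hv φ.bd)
        have e : ∀ q, Fc 𝔖 φ (trunc v φ.bd) q ↔ Fc 𝔖 φ v q := fun q =>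
          Fc_bd fun i hi => trunc_lt hi
        rcases hk with ⟨x, -, hx⟩ | hk
        · exact absurd ⟨k, (e _).1 hx⟩ hφ
        · refine ⟨k, fun q hq hq' => ?_⟩
          exact absurd ((e _).2 hq') (hk q hq emptyN HS_emptyN)
  | all φ ih =>
    rw [Sat_all]
    constructor
    · rintro ⟨k, hk⟩ x ⟨τ, hτ, rfl⟩
      have h1 : ∀ i, (cons τ v) i ∈ g.N := by
        intro i
        cases i with
        | zero => exact hτ
        | succ i => exact hv i
      have h2 := (ih h1).1 ⟨k, hk τ (g.hs τ hτ)⟩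
      convert h2 using 1
      funext i
      cases i <;> rfl
    · intro h
      have h' : ∀ τ ∈ g.N, ∃ k, Fc 𝔖 φ (cons τ v) (g.pc k) := by
        intro τ hτ
        have h1 : ∀ i, (cons τ v) i ∈ g.N := by
          intro i
          cases i with
          | zero => exact hτ
          | succ i => exact hv i
        rw [ih h1]
        have h2 := h _ ⟨τ, hτ, rfl⟩
        convert h2 using 1
        funext i
        cases i <;> rfl
      obtain ⟨k, hk⟩ := g.req0 (.cex φ) _ (g.trunc_mem hv φ.bd)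
      have e : ∀ x q, Fc 𝔖 φ (cons x (trunc v φ.bd)) q ↔ Fc 𝔖 φ (cons x v) q := by
        intro x q
        refine Fc_bd fun i hi => ?_
        cases i with
        | zero => rfl
        | succ i => exact trunc_lt (by omega)
      rcases hk with ⟨x, hx, hx'⟩ | hk
      · exfalso
        obtain ⟨l, hl⟩ := h' x hx
        exact hx' (g.pc (max k l)) (g.pc_le (le_max_left _ _))
          ((e _ _).2 (Fc_mono hl (g.pc_le (le_max_right _ _))))
      · refine ⟨k, fun x hx => Fc_dense fun q hq => ?_⟩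
        have h1 := hk q hq x hx
        by_contra hc
        push Not at hc
        exact h1 fun r hr hr' => hc r hr ((e _ _).1 hr')

/-- Comprehension in the model. -/
theorem compr (χ : Fml) {v : ℕ → Nm P} (hv : ∀ i, v i ∈ g.N)
    (hx : ∃ x, HS 𝔖 x ∧ Char 𝔖 χ v x) :
    ∃ X ∈ g.M, ∀ y, y ∈ X ↔ y ∈ g.M ∧ Sat g.M χ (cons y fun i => g.val (v i)) := by
  obtain ⟨k, hk⟩ := g.req0 (.char χ) _ (g.trunc_mem hv χ.bd)
  have e : ∀ x q, Fc 𝔖 χ (cons x (trunc v χ.bd)) q ↔ Fc 𝔖 χ (cons x v) q := by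
    intro x q
    refine Fc_bd fun i hi => ?_
    cases i with
    | zero => rfl
    | succ i => exact trunc_lt (by omega)
  have h1 : ∃ x ∈ g.N, Char 𝔖 χ v x := by
    rcases hk with ⟨x, h1, h2⟩ | hk
    · refine ⟨x, h1, fun ρ hρ p => ?_⟩
      rw [← e]
      exact h2 ρ hρ p
    · exfalso
      obtain ⟨x, hx1, hx2⟩ := hx
      refine hk _ le_rfl x hx1 fun ρ hρ p => ?_
      change _ ↔ Fc 𝔖 χ (cons ρ (trunc v χ.bd)) p
      rw [e]
      exact hx2 ρ hρ p
  obtain ⟨σ, hσ, hσ'⟩ := h1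
  refine ⟨g.val σ, ⟨σ, hσ, rfl⟩, fun y => ?_⟩
  have key : ∀ ρ ∈ g.N, (g.val ρ ∈ g.val σ ↔ Sat g.M χ (cons (g.val ρ) fun i => g.val (v i))) := by
    intro ρ hρ
    rw [← g.mem_iff hρ hσ]
    have h1 : ∀ i, (cons ρ v) i ∈ g.N := by
      intro i
      cases i with
      | zero => exact hρ
      | succ i => exact hv i
    have h2 := g.truth χ h1
    have h3 : (fun i => g.val (cons ρ v i)) = cons (g.val ρ) fun i => g.val (v i) := by
      funext i
      cases i <;> rfl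
    rw [h3] at h2
    rw [← h2]
    exact exists_congr fun k => hσ' ρ (g.hs ρ hρ) _
  constructor
  · intro hy
    have hyM : y ∈ g.M := g.trans ⟨σ, hσ, rfl⟩ hy
    obtain ⟨ρ, hρ, rfl⟩ := hyM
    exact ⟨⟨ρ, hρ, rfl⟩, (key ρ hρ).1 hy⟩
  · rintro ⟨⟨ρ, hρ, rfl⟩, h⟩
    exact (key ρ hρ).2 h

end Gen

namespace Gen

variable {𝔖 : SymSys P G} {R : Type} {W : R → (ℕ → Nm P) → P → Nm P → Prop} (g : Gen 𝔖 W)

theorem Feq_act_chk [ActMono P G] (h : G) (x : PSet) : Feq (act h (chk x : Nm P)) (chk x) := by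
  induction x with
  | mk α A ih =>
    refine Feq.of_children (fun a => ⟨a, le_top, ih a⟩) (fun a => ⟨a, le_smul_top h _, ih a⟩)

theorem HS_chk [ActMono P G] (x : PSet) : HS 𝔖 (chk x) := by
  induction x with
  | mk α A ih =>
    obtain ⟨u⟩ := 𝔖.nonempty
    exact ⟨⟨u, fun h _ => Feq_act_chk h ⟨α, A⟩⟩, ih⟩

theorem chk_num_mem [ActMono P G] (n : ℕ) : chk (PSet.ofNat n) ∈ g.N := by
  obtain ⟨k, hk⟩ := g.req0 (.num n) [] (by simp)
  rcases hk with ⟨x, h1, h2⟩ | hk
  · change x = _ at h2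
    rw [← h2]
    exact h1
  · exact absurd rfl (hk _ le_rfl (chk (PSet.ofNat n)) (HS_chk _))

theorem chk_omega_mem [ActMono P G] : chk PSet.omega ∈ g.N := by
  obtain ⟨k, hk⟩ := g.req0 .omg [] (by simp)
  rcases hk with ⟨x, h1, h2⟩ | hk
  · change x = _ at h2
    rw [← h2]
    exact h1
  · exact absurd rfl (hk _ le_rfl (chk PSet.omega) (HS_chk _))

theorem top_mem_F : (⊤ : P) ∈ g.F := ⟨0, le_top⟩

/-- All hereditary members have their check names in the fragment. -/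
def Hered (N : Set (Nm P)) : PSet.{0} → Prop
  | ⟨_, A⟩ => ∀ a, chk (A a) ∈ N ∧ Hered N (A a)

theorem val_chk {x : PSet} (h : Hered g.N x) : g.val (chk x) = ZFSet.mk x := by
  induction x with
  | mk α A ih =>
    ext z
    rw [g.mem_val]
    constructor
    · rintro ⟨a, h1, h2, h3⟩
      change g.val (chk (A a)) = z at h3
      rw [← h3, ih a (h a).2, ZFSet.mk_mem_iff]
      exact ⟨a, PSet.Equiv.rfl⟩
    · intro hz
      obtain ⟨y, rfl⟩ := Quotient.exists_rep z
      obtain ⟨a, ha⟩ : y ∈ (⟨α, A⟩ : PSet) := hz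
      refine ⟨a, (h a).1, g.top_mem_F, ?_⟩
      change g.val (chk (A a)) = _
      rw [ih a (h a).2]
      exact (ZFSet.sound ha).symm

theorem hered_num [ActMono P G] (n : ℕ) : Hered g.N (PSet.ofNat n) := by
  induction n with
  | zero => exact fun a => a.elim
  | succ n ih =>
    have h1 := g.chk_num_mem n
    change Hered g.N (PSet.insert (PSet.ofNat n) (PSet.ofNat n))
    generalize PSet.ofNat n = x at ih h1
    cases x with
    | mk α A =>
      intro o
      cases o with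
      | none => exact ⟨h1, ih⟩
      | some a => exact ih a

/-- The natural number `n` as a set. -/
def nat (n : ℕ) : ZFSet.{0} := ZFSet.mk (PSet.ofNat n)

theorem val_num [ActMono P G] (n : ℕ) : g.val (chk (PSet.ofNat n)) = nat n :=
  g.val_chk (g.hered_num n)

theorem val_omega [ActMono P G] : g.val (chk PSet.omega) = ZFSet.omega := by
  apply g.val_chk
  exact fun a => ⟨g.chk_num_mem _, g.hered_num _⟩

theorem val_empty : g.val emptyN = ∅ := by
  ext z
  rw [g.mem_val]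
  constructor
  · rintro ⟨i, -⟩
    exact i.elim
  · intro h
    simp at h

theorem isModel [ActMono P G] : IsTransModelZF g.M where
  trans := fun x hx y hy => g.trans hx hy
  pair := by
    rintro _ ⟨σ, hσ, rfl⟩ _ ⟨τ, hτ, rfl⟩
    have hv : ∀ i, (cons σ fun _ => τ) i ∈ g.N := by
      intro i
      cases i with
      | zero => exact hσ
      | succ i => exact hτ
    obtain ⟨X, hX, hX'⟩ := g.compr (.or (.eq 0 1) (.eq 0 2)) hv
      ⟨upairN σ τ, HS_upairN (g.hs _ hσ) (g.hs _ hτ), char_upairN _⟩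
    convert hX using 1
    ext z
    rw [hX', ZFSet.mem_pair]
    simp only [Sat_or, Sat_eq, cons_zero, cons_succ]
    constructor
    · rintro (rfl | rfl)
      · exact ⟨⟨σ, hσ, rfl⟩, Or.inl rfl⟩
      · exact ⟨⟨τ, hτ, rfl⟩, Or.inr rfl⟩
    · exact fun h => h.2
  union := by
    rintro _ ⟨τ, hτ, rfl⟩
    obtain ⟨X, hX, hX'⟩ := g.compr (.ex (.and (.mem 0 2) (.mem 1 0))) (v := fun _ => τ)
      (fun _ => hτ) ⟨unionN τ, HS_unionN (g.hs _ hτ), char_unionN _ (g.hs _ hτ)⟩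
    convert hX using 1
    ext z
    rw [hX', ZFSet.mem_sUnion]
    simp only [Sat_ex, Sat_and, Sat_mem, cons_zero, cons_succ]
    constructor
    · rintro ⟨y, hy, hz⟩
      have hyM : y ∈ g.M := g.trans ⟨τ, hτ, rfl⟩ hy
      exact ⟨g.trans hyM hz, y, hyM, hy, hz⟩
    · rintro ⟨-, y, -, hy, hz⟩
      exact ⟨y, hy, hz⟩
  power := by
    rintro _ ⟨τ, hτ, rfl⟩
    obtain ⟨X, hX, hX'⟩ := g.compr (.all (.imp (.mem 0 1) (.mem 0 2))) (v := fun _ => τ)
      (fun _ => hτ) ⟨powN 𝔖 τ, HS_powN (g.hs _ hτ), char_powN _ (g.hs _ hτ)⟩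
    refine ⟨X, hX, fun z => ?_⟩
    rw [hX']
    simp only [Sat_all, Sat_imp, Sat_mem, cons_zero, cons_succ]
    constructor
    · rintro ⟨hz, h⟩
      exact ⟨hz, fun y hy => h y (g.trans hz hy) hy⟩
    · rintro ⟨hz, h⟩
      exact ⟨hz, fun y _ hy => h hy⟩
  inf := ⟨_, g.chk_omega_mem, g.val_omega⟩
  sep := by
    rintro φ v hv _ ⟨τ, hτ, rfl⟩
    choose w hw hw' using hv
    have hv' : ∀ i, putAt φ.bd τ w i ∈ g.N := by
      intro i
      unfold putAt
      split
      · exact hw i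
      · exact hτ
    obtain ⟨X, hX, hX'⟩ := g.compr (.and (.mem 0 (φ.bd + 1)) φ) hv'
      ⟨sepN 𝔖 φ τ w, HS_sepN (g.hs _ hτ) (fun i => g.hs _ (hw i)), char_sepN⟩
    refine ⟨X, hX, fun z => ?_⟩
    rw [hX', Sat_and]
    have e1 : Sat g.M (.mem 0 (φ.bd + 1)) (cons z fun i => g.val (putAt φ.bd τ w i)) ↔
        z ∈ g.val τ := by
      simp only [Sat_mem, cons_zero, cons_succ, putAt_self]
    have e2 : Sat g.M φ (cons z fun i => g.val (putAt φ.bd τ w i)) ↔ Sat g.M φ (cons z v) := by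
      apply Sat_bd
      intro i hi
      cases i with
      | zero => rfl
      | succ i =>
        simp only [cons_succ]
        rw [putAt_lt (by omega), hw' i]
    rw [e1, e2]
    constructor
    · exact fun h => h.2
    · exact fun h => ⟨g.trans ⟨τ, hτ, rfl⟩ h.1, h⟩
  repl := by
    rintro φ v hv _ ⟨τ, hτ, rfl⟩ hfun
    choose w hw hw' using hv
    -- the collecting name
    have hw1 : ∀ i, cons τ w i ∈ g.N := by
      intro i
      cases i with
      | zero => exact hτ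
      | succ i => exact hw i
    obtain ⟨k, hk⟩ := g.req0 (.coll φ) _ (g.trunc_mem hw1 (φ.bd + 1))
    have h0 : asg ((List.range (φ.bd + 1)).map (cons τ w)) 0 = τ :=
      trunc_lt (v := cons τ w) (n := φ.bd + 1) (i := 0) (by omega)
    have hs : ∀ i, i < φ.bd → asg ((List.range (φ.bd + 1)).map (cons τ w)) (i + 1) = w i :=
      fun i hi => trunc_lt (v := cons τ w) (n := φ.bd + 1) (i := i + 1) (by omega)
    have hB : ∃ β ∈ g.N, ∀ σ, HS 𝔖 σ → ∀ p, fmem σ τ p → Fc 𝔖 (.ex φ) (cons σ w) p →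
      ∀ q, q ≤ p → ∃ r, r ≤ q ∧ ∃ y, HS 𝔖 y ∧ fmem y β r ∧ Fc 𝔖 φ (cons y (cons σ w)) r := by
      rcases hk with ⟨β, h1, h2⟩ | hk
      · refine ⟨β, h1, fun σ hσ p hp hp' q hq => ?_⟩
        have e1 : Fc 𝔖 (.ex φ) (cons σ fun i =>
            asg ((List.range (φ.bd + 1)).map (cons τ w)) (i + 1)) p := by
          refine (Fc_bd ?_).1 hp'
          intro i hi
          simp only [Fml.ex, Fml.neg, Fml.bd] at hi
          cases i with
          | zero => rfl
          | succ i => exact (hs i (by omega)).symm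
        obtain ⟨r, hr, y, hy, hy', hy''⟩ := h2 σ hσ p (by rw [h0]; exact hp) e1 q hq
        refine ⟨r, hr, y, hy, hy', (Fc_bd ?_).1 hy''⟩
        intro i hi
        rcases i with _ | _ | i
        · rfl
        · rfl
        · exact hs i (by omega)
      · exfalso
        obtain ⟨β, hβ, hβ'⟩ := exists_coll (𝔖 := 𝔖) (φ := φ) (τ := τ)
          (v := fun i => asg ((List.range (φ.bd + 1)).map (cons τ w)) (i + 1))
        refine hk _ le_rfl β hβ ?_
        intro σ hσ p hp hp'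
        rw [h0] at hp
        exact hβ' σ hσ p hp hp'
    obtain ⟨β, hβ, hβ'⟩ := hB
    refine ⟨g.val β, ⟨β, hβ, rfl⟩, ?_⟩
    rintro x hx y hy hφ
    obtain ⟨σ, hσ, rfl⟩ := g.trans ⟨τ, hτ, rfl⟩ hx
    obtain ⟨ρ, hρ, rfl⟩ := hy
    -- forced instance
    have e0 : (fun i => g.val (cons ρ (cons σ w) i)) = cons (g.val ρ) (cons (g.val σ) v) := by
      funext i
      rcases i with _ | _ | i
      · rfl
      · rfl
      · exact hw' i
    have hN : ∀ i, cons ρ (cons σ w) i ∈ g.N := by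
      intro i
      rcases i with _ | _ | i
      · exact hρ
      · exact hσ
      · exact hw i
    obtain ⟨k1, hk1⟩ := (g.truth φ hN).2 (by rw [e0]; exact hφ)
    obtain ⟨k2, hk2⟩ := (g.mem_iff hσ hτ).2 hx
    have h1 : fmem σ τ (g.pc (max k1 k2)) := fmem_mono hk2 (g.pc_le (le_max_right _ _))
    have h2 : Fc 𝔖 (.ex φ) (cons σ w) (g.pc (max k1 k2)) :=
      Fc_ex_of (g.hs _ hρ) (Fc_mono hk1 (g.pc_le (le_max_left _ _)))
    -- the formula `∃ y ∈ β, φ`
    have hN2 : ∀ i, cons σ (putAt φ.bd β w) i ∈ g.N := by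
      intro i
      cases i with
      | zero => exact hσ
      | succ i =>
        simp only [cons_succ]
        unfold putAt
        split
        · exact hw i
        · exact hβ
    have h3 : Fc 𝔖 (.ex (.and (.mem 0 (φ.bd + 2)) φ)) (cons σ (putAt φ.bd β w))
        (g.pc (max k1 k2)) := by
      rw [Fc_ex]
      intro q hq
      obtain ⟨r, hr, y, hy, hy', hy''⟩ := hβ' σ (g.hs _ hσ) _ h1 h2 q hq
      refine ⟨r, hr, y, hy, ?_⟩
      rw [Fc_and]
      constructor
      · simp only [Fc, cons_zero, cons_succ, putAt_self]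
        exact hy'
      · refine (Fc_bd ?_).1 hy''
        intro i hi
        rcases i with _ | _ | i
        · rfl
        · rfl
        · have h7 : putAt φ.bd β w i = w i := putAt_lt (by omega)
          exact h7.symm
    have h4 := (g.truth _ hN2).1 ⟨_, h3⟩
    rw [Sat_ex] at h4
    obtain ⟨y, hyM, hy⟩ := h4
    rw [Sat_and] at hy
    obtain ⟨hy1, hy2⟩ := hy
    have e1 : (fun i => g.val (cons σ (putAt φ.bd β w) i)) =
        cons (g.val σ) fun i => g.val (putAt φ.bd β w i) := by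
      funext i
      cases i <;> rfl
    rw [e1] at hy1 hy2
    have hy3 : y ∈ g.val β := by
      simp only [Sat_mem, cons_zero, cons_succ, putAt_self] at hy1
      exact hy1
    have hy4 : Sat g.M φ (cons y (cons (g.val σ) v)) := by
      refine (Sat_bd ?_).1 hy2
      intro i hi
      rcases i with _ | _ | i
      · rfl
      · rfl
      · simp only [cons_succ]
        rw [putAt_lt (by omega), hw' i]
    obtain ⟨z, -, hz⟩ := hfun _ hx
    have h5 := hz y ⟨hyM, hy4⟩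
    have h6 := hz (g.val ρ) ⟨⟨ρ, hρ, rfl⟩, hφ⟩
    rw [h6, ← h5]
    exact hy3

end Gen

end Pool.Agent.Helper87.Sym
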