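import Pool.Agent.Helper87.ModelDefs

/-!
# Symmetric forcing, part 1: names, the forcing relation for atomic formulas, and for formulas
-/

set_option autoImplicit false

namespace Pool.Agent.Helper87.Sym

universe u

@[simp] theorem cons_zero {α : Type u} (x : α) (v : ℕ → α) : cons x v 0 = x := rfl
@[simp] theorem cons_succ {α : Type u} (x : α) (v : ℕ → α) (n : ℕ) : cons x v (n+1) = v n := rfl

/-- `P`-names. -/
inductive Nm (P : Type) : Type 1
  | mk (ι : Type) (x : ι → Nm P) (c : ι → P) : Nm P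

namespace Nm

variable {P : Type}

/-- The index type of a name. -/
def Idx : Nm P → Type
  | mk ι _ _ => ι

/-- The members of a name. -/
def child : (τ : Nm P) → τ.Idx → Nm P
  | mk _ x _ => x

/-- The conditions of a name. -/
def cond : (τ : Nm P) → τ.Idx → P
  | mk _ _ c => c

@[simp] theorem eta (τ : Nm P) : mk τ.Idx τ.child τ.cond = τ := by cases τ; rfl

end Nm

open Nm

variable {P : Type} [Preorder P]

/-- `p` forces `σ = τ`. -/
def feq : Nm P → Nm P → P → Prop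
  | mk _ x c, mk _ y d => fun p =>
    (∀ i, ∀ q, q ≤ p → q ≤ c i → ∃ s, s ≤ q ∧ ∃ j, s ≤ d j ∧ feq (x i) (y j) s) ∧
    (∀ j, ∀ q, q ≤ p → q ≤ d j → ∃ s, s ≤ q ∧ ∃ i, s ≤ c i ∧ feq (x i) (y j) s)

/-- `p` forces `σ ∈ τ`. -/
def fmem (σ τ : Nm P) (p : P) : Prop :=
  ∀ q, q ≤ p → ∃ s, s ≤ q ∧ ∃ j : τ.Idx, s ≤ τ.cond j ∧ feq σ (τ.child j) s

theorem feq_iff (σ τ : Nm P) (p : P) : feq σ τ p ↔
    (∀ i : σ.Idx, ∀ q, q ≤ p → q ≤ σ.cond i →
      ∃ s, s ≤ q ∧ ∃ j : τ.Idx, s ≤ τ.cond j ∧ feq (σ.child i) (τ.child j) s) ∧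
    (∀ j : τ.Idx, ∀ q, q ≤ p → q ≤ τ.cond j →
      ∃ s, s ≤ q ∧ ∃ i : σ.Idx, s ≤ σ.cond i ∧ feq (σ.child i) (τ.child j) s) := by
  cases σ; cases τ; rfl

theorem feq_mono {σ τ : Nm P} {p q : P} (h : feq σ τ p) (hq : q ≤ p) : feq σ τ q := by
  rw [feq_iff] at h ⊢
  exact ⟨fun i r hr => h.1 i r (hr.trans hq), fun j r hr => h.2 j r (hr.trans hq)⟩

theorem feq_dense {σ τ : Nm P} {p : P} (h : ∀ q, q ≤ p → ∃ r, r ≤ q ∧ feq σ τ r) :
    feq σ τ p := by
  rw [feq_iff]
  constructor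
  · intro i q hq hqi
    obtain ⟨r, hr, hr'⟩ := h q hq
    rw [feq_iff] at hr'
    obtain ⟨s, hs, hs'⟩ := hr'.1 i r le_rfl (hr.trans hqi)
    exact ⟨s, hs.trans hr, hs'⟩
  · intro i q hq hqi
    obtain ⟨r, hr, hr'⟩ := h q hq
    rw [feq_iff] at hr'
    obtain ⟨s, hs, hs'⟩ := hr'.2 i r le_rfl (hr.trans hqi)
    exact ⟨s, hs.trans hr, hs'⟩

theorem fmem_mono {σ τ : Nm P} {p q : P} (h : fmem σ τ p) (hq : q ≤ p) : fmem σ τ q :=
  fun r hr => h r (hr.trans hq)

theorem fmem_dense {σ τ : Nm P} {p : P} (h : ∀ q, q ≤ p → ∃ r, r ≤ q ∧ fmem σ τ r) :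
    fmem σ τ p := by
  intro q hq
  obtain ⟨r, hr, hr'⟩ := h q hq
  obtain ⟨s, hs, hs'⟩ := hr' r le_rfl
  exact ⟨s, hs.trans hr, hs'⟩

theorem feq_refl (σ : Nm P) (p : P) : feq σ σ p := by
  induction σ generalizing p with
  | mk ι x c ih =>
    rw [feq_iff]
    exact ⟨fun i q _ hqi => ⟨q, le_rfl, i, hqi, ih i q⟩, fun i q _ hqi => ⟨q, le_rfl, i, hqi, ih i q⟩⟩

theorem feq_symm {σ τ : Nm P} {p : P} (h : feq σ τ p) : feq τ σ p := by
  induction σ generalizing τ p with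
  | mk ι x c ih =>
    cases τ with
    | mk κ y d =>
      rw [feq_iff] at h ⊢
      constructor
      · intro j q hq hqj
        obtain ⟨s, hs, i, hi, hi'⟩ := h.2 j q hq hqj
        exact ⟨s, hs, i, hi, ih i hi'⟩
      · intro i q hq hqi
        obtain ⟨s, hs, j, hj, hj'⟩ := h.1 i q hq hqi
        exact ⟨s, hs, j, hj, ih i hj'⟩

theorem feq_comm {σ τ : Nm P} {p : P} : feq σ τ p ↔ feq τ σ p := ⟨feq_symm, feq_symm⟩

theorem feq_trans {ρ σ τ : Nm P} {p : P} (h : feq ρ σ p) (h' : feq σ τ p) : feq ρ τ p := by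
  induction σ generalizing ρ τ p with
  | mk ι x c ih =>
    rw [feq_iff] at h h' ⊢
    constructor
    · intro i q hq hqi
      obtain ⟨s, hs, j, hj, hj'⟩ := h.1 i q hq hqi
      obtain ⟨t, ht, k, hk, hk'⟩ := h'.1 j s (hs.trans hq) hj
      exact ⟨t, ht.trans hs, k, hk, ih j (feq_mono hj' ht) hk'⟩
    · intro i q hq hqi
      obtain ⟨s, hs, j, hj, hj'⟩ := h'.2 i q hq hqi
      obtain ⟨t, ht, k, hk, hk'⟩ := h.2 j s (hs.trans hq) hj
      exact ⟨t, ht.trans hs, k, hk, ih j hk' (feq_mono hj' ht)⟩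

theorem fmem_congr_left {σ σ' τ : Nm P} {p : P} (h : feq σ σ' p) (h' : fmem σ τ p) :
    fmem σ' τ p := by
  intro q hq
  obtain ⟨s, hs, j, hj, hj'⟩ := h' q hq
  exact ⟨s, hs, j, hj, feq_trans (feq_symm (feq_mono h (hs.trans hq))) hj'⟩

theorem fmem_congr_right {σ τ τ' : Nm P} {p : P} (h : feq τ τ' p) (h' : fmem σ τ p) :
    fmem σ τ' p := by
  rw [feq_iff] at h
  intro q hq
  obtain ⟨s, hs, j, hj, hj'⟩ := h' q hq
  obtain ⟨t, ht, k, hk, hk'⟩ := h.1 j s (hs.trans hq) hj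
  exact ⟨t, ht.trans hs, k, hk, feq_trans (feq_mono hj' ht) hk'⟩

theorem fmem_child (τ : Nm P) (j : τ.Idx) {p : P} (h : p ≤ τ.cond j) : fmem (τ.child j) τ p :=
  fun q hq => ⟨q, le_rfl, j, hq.trans h, feq_refl _ _⟩

/-- Extensionality, in forcing form. -/
theorem feq_of_fmem {σ τ : Nm P} {p : P}
    (h1 : ∀ i : σ.Idx, ∀ q, q ≤ p → q ≤ σ.cond i → fmem (σ.child i) τ q)
    (h2 : ∀ i : τ.Idx, ∀ q, q ≤ p → q ≤ τ.cond i → fmem (τ.child i) σ q) : feq σ τ p := by
  rw [feq_iff]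
  constructor
  · intro i q hq hqi
    obtain ⟨s, hs, j, hj, hj'⟩ := h1 i q hq hqi q le_rfl
    exact ⟨s, hs, j, hj, hj'⟩
  · intro i q hq hqi
    obtain ⟨s, hs, j, hj, hj'⟩ := h2 i q hq hqi q le_rfl
    exact ⟨s, hs, j, hj, feq_symm hj'⟩

section Action

variable {G : Type} [Group G] [MulAction G P]

/-- The group acts by order automorphisms. -/
class ActMono (P G : Type) [Preorder P] [Group G] [MulAction G P] : Prop where
  smul_le : ∀ (g : G) {p q : P}, p ≤ q → g • p ≤ g • q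

theorem smul_le_iff [ActMono P G] (g : G) {p q : P} : g • p ≤ g • q ↔ p ≤ q := by
  constructor
  · intro h
    have := ActMono.smul_le g⁻¹ h
    simpa using this
  · exact ActMono.smul_le g

theorem smul_le_iff' [ActMono P G] (g : G) {p q : P} : g • p ≤ q ↔ p ≤ g⁻¹ • q := by
  rw [← smul_le_iff g (p := p), smul_inv_smul]

/-- The action of the group on names. -/
def act (g : G) : Nm P → Nm P
  | mk ι x c => mk ι (fun i => act g (x i)) (fun i => g • c i)

omit [Preorder P] in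
theorem act_one (τ : Nm P) : act (1 : G) τ = τ := by
  induction τ with
  | mk ι x c ih => simp only [act, one_smul]; congr; funext i; exact ih i

omit [Preorder P] in
theorem act_mul (g h : G) (τ : Nm P) : act (g * h) τ = act g (act h τ) := by
  induction τ with
  | mk ι x c ih => simp only [act, mul_smul]; congr; funext i; exact ih i

omit [Preorder P] in
theorem act_inv_act (g : G) (τ : Nm P) : act g⁻¹ (act g τ) = τ := by
  rw [← act_mul, inv_mul_cancel, act_one]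

omit [Preorder P] in
theorem act_act_inv (g : G) (τ : Nm P) : act g (act g⁻¹ τ) = τ := by
  rw [← act_mul, mul_inv_cancel, act_one]

theorem feq_act_aux [ActMono P G] (g : G) (σ τ : Nm P) (p : P) (h : feq σ τ p) :
    feq (act g σ) (act g τ) (g • p) := by
  induction σ generalizing τ p with
  | mk ι x c ih =>
    cases τ with
    | mk κ y d =>
      simp only [act, feq] at h ⊢
      constructor
      · intro i q hq hqi
        obtain ⟨s, hs, j, hj, hj'⟩ := h.1 i (g⁻¹ • q)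
          (by rw [smul_le_iff', inv_inv]; exact hq) (by rw [smul_le_iff', inv_inv]; exact hqi)
        refine ⟨g • s, ?_, j, ActMono.smul_le g hj, ih i _ _ hj'⟩
        rw [smul_le_iff']; exact hs
      · intro i q hq hqi
        obtain ⟨s, hs, j, hj, hj'⟩ := h.2 i (g⁻¹ • q)
          (by rw [smul_le_iff', inv_inv]; exact hq) (by rw [smul_le_iff', inv_inv]; exact hqi)
        refine ⟨g • s, ?_, j, ActMono.smul_le g hj, ih j _ _ hj'⟩
        rw [smul_le_iff']; exact hs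

theorem feq_act [ActMono P G] (g : G) (σ τ : Nm P) (p : P) :
    feq (act g σ) (act g τ) (g • p) ↔ feq σ τ p := by
  constructor
  · intro h
    have := feq_act_aux g⁻¹ _ _ _ h
    simpa only [act_inv_act, inv_smul_smul] using this
  · exact feq_act_aux g σ τ p

theorem feq_act' [ActMono P G] (g : G) (σ τ : Nm P) (p : P) :
    feq (act g σ) (act g τ) p ↔ feq σ τ (g⁻¹ • p) := by
  rw [← feq_act g σ τ, smul_inv_smul]

theorem fmem_act_aux [ActMono P G] (g : G) (σ τ : Nm P) (p : P) (h : fmem σ τ p) :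
    fmem (act g σ) (act g τ) (g • p) := by
  cases τ with
  | mk κ y d =>
    intro q hq
    obtain ⟨s, hs, j, hj, hj'⟩ := h (g⁻¹ • q) (by rw [smul_le_iff', inv_inv]; exact hq)
    refine ⟨g • s, ?_, j, ActMono.smul_le g hj, feq_act_aux g _ _ _ hj'⟩
    rw [smul_le_iff']; exact hs

theorem fmem_act [ActMono P G] (g : G) (σ τ : Nm P) (p : P) :
    fmem (act g σ) (act g τ) (g • p) ↔ fmem σ τ p := by
  constructor
  · intro h
    have := fmem_act_aux g⁻¹ _ _ _ h
    simpa only [act_inv_act, inv_smul_smul] using this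
  · exact fmem_act_aux g σ τ p

/-- A symmetric system: supports and the groups fixing them. -/
structure SymSys (P G : Type) [Preorder P] [Group G] [MulAction G P] where
  /-- the type of supports -/
  S : Type
  /-- the group elements which fix a support -/
  fix : S → Set G
  nonempty : Nonempty S
  dir : ∀ s t, ∃ u, fix u ⊆ fix s ∩ fix t
  conj : ∀ (g : G) (s : S), ∃ t, ∀ h ∈ fix t, g⁻¹ * h * g ∈ fix s

/-- `τ` is symmetric. -/
def Symm (𝔖 : SymSys P G) (τ : Nm P) : Prop :=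
  ∃ s : 𝔖.S, ∀ h ∈ 𝔖.fix s, ∀ p, feq (act h τ) τ p

/-- `τ` is hereditarily symmetric. -/
def HS (𝔖 : SymSys P G) : Nm P → Prop
  | mk ι x c => Symm 𝔖 (mk ι x c) ∧ ∀ i, HS 𝔖 (x i)

theorem HS.symm {𝔖 : SymSys P G} {τ : Nm P} (h : HS 𝔖 τ) : Symm 𝔖 τ := by
  cases τ; exact h.1

theorem HS.child {𝔖 : SymSys P G} {τ : Nm P} (h : HS 𝔖 τ) (i : τ.Idx) : HS 𝔖 (τ.child i) := by
  cases τ; exact h.2 i

theorem HS.mk' {𝔖 : SymSys P G} {τ : Nm P} (h : Symm 𝔖 τ) (h' : ∀ i, HS 𝔖 (τ.child i)) :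
    HS 𝔖 τ := by
  cases τ; exact ⟨h, h'⟩

theorem HS.act [ActMono P G] {𝔖 : SymSys P G} (g : G) {τ : Nm P} (h : HS 𝔖 τ) :
    HS 𝔖 (act g τ) := by
  induction τ with
  | mk ι x c ih =>
    refine ⟨?_, fun i => ih i (h.2 i)⟩
    obtain ⟨s, hs⟩ := h.1
    obtain ⟨t, ht⟩ := 𝔖.conj g s
    refine ⟨t, fun k hk p => ?_⟩
    have h1 := hs _ (ht k hk) (g⁻¹ • p)
    have h2 := feq_act_aux g _ _ _ h1
    rw [smul_inv_smul, ← act_mul] at h2
    have h3 : g * (g⁻¹ * k * g) = k * g := by group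
    rw [h3, act_mul] at h2
    exact h2

/-- `p` forces the formula `φ` at the assignment `v`; quantifiers range over the hereditarily
symmetric names. -/
def Fc (𝔖 : SymSys P G) : Fml → (ℕ → Nm P) → P → Prop
  | .bot, _, _ => False
  | .mem i j, v, p => fmem (v i) (v j) p
  | .eq i j, v, p => feq (v i) (v j) p
  | .imp φ ψ, v, p => ∀ q, q ≤ p → Fc 𝔖 φ v q → Fc 𝔖 ψ v q
  | .all φ, v, p => ∀ x, HS 𝔖 x → Fc 𝔖 φ (cons x v) p

theorem Fc_mono {𝔖 : SymSys P G} {φ : Fml} {v : ℕ → Nm P} {p q : P} (h : Fc 𝔖 φ v p)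
    (hq : q ≤ p) : Fc 𝔖 φ v q := by
  induction φ generalizing v p q with
  | bot => exact h
  | mem i j => exact fmem_mono h hq
  | eq i j => exact feq_mono h hq
  | imp φ ψ ihφ ihψ => exact fun r hr => h r (hr.trans hq)
  | all φ ih => exact fun x hx => ih (h x hx) hq

theorem Fc_dense {𝔖 : SymSys P G} {φ : Fml} {v : ℕ → Nm P} {p : P}
    (h : ∀ q, q ≤ p → ∃ r, r ≤ q ∧ Fc 𝔖 φ v r) : Fc 𝔖 φ v p := by
  induction φ generalizing v p with
  | bot => obtain ⟨r, -, hr⟩ := h p le_rfl; exact hr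
  | mem i j => exact fmem_dense h
  | eq i j => exact feq_dense h
  | imp φ ψ ihφ ihψ =>
    intro q hq hφ
    apply ihψ
    intro r hr
    obtain ⟨s, hs, hs'⟩ := h r (hr.trans hq)
    exact ⟨s, hs, hs' s le_rfl (Fc_mono hφ (hs.trans hr))⟩
  | all φ ih =>
    intro x hx
    apply ih
    intro q hq
    obtain ⟨r, hr, hr'⟩ := h q hq
    exact ⟨r, hr, hr' x hx⟩

theorem Fc_congr {𝔖 : SymSys P G} {φ : Fml} {v v' : ℕ → Nm P} {p : P}
    (hv : ∀ i, feq (v i) (v' i) p) (h : Fc 𝔖 φ v p) : Fc 𝔖 φ v' p := by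
  induction φ generalizing v v' p with
  | bot => exact h
  | mem i j => exact fmem_congr_left (hv i) (fmem_congr_right (hv j) h)
  | eq i j => exact feq_trans (feq_symm (hv i)) (feq_trans h (hv j))
  | imp φ ψ ihφ ihψ =>
    intro q hq hφ
    have hv' : ∀ i, feq (v i) (v' i) q := fun i => feq_mono (hv i) hq
    exact ihψ hv' (h q hq (ihφ (fun i => feq_symm (hv' i)) hφ))
  | all φ ih =>
    intro x hx
    refine ih ?_ (h x hx)
    intro i
    cases i with
    | zero => exact feq_refl _ _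
    | succ i => exact hv i

theorem Fc_act_aux [ActMono P G] {𝔖 : SymSys P G} (g : G) {φ : Fml} {v : ℕ → Nm P} {p : P} :
    Fc 𝔖 φ (fun i => act g (v i)) (g • p) ↔ Fc 𝔖 φ v p := by
  induction φ generalizing v p with
  | bot => rfl
  | mem i j => exact fmem_act g _ _ _
  | eq i j => exact feq_act g _ _ _
  | imp φ ψ ihφ ihψ =>
    constructor
    · intro h q hq hφ
      rw [← ihψ]
      exact h _ (ActMono.smul_le g hq) (ihφ.mpr hφ)
    · intro h q hq hφ
      have e : q = g • (g⁻¹ • q) := by rw [smul_inv_smul]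
      rw [e, ihψ]
      refine h _ (by rw [smul_le_iff', inv_inv]; exact hq) ?_
      rw [← ihφ, smul_inv_smul]
      exact hφ
  | all φ ih =>
    constructor
    · intro h x hx
      have h1 := h (act g x) (hx.act g)
      rw [← ih]
      convert h1 using 1
      funext i
      cases i <;> rfl
    · intro h x hx
      have h1 := h (act g⁻¹ x) (hx.act g⁻¹)
      rw [← ih] at h1
      convert h1 using 1
      funext i
      cases i with
      | zero => simp only [cons_zero, act_act_inv]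
      | succ i => rfl

/-- The number of free variables which can occur. -/
def Fml.bd : Fml → ℕ
  | .bot => 0
  | .mem i j => max i j + 1
  | .eq i j => max i j + 1
  | .imp φ ψ => max φ.bd ψ.bd
  | .all φ => φ.bd - 1

theorem Fc_bd {𝔖 : SymSys P G} {φ : Fml} {v v' : ℕ → Nm P} {p : P}
    (hv : ∀ i, i < φ.bd → v i = v' i) : Fc 𝔖 φ v p ↔ Fc 𝔖 φ v' p := by
  induction φ generalizing v v' p with
  | bot => rfl
  | mem i j =>
    simp only [Fc, Fml.bd] at *
    rw [hv i (by omega), hv j (by omega)]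
  | eq i j =>
    simp only [Fc, Fml.bd] at *
    rw [hv i (by omega), hv j (by omega)]
  | imp φ ψ ihφ ihψ =>
    simp only [Fc, Fml.bd] at *
    have h1 : ∀ q, Fc 𝔖 φ v q ↔ Fc 𝔖 φ v' q := fun q => ihφ fun i hi => hv i (by omega)
    have h2 : ∀ q, Fc 𝔖 ψ v q ↔ Fc 𝔖 ψ v' q := fun q => ihψ fun i hi => hv i (by omega)
    simp only [h1, h2]
  | all φ ih =>
    simp only [Fc, Fml.bd] at *
    have : ∀ x, Fc 𝔖 φ (cons x v) p ↔ Fc 𝔖 φ (cons x v') p := by
      intro x
      apply ih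
      intro i hi
      cases i with
      | zero => rfl
      | succ i => exact hv i (by omega)
    simp only [this]

end Action

end Pool.Agent.Helper87.Sym
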